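import Pool.Agent.Lib.MP_e43fce_ps.E2

/-! E3 (75 minutes): the chain of first passages for one `n`.
Logarithmic scale: `u` (think `u = log X`), thresholds `(R - i) u/R`, `J` a natural number with `J >= 8u/R`, `u >= 60 R`,
`0 < a <= 1/100`, `J log 2 <= 8 u/R` (so `2^J <= m` whenever `log m >= 8u/R`).
PROOF. Induction on `i`.  `i = 0`: `t = 0`.  Step `i -> i+1` (`i + 1 + 8 <= R`): let `t`, `m = col^[t] n` be given (second
alternative of the disjunction: nothing to do if the first alternative already holds for `i`).  `log m <= (R-i)u/R`, and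
`log m > (R-i-1)u/R`: for `i = 0` this is the hypothesis on `n` (`t = 0`); for `i >= 1`, `t >= 1` (because
`log n > (R-1)u/R >= (R-i)u/R`), `col^[t-1] n > exp((R-i)u/R)` and `m >= col^[t-1] n/2` (`col x >= x/2`), so
`log m > (R-i)u/R - log 2 > (R-i-1)u/R` as `u/R >= 60 > log 2`.  So `log m >= 8u/R`, `2^J <= m`.
If `Dev (a J) J m`: first alternative with this `t`, `i` (record minimum: `col^[s] n > exp((R-i)u/R) >= m` for `s < t`; and
`(R-i)u/R - log 2 < log m` if `i >= 1`, `t = 0` if `i = 0`).
Otherwise `e2_drop`: with `k = J + od J m <= 2J` `log (col^[k] m) <= log m - J (0.1438 - 0.0056) + 0.7 <= log m - u/R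
<= (R-i-1)u/R` (`J >= 8u/R`, `8 * 0.138 = 1.104`, `0.104 u/R >= 0.7`; numerical facts `log(4/3) >= 0.2876`, `log 3 <= 1.11`).
Let `k'` be the least `k'` with `log (col^[k'] m) <= (R-i-1)u/R` (`Nat.find`), `k' <= k`, `t' = t + k'`.  First passage: for
`s < t` by the old property, for `t <= s < t'` by minimality.  Path: for `s <= t` old; for `s = t + s'`, `s' <= k'`:
`dv n s = dv n t + dv m s'` and `e2_path`. -/

set_option autoImplicit false

namespace Pool.Agent.Lib.MP_e43fce_ps

open Pool.Agent.Lib.MP_e43fce_nt_nat (col)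
open Pool.Agent.Lib.MP_e43fce_nt_bt (T od)

private theorem e3_col_pos {x : ℕ} (hx : 1 ≤ x) : 1 ≤ col x := by
  unfold col
  split_ifs with h
  · omega
  · omega

private theorem e3_col_half (x : ℕ) : x ≤ 2 * col x := by
  unfold col
  split_ifs with h
  · omega
  · omega

private theorem e3_pos {n : ℕ} (hn : 1 ≤ n) (k : ℕ) : 1 ≤ col^[k] n := by
  induction k with
  | zero => exact hn
  | succ k ih =>
    rw [Function.iterate_succ_apply']
    exact e3_col_pos ih

private theorem e3_od_le (j m : ℕ) : od j m ≤ j := by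
  induction j generalizing m with
  | zero => simp [od]
  | succ j ih =>
    have h := ih (T m)
    rw [od]
    omega

private theorem e3_dv_add (n t s : ℕ) : dv n (t + s) = dv n t + dv (col^[t] n) s := by
  unfold dv
  rw [Nat.add_comm t s, Function.iterate_add_apply]
  push_cast
  ring

private theorem e3_log3 : Real.log 3 ≤ 11023 / 10000 := by
  have h1 : Real.log (9 / 8) ≤ 9 / 8 - 1 := Real.log_le_sub_one_of_pos (by norm_num)
  have h2 : Real.log (9 / 8) = 2 * Real.log 3 - 3 * Real.log 2 := by
    rw [Real.log_div (by norm_num) (by norm_num), show (9 : ℝ) = 3 ^ 2 by norm_num,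
      show (8 : ℝ) = 2 ^ 3 by norm_num, Real.log_pow, Real.log_pow]
    push_cast
    ring
  have h3 : Real.log 2 < 0.6931471808 := Real.log_two_lt_d9
  norm_num at h3
  linarith

private theorem e3_drop {J m : ℕ} {w a : ℝ} (ha : 0 < a) (ha1 : a ≤ 1 / 100) (hw : 60 ≤ w)
    (hJ : 8 * w ≤ J) (hm : 2 ^ J ≤ m) (h : ¬ Dev (a * J) J m) :
    Real.log (col^[J + od J m] m) ≤ Real.log m - w := by
  have h1 := e2_drop hm h
  have h2 := e3_log3
  have h3 : (0.6931471803 : ℝ) < Real.log 2 := Real.log_two_gt_d9
  have h4 : Real.log 2 < 0.6931471808 := Real.log_two_lt_d9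
  have h5 : Real.log (4 / 3) = 2 * Real.log 2 - Real.log 3 := by
    rw [Real.log_div (by norm_num) (by norm_num), show (4 : ℝ) = 2 ^ 2 by norm_num, Real.log_pow]
    push_cast
    ring
  have h6 : 0 < Real.log 3 := Real.log_pos (by norm_num)
  have hJ0 : (0 : ℝ) ≤ J := Nat.cast_nonneg J
  have h7 : a * Real.log 3 ≤ 1 / 100 * (11023 / 10000) :=
    mul_le_mul ha1 h2 h6.le (by norm_num)
  have h8 : (1364 / 10000 : ℝ) ≤ Real.log (4 / 3) / 2 - a * Real.log 3 / 2 := by
    rw [h5]
    norm_num at h3
    linarith
  have h9 : (J : ℝ) * (1364 / 10000) ≤ J * (Real.log (4 / 3) / 2 - a * Real.log 3 / 2) :=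
    mul_le_mul_of_nonneg_left h8 hJ0
  have h10 : (J : ℝ) * (Real.log (4 / 3) / 2 - a * Real.log 3 / 2) =
      J * (Real.log (4 / 3) / 2) - a * J * (Real.log 3 / 2) := by ring
  rw [h10] at h9
  norm_num at h4
  linarith

theorem e3_chain {R J n : ℕ} {u a : ℝ} (hR : 9 ≤ R) (ha : 0 < a) (ha1 : a ≤ 1 / 100)
    (hu : 60 * (R : ℝ) ≤ u) (hJ : 8 * u / R ≤ J) (hJ2 : J * Real.log 2 ≤ 8 * u / R)
    (hn : 1 ≤ n) (hnu : Real.log n ≤ u) (hnl : ((R : ℝ) - 1) * u / R < Real.log n) :
    ∀ i : ℕ, i + 8 ≤ R →
      (∃ i' t : ℕ, i' < i ∧ t ≤ 2 * J * i' ∧ Dev (a * J) J (col^[t] n) ∧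
        (∀ s < t, col^[t] n ≤ col^[s] n) ∧
        ((i' = 0 ∧ t = 0) ∨ (((R : ℝ) - i') * u / R - Real.log 2 < Real.log (col^[t] n) ∧
          Real.log (col^[t] n) ≤ ((R : ℝ) - i') * u / R))) ∨
      (∃ t : ℕ, t ≤ 2 * J * i ∧ Real.log (col^[t] n) ≤ ((R : ℝ) - i) * u / R ∧
        (∀ s < t, ((R : ℝ) - i) * u / R < Real.log (col^[s] n)) ∧
        ∀ s ≤ t, |dv n s| ≤ i * (a * J + 3)) := by
  classical
  have hR0 : (0 : ℝ) < R := by
    have : 0 < R := by omega
    exact_mod_cast this
  obtain ⟨w, hw⟩ : ∃ w : ℝ, w = u / R := ⟨_, rfl⟩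
  have hw60 : 60 ≤ w := by
    rw [hw, le_div_iff₀ hR0]
    exact hu
  have hE : ∀ x : ℝ, x * u / R = x * w := by
    intro x
    rw [hw, mul_div_assoc]
  have hRw : (R : ℝ) * w = u := by
    rw [hw]
    field_simp
  simp only [hE] at *
  have hl2 : Real.log 2 < 0.6931471808 := Real.log_two_lt_d9
  norm_num at hl2
  have hJ0 : (0 : ℝ) ≤ J := Nat.cast_nonneg J
  have hb0 : 0 ≤ a * J + 3 := by positivity
  have hposk : ∀ k, (0 : ℝ) < (col^[k] n : ℕ) := fun k => by exact_mod_cast e3_pos hn k
  intro i
  induction i with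
  | zero =>
    intro _
    right
    refine ⟨0, by omega, ?_, fun s hs => by omega, ?_⟩
    · rw [Function.iterate_zero_apply]
      push_cast
      linarith
    · intro s hs
      have h0 : s = 0 := by omega
      subst h0
      unfold dv
      simp
  | succ i ih =>
    intro hi
    rcases ih (by omega) with ⟨i', t, h1, h2, h3, h4, h5⟩ | ⟨t, h1, h2, h3, h4⟩
    · exact Or.inl ⟨i', t, by omega, h2, h3, h4, h5⟩
    · have hmin : ∀ s < t, col^[t] n ≤ col^[s] n := by
        intro s hs
        have h5 := h2.trans_lt (h3 s hs)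
        have h6 := (Real.log_lt_log_iff (hposk t) (hposk s)).1 h5
        exact_mod_cast h6.le
      have hi1 : (1 : ℝ) ≤ (R : ℝ) - i - 8 := by
        have : i + 1 + 8 ≤ R := hi
        have h5 : ((i + 1 + 8 : ℕ) : ℝ) ≤ R := by exact_mod_cast this
        push_cast at h5
        linarith
      have hlow : (i = 0 ∧ t = 0) ∨ ((R : ℝ) - i) * w - Real.log 2 < Real.log (col^[t] n) := by
        rcases Nat.eq_zero_or_pos i with h0 | h0
        · subst h0
          left
          exact ⟨rfl, by omega⟩
        · right
          have h5 : (1 : ℝ) ≤ i := by exact_mod_cast h0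
          have ht : t ≠ 0 := by
            intro ht
            rw [ht, Function.iterate_zero_apply] at h2
            have h6 : ((R : ℝ) - i) * w ≤ ((R : ℝ) - 1) * w :=
              mul_le_mul_of_nonneg_right (by linarith) (by linarith)
            linarith
          obtain ⟨t', rfl⟩ := Nat.exists_eq_succ_of_ne_zero ht
          have h6 := h3 t' (Nat.lt_succ_self t')
          have h7 : (col^[t'] n : ℝ) ≤ 2 * (col^[t' + 1] n : ℕ) := by
            rw [Function.iterate_succ_apply']
            exact_mod_cast e3_col_half _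
          have h8 := Real.log_le_log (hposk t') h7
          rw [Real.log_mul (by norm_num) (hposk (t' + 1)).ne'] at h8
          have h9 : Real.log (col^[t'.succ] n : ℕ) = Real.log (col^[t' + 1] n : ℕ) := rfl
          rw [h9]
          linarith
      have hlow2 : ((R : ℝ) - i - 1) * w < Real.log (col^[t] n) := by
        rcases hlow with ⟨h5, h6⟩ | h5
        · subst h5
          subst h6
          rw [Function.iterate_zero_apply]
          push_cast
          have : ((R : ℝ) - 0 - 1) * w = ((R : ℝ) - 1) * w := by ring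
          rw [this]
          exact hnl
        · nlinarith
      by_cases hD : Dev (a * J) J (col^[t] n)
      · left
        refine ⟨i, t, by omega, h1, hD, hmin, ?_⟩
        rcases hlow with h5 | h5
        · exact Or.inl h5
        · exact Or.inr ⟨h5, h2⟩
      · right
        have hm2 : 2 ^ J ≤ col^[t] n := by
          have h5 : 8 * w ≤ ((R : ℝ) - i - 1) * w :=
            mul_le_mul_of_nonneg_right (by linarith) (by linarith)
          have h6 : Real.log ((2 : ℝ) ^ J) < Real.log (col^[t] n) := by
            rw [Real.log_pow]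
            linarith
          have h7 := (Real.log_lt_log_iff (by positivity) (hposk t)).1 h6
          exact_mod_cast h7.le
        have hdrop := e3_drop ha ha1 hw60 hJ hm2 hD
        have hex : ∃ k, Real.log (col^[k] (col^[t] n)) ≤ ((R : ℝ) - i - 1) * w := by
          refine ⟨_, hdrop.trans ?_⟩
          have : ((R : ℝ) - i - 1) * w = ((R : ℝ) - i) * w - w := by ring
          rw [this]
          linarith
        have hk1 : Nat.find hex ≤ J + od J (col^[t] n) := by
          apply Nat.find_min'
          refine hdrop.trans ?_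
          have : ((R : ℝ) - i - 1) * w = ((R : ℝ) - i) * w - w := by ring
          rw [this]
          linarith
        have hk2 := Nat.find_spec hex
        have hk3 : ∀ s < Nat.find hex, ((R : ℝ) - i - 1) * w <
            Real.log (col^[s] (col^[t] n)) := fun s hs => not_le.1 (Nat.find_min hex hs)
        generalize Nat.find hex = k at hk1 hk2 hk3
        have hod := e3_od_le J (col^[t] n)
        have hRi : ((R : ℝ) - ((i + 1 : ℕ) : ℝ)) * w = ((R : ℝ) - i - 1) * w := by
          push_cast
          ring
        have hit : ∀ s, col^[t + s] n = col^[s] (col^[t] n) := by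
          intro s
          rw [Nat.add_comm t s, Function.iterate_add_apply]
        refine ⟨t + k, ?_, ?_, ?_, ?_⟩
        · have : 2 * J * (i + 1) = 2 * J * i + 2 * J := by ring
          rw [this]
          omega
        · rw [hRi, hit]
          exact hk2
        · intro s hs
          rw [hRi]
          rcases Nat.lt_or_ge s t with h5 | h5
          · have h6 := h3 s h5
            have h7 : ((R : ℝ) - i - 1) * w ≤ ((R : ℝ) - i) * w :=
              mul_le_mul_of_nonneg_right (by linarith) (by linarith)
            linarith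
          · obtain ⟨s', rfl⟩ := Nat.exists_eq_add_of_le h5
            rw [hit]
            exact hk3 s' (by omega)
        · intro s hs
          have hc : (((i + 1 : ℕ) : ℝ)) * (a * J + 3) = i * (a * J + 3) + (a * J + 3) := by
            push_cast
            ring
          rw [hc]
          rcases Nat.lt_or_ge s t with h5 | h5
          · have h6 := h4 s h5.le
            linarith
          · obtain ⟨s', rfl⟩ := Nat.exists_eq_add_of_le h5
            rw [e3_dv_add]
            have h6 := h4 t le_rfl
            have h7 := e2_path hm2 hD s' (by omega)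
            have h8 := abs_add_le (dv n t) (dv (col^[t] n) s')
            linarith

end Pool.Agent.Lib.MP_e43fce_ps
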