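import Pool.Agent.Lib.MP_e43fce_ps.PA1

/-! PA2 (60 minutes): record minima are hit with bounded multiplicity.
PROOF. For `o <= T`, `e <= T` let `S_(o,e)` be the set of `n` in `[1,X]` which hit `m` at a time
`t <= T` (record minimum) with `oc t n = o` and `t - oc t n = e`.  The set in question is the union of these
`(T+1)^2` sets, so it is enough that `m * card S_(o,e) <= (T+1) * X`.
If `S_(o,e)` is empty, fine.  Otherwise let `a`, `b` be its minimum and maximum.  PA1 (with `col^[t] n = m > 0`):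
`2^e m = 3^o n + F`, `3 F <= o 2^e` for `n = a, b`.  So `3 * 3^o (b - a) <= o 2^e` (`3^o b <= 2^e m` and
`3 * 2^e m <= 3 * 3^o a + o 2^e`).  Also `2^e (3m - o) <= 3 * 3^o X`, and `3m - o >= 2m` because `o <= T < m`:
`2^e 2m <= 3 * 3^o X`.  So `2 m (b-a) 3 * 3^o <= 2m o 2^e <= o * 3 * 3^o X`, `2 m (b - a) <= o X`.
`card S <= b - a + 1` (`S` is contained in `Icc a b`), and `m <= X`: if `t = 0` then `n = m`, if `t > 0` then
`m <= col^[0] n = n <= X`.  So `2 m card S <= o X + 2 X <= 2 (T+1) X`. -/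

set_option autoImplicit false

namespace Pool.Agent.Lib.MP_e43fce_ps

open Finset
open Pool.Agent.Lib.MP_e43fce_nt_nat (col)

theorem pa2_one {T m X o e : ℕ} (h : T < m) (ho : o ≤ T) (S : Finset ℕ)
    (hS : ∀ n ∈ S, 1 ≤ n ∧ n ≤ X ∧ ∃ t ≤ T, col^[t] n = m ∧ (∀ i < t, m ≤ col^[i] n) ∧
      oc t n = o ∧ t - oc t n = e) : m * S.card ≤ (T + 1) * X := by
  rcases S.eq_empty_or_nonempty with hE | hE
  · simp [hE]
  have hm : 0 < m := by omega
  have key : ∀ n ∈ S, ∃ F : ℕ, 2 ^ e * m = 3 ^ o * n + F ∧ 3 * F ≤ o * 2 ^ e := by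
    intro n hn
    obtain ⟨_, _, t, _, h1, h2, h3, h4⟩ := hS n hn
    obtain ⟨F, hF1, hF2⟩ := pa1_orbit m n t h2
    rw [h4, h3, h1] at hF1 hF2
    refine ⟨F, hF1, ?_⟩
    have h5 : m * (3 * F) ≤ m * (o * 2 ^ e) := by
      calc m * (3 * F) = 3 * m * F := by ring
        _ ≤ o * 2 ^ e * m := hF2
        _ = m * (o * 2 ^ e) := by ring
    exact Nat.le_of_mul_le_mul_left h5 hm
  have hmX : m ≤ X := by
    obtain ⟨n, hn⟩ := hE
    obtain ⟨_, h0, t, _, h1, h2, _, _⟩ := hS n hn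
    rcases Nat.eq_zero_or_pos t with h3 | h3
    · rw [h3] at h1
      simp only [Function.iterate_zero, id_eq] at h1
      omega
    · have h4 := h2 0 h3
      simp only [Function.iterate_zero, id_eq] at h4
      omega
  set a := S.min' hE with ha
  set b := S.max' hE with hb
  have haS : a ∈ S := S.min'_mem hE
  have hbS : b ∈ S := S.max'_mem hE
  have hab : a ≤ b := S.min'_le b hbS
  obtain ⟨Fa, ha1, ha2⟩ := key a haS
  obtain ⟨Fb, hb1, _⟩ := key b hbS
  have haX : a ≤ X := (hS a haS).2.1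
  obtain ⟨d, hd⟩ := Nat.exists_eq_add_of_le hab
  have hcard : S.card ≤ d + 1 := by
    have h1 : S ⊆ Icc a b := fun x hx => mem_Icc.2 ⟨S.min'_le x hx, S.le_max' x hx⟩
    have h2 := card_le_card h1
    rw [Nat.card_Icc] at h2
    omega
  set p : ℕ := 3 ^ o with hp
  set q : ℕ := 2 ^ e with hq
  have hp0 : 0 < p := by rw [hp]; positivity
  -- `3 p d ≤ o q`
  have h1 : 3 * p * d ≤ o * q := by
    have h2 : p * b = p * a + p * d := by rw [hd]; ring
    nlinarith
  -- `2 m q ≤ 3 p X`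
  have h2 : 2 * m * q ≤ 3 * p * X := by
    have h3 : p * a ≤ p * X := Nat.mul_le_mul_left _ haX
    have h4 : o * q ≤ m * q := Nat.mul_le_mul_right _ (by omega)
    nlinarith
  have h3 : 2 * m * d ≤ o * X := by
    have h4 : 3 * p * (2 * m * d) ≤ 3 * p * (o * X) := by
      calc 3 * p * (2 * m * d) = 2 * m * (3 * p * d) := by ring
        _ ≤ 2 * m * (o * q) := Nat.mul_le_mul_left _ h1
        _ = o * (2 * m * q) := by ring
        _ ≤ o * (3 * p * X) := Nat.mul_le_mul_left _ h2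
        _ = 3 * p * (o * X) := by ring
    exact Nat.le_of_mul_le_mul_left h4 (by omega)
  have h4 : o * X ≤ T * X := Nat.mul_le_mul_right _ ho
  have h5 : m * S.card ≤ m * (d + 1) := Nat.mul_le_mul_left _ hcard
  nlinarith

theorem pa2_mult {T m X : ℕ} (h : T < m) (S : Finset ℕ)
    (hS : ∀ n ∈ S, 1 ≤ n ∧ n ≤ X ∧ Hits T m n) : m * S.card ≤ (T + 1) ^ 3 * X := by
  classical
  have h1 : ∀ n : ℕ, ∃ p : ℕ × ℕ, n ∈ S → (p.1 ≤ T ∧ p.2 ≤ T ∧ ∃ t ≤ T, col^[t] n = m ∧
      (∀ i < t, m ≤ col^[i] n) ∧ oc t n = p.1 ∧ t - oc t n = p.2) := by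
    intro n
    by_cases hn : n ∈ S
    · obtain ⟨_, _, t, ht, h2, h3⟩ := hS n hn
      refine ⟨(oc t n, t - oc t n), fun _ => ⟨(oc_le t n).trans ht, (Nat.sub_le _ _).trans ht,
        t, ht, h2, h3, rfl, rfl⟩⟩
    · exact ⟨(0, 0), fun h2 => absurd h2 hn⟩
  choose f hf using h1
  have h2 : Set.MapsTo f (S : Set ℕ) (range (T + 1) ×ˢ range (T + 1) : Finset (ℕ × ℕ)) := by
    intro n hn
    have h3 := hf n hn
    rw [mem_coe, mem_product, mem_range, mem_range]
    exact ⟨Nat.lt_succ_of_le h3.1, Nat.lt_succ_of_le h3.2.1⟩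
  rw [card_eq_sum_card_fiberwise h2, mul_sum]
  calc ∑ p ∈ range (T + 1) ×ˢ range (T + 1), m * (S.filter (fun n => f n = p)).card ≤
        ∑ _p ∈ range (T + 1) ×ˢ range (T + 1), (T + 1) * X := by
        refine sum_le_sum fun p hp => ?_
        rw [mem_product, mem_range, mem_range] at hp
        refine pa2_one (o := p.1) (e := p.2) h (Nat.lt_succ_iff.1 hp.1) _ fun n hn => ?_
        rw [mem_filter] at hn
        obtain ⟨_, _, h3⟩ := hf n hn.1
        rw [hn.2] at h3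
        exact ⟨(hS n hn.1).1, (hS n hn.1).2.1, h3⟩
    _ = (T + 1) ^ 3 * X := by
        rw [sum_const, card_product, card_range, smul_eq_mul]
        ring

end Pool.Agent.Lib.MP_e43fce_ps
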