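import Pool.Agent.Lib.MP_e43fce_ps.E1
import Pool.Agent.Lib.MP_e43fce_ps.E3
import Pool.Agent.Lib.MP_e43fce_ps.PA2

/-! E4 (120 minutes): counting; the path down to `X^eta` with a power saving.
PROOF. Choose `a = min (1/100) (eps/32)` and a natural `R >= 9` with `8/R <= eta`, `1/R <= eps/4`.  `q, C` from `e1_count` (for `a`).
`u = log X`, `J = ceil(8u/R)`, `T = 2 J R`.  Let `X >= X0` (`X0` depends on `eps, eta` only), so that `u >= 60 R`,
`J log 2 <= 8u/R` (`(8u/R + 1) log 2 <= 8u/R`), and `T < m` for every `m` with `log m >= 8u/R - log 2`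
(`T <= 16u + 2R <= exp(8u/R)/2` for `u` large).
Let `n` be in `S`.  (A) `log n <= (1 - 1/R) u`: at most `X^(1 - 1/R)` of these.  (B) otherwise `e3_chain` with `i = R - 8`.
Second alternative: `k = t`, `log (col^[t] n) <= 8u/R <= eta u`, and for `s <= t`
`|log(col^[s] n) - (u - s log(4/3)/3)| <= |dv n s| + |log n - u| <= R (a J + 3) + u/R <= 8 a u + R (a + 3) + u/R
<= (eps/4 + eps/4) u + K` : contradicts the hypothesis on `n`.  So the first alternative holds, with `i' < R - 8`: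
(B0) `i' = 0`, `t = 0`: `n` itself is deviant: at most `C q^J X` of these (`e1_count`, `Y = X`, `2^J <= X`).
(Bi) `i' >= 1` (or the second form for `i' = 0`): `m = col^[t] n` is deviant, `Hits T m n`, `exp(v)/2 < m <= exp(v)`,
`v = (R-i')u/R >= 9u/R`: the number of such `m` is at most `C q^J exp(v)` (`Y = floor(exp v) >= 2^J`), and each is hit by at most
`(T+1)^3 X/m <= 2 (T+1)^3 X exp(-v)` of the `n` (`pa2_mult`).  So at most `2 C (T+1)^3 q^J X` for each `i'`, `R` values.
Total: `X^(1-1/R) + C q^J X + 2 R C (T+1)^3 q^J X`, `q^J <= exp(-c u) = X^(-c)` with `c = 8 log(1/q)/R`, and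
`(T+1)^3 <= (16u + 2R + 1)^3 <= K X^(c/2)`.  For `X < X0`: `card S <= X <= X0 X^(1-delta)` (`delta <= 1`). -/

set_option autoImplicit false

namespace Pool.Agent.Lib.MP_e43fce_ps

open Finset
open Pool.Agent.Lib.MP_e43fce_nt_nat (col)

theorem e4_small (v : ℝ) (S : Finset ℕ) (hS : ∀ n ∈ S, 1 ≤ n ∧ Real.log n ≤ v) :
    (S.card : ℝ) ≤ Real.exp v := by
  have h1 : S ⊆ Icc 1 ⌊Real.exp v⌋₊ := by
    intro n hn
    obtain ⟨h1, h2⟩ := hS n hn
    rw [mem_Icc]
    refine ⟨h1, Nat.le_floor ?_⟩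
    have h3 : (0 : ℝ) < n := by exact_mod_cast h1
    exact (Real.log_le_iff_le_exp h3).mp h2
  have h2 := card_le_card h1
  rw [Nat.card_Icc, Nat.add_sub_cancel] at h2
  calc (S.card : ℝ) ≤ (⌊Real.exp v⌋₊ : ℝ) := by exact_mod_cast h2
    _ ≤ Real.exp v := Nat.floor_le (Real.exp_pos v).le

theorem e4_hit {T X : ℕ} {v B : ℝ} (P : ℕ → Prop) (hv : Real.log 2 ≤ v)
    (hT : (T : ℝ) ≤ Real.exp v / 2)
    (hM : ∀ M : Finset ℕ, (∀ m ∈ M, 1 ≤ m ∧ (m : ℝ) ≤ Real.exp v ∧ P m) →
      (M.card : ℝ) ≤ B * Real.exp v)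
    (S : Finset ℕ) (hS : ∀ n ∈ S, 1 ≤ n ∧ n ≤ X ∧ ∃ m, P m ∧ v - Real.log 2 < Real.log m ∧
      Real.log m ≤ v ∧ Hits T m n) :
    (S.card : ℝ) ≤ 2 * B * ((T : ℝ) + 1) ^ 3 * X := by
  classical
  have h1 : ∀ n : ℕ, ∃ m : ℕ, n ∈ S → (P m ∧ v - Real.log 2 < Real.log m ∧
      Real.log m ≤ v ∧ Hits T m n) := by
    intro n
    by_cases hn : n ∈ S
    · obtain ⟨_, _, m, hm⟩ := hS n hn
      exact ⟨m, fun _ => hm⟩
    · exact ⟨0, fun h => absurd h hn⟩
  choose f hf using h1
  have hmp : ∀ n ∈ S, Real.exp v / 2 < (f n : ℝ) := by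
    intro n hn
    obtain ⟨_, h2, _, _⟩ := hf n hn
    have h3 : (0 : ℝ) < (f n : ℝ) := by
      rcases Nat.eq_zero_or_pos (f n) with h | h
      · rw [h, Nat.cast_zero, Real.log_zero] at h2
        linarith
      · exact_mod_cast h
    have h4 := (Real.lt_log_iff_exp_lt h3).mp h2
    rw [Real.exp_sub, Real.exp_log (by norm_num)] at h4
    exact h4
  have hev := Real.exp_pos v
  have h2 : ∀ m ∈ S.image f, ((S.filter (fun n => f n = m)).card : ℝ) ≤
      2 * ((T : ℝ) + 1) ^ 3 * X / Real.exp v := by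
    intro m hm
    obtain ⟨n0, hn0, rfl⟩ := mem_image.mp hm
    have h3 := hmp n0 hn0
    have h4 : T < f n0 := by
      have : (T : ℝ) < f n0 := lt_of_le_of_lt hT h3
      exact_mod_cast this
    have h5 := pa2_mult (T := T) (m := f n0) (X := X) h4 (S.filter (fun n => f n = f n0))
      (fun n hn => by
        rw [mem_filter] at hn
        obtain ⟨h6, h7, _⟩ := hS n hn.1
        refine ⟨h6, h7, ?_⟩
        have := (hf n hn.1).2.2.2
        rw [hn.2] at this
        exact this)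
    have h6 : (f n0 : ℝ) * ((S.filter (fun n => f n = f n0)).card : ℝ) ≤
        ((T : ℝ) + 1) ^ 3 * X := by exact_mod_cast h5
    rw [le_div_iff₀ hev]
    have h7 : (Real.exp v / 2) * ((S.filter (fun n => f n = f n0)).card : ℝ) ≤
        (f n0 : ℝ) * ((S.filter (fun n => f n = f n0)).card : ℝ) :=
      mul_le_mul_of_nonneg_right h3.le (Nat.cast_nonneg _)
    linarith
  have h3 : (S.card : ℝ) = ∑ m ∈ S.image f, ((S.filter (fun n => f n = m)).card : ℝ) := by
    have := card_eq_sum_card_image f S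
    exact_mod_cast this
  have h4 := hM (S.image f) (fun m hm => by
    obtain ⟨n0, hn0, rfl⟩ := mem_image.mp hm
    obtain ⟨h5, h6, h7, _⟩ := hf n0 hn0
    have h8 := hmp n0 hn0
    have h9 : (0 : ℝ) < (f n0 : ℝ) := by linarith [half_pos hev]
    refine ⟨?_, (Real.log_le_iff_le_exp h9).mp h7, h5⟩
    exact_mod_cast h9)
  rw [h3]
  refine (sum_le_sum h2).trans ?_
  rw [sum_const, nsmul_eq_mul]
  have h5 : 0 ≤ 2 * ((T : ℝ) + 1) ^ 3 * X / Real.exp v := by positivity
  refine (mul_le_mul_of_nonneg_right h4 h5).trans (le_of_eq ?_)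
  field_simp

theorem e4_large {ε η a : ℝ} {R : ℕ} {q C : ℝ} (hq0 : 0 < q) (hC : 0 < C)
    (hcount : ∀ J Y : ℕ, 2 ^ J ≤ Y → ∀ S : Finset ℕ,
      (∀ m ∈ S, 1 ≤ m ∧ m ≤ Y ∧ Dev (a * J) J m) → (S.card : ℝ) ≤ C * q ^ J * Y)
    (hR : 9 ≤ R) (ha : 0 < a) (ha1 : a ≤ 1 / 100) (h8a : 8 * a ≤ ε / 4)
    (h1R : 1 / (R : ℝ) ≤ ε / 4) (h8R : 8 / (R : ℝ) ≤ η) {K : ℝ} (hK : R * (a + 3) ≤ K)
    {X : ℕ} (hX : 1 ≤ X) (hu : (R : ℝ) * (R + 60) ≤ Real.log X) (S : Finset ℕ)
    (hS : ∀ n ∈ S, 1 ≤ n ∧ n ≤ X ∧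
      ¬ ∃ k : ℕ, Real.log (col^[k] n) ≤ η * Real.log X ∧ ∀ s ≤ k,
        |Real.log (col^[s] n) - (Real.log X - s * (Real.log (4 / 3) / 3))| ≤
          ε * Real.log X + K) :
    ∃ J T : ℕ, 8 * Real.log X / R ≤ J ∧ (T : ℝ) ≤ 16 * Real.log X + 2 * R ∧
      (S.card : ℝ) ≤ Real.exp (((R : ℝ) - 1) * Real.log X / R) + C * q ^ J * X +
        R * (2 * (C * q ^ J) * ((T : ℝ) + 1) ^ 3 * X) := by
  classical
  have hRpos : (0 : ℝ) < R := by
    have : 0 < R := by omega
    exact_mod_cast this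
  have hR9 : (9 : ℝ) ≤ R := by exact_mod_cast hR
  have hXpos : (0 : ℝ) < X := by exact_mod_cast hX
  have hlogX : Real.exp (Real.log X) = X := Real.exp_log hXpos
  have hlogmono : ∀ n : ℕ, 1 ≤ n → n ≤ X → Real.log n ≤ Real.log X := by
    intro n h1 h2
    apply Real.log_le_log
    · exact_mod_cast h1
    · exact_mod_cast h2
  generalize Real.log (X : ℝ) = u at *
  have hw : (R : ℝ) + 60 ≤ u / R := by
    rw [le_div_iff₀ hRpos]; linarith
  have hupos : 0 < u := by nlinarith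
  have hu60 : 60 * (R : ℝ) ≤ u := by nlinarith
  obtain ⟨J, hJdef⟩ : ∃ J : ℕ, J = ⌈8 * u / R⌉₊ := ⟨_, rfl⟩
  have hJ1 : 8 * u / R ≤ J := by rw [hJdef]; exact Nat.le_ceil _
  have hJ2 : (J : ℝ) ≤ 8 * u / R + 1 := by
    rw [hJdef]
    exact (Nat.ceil_lt_add_one (by positivity)).le
  have h8w : 8 * u / R = 8 * (u / R) := by ring
  have hlog2 : Real.log 2 < 0.7 := by
    have := Real.log_two_lt_d9
    linarith
  have hlog2pos : 0 < Real.log 2 := Real.log_pos (by norm_num)
  have hJlog : (J : ℝ) * Real.log 2 ≤ 8 * u / R := by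
    have h1 : (J : ℝ) * Real.log 2 ≤ (8 * u / R + 1) * 0.7 := by
      apply mul_le_mul hJ2 hlog2.le hlog2pos.le
      positivity
    rw [h8w] at h1 ⊢
    nlinarith
  have h2J : (2 : ℝ) ^ J ≤ Real.exp (8 * u / R) := by
    have h1 : (2 : ℝ) ^ J = Real.exp (J * Real.log 2) := by
      rw [mul_comm, Real.exp_mul, Real.exp_log (by norm_num), Real.rpow_natCast]
    rw [h1]
    exact Real.exp_le_exp.mpr hJlog
  obtain ⟨T, hTdef⟩ : ∃ T : ℕ, T = 2 * J * R := ⟨_, rfl⟩
  have hT1 : (T : ℝ) ≤ 16 * u + 2 * R := by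
    have h1 : (T : ℝ) = 2 * J * R := by rw [hTdef]; push_cast; ring
    rw [h1]
    have h2 : (J : ℝ) * R ≤ 8 * u + R := by
      have h3 := mul_le_mul_of_nonneg_right hJ2 hRpos.le
      have h4 : (8 * u / R + 1) * R = 8 * u + R := by field_simp
      rw [h4] at h3
      exact h3
    nlinarith
  have hT2 : 16 * u + 2 * (R : ℝ) ≤ Real.exp (8 * u / R) / 2 := by
    have h1 : (8 * u / R) ^ 2 / 2 ≤ Real.exp (8 * u / R) := by
      have := Real.quadratic_le_exp_of_nonneg (x := 8 * u / R) (by positivity)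
      have h2 : 0 ≤ 8 * u / R := by positivity
      linarith
    rw [h8w] at h1 ⊢
    have h3 : u = (u / R) * R := by field_simp
    generalize u / R = w at *
    rw [h3]
    nlinarith
  refine ⟨J, T, hJ1, hT1, ?_⟩
  have hqJ : 0 < q ^ J := pow_pos hq0 J
  set SA := S.filter (fun n : ℕ => Real.log (n : ℝ) ≤ ((R : ℝ) - 1) * u / R) with hSA
  set SB := S.filter (fun n : ℕ => Dev (a * J) J n) with hSB
  set SI : ℕ → Finset ℕ := fun i => S.filter (fun n : ℕ => ∃ m : ℕ, Dev (a * J) J m ∧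
    ((R : ℝ) - i) * u / R - Real.log 2 < Real.log m ∧ Real.log m ≤ ((R : ℝ) - i) * u / R ∧
      Hits T m n) with hSI
  have hcov : S ⊆ SA ∪ (SB ∪ (range (R - 8)).biUnion SI) := by
    intro n hn
    obtain ⟨hn1, hnX, hno⟩ := hS n hn
    rw [mem_union, mem_union, mem_biUnion]
    by_cases hA : Real.log n ≤ ((R : ℝ) - 1) * u / R
    · left; rw [hSA, mem_filter]; exact ⟨hn, hA⟩
    · right
      push Not at hA
      have hnu := hlogmono n hn1 hnX
      rcases e3_chain hR ha ha1 hu60 hJ1 hJlog hn1 hnu hA (R - 8) (by omega) with h | h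
      · obtain ⟨i', t, hi', ht, hdev, hrec, hor⟩ := h
        rcases hor with ⟨_, ht0⟩ | ⟨h1, h2⟩
        · left
          rw [hSB, mem_filter]
          rw [ht0] at hdev
          exact ⟨hn, hdev⟩
        · right
          refine ⟨i', mem_range.mpr hi', ?_⟩
          rw [hSI]
          simp only [mem_filter]
          refine ⟨hn, col^[t] n, hdev, h1, h2, t, ?_, rfl, hrec⟩
          rw [hTdef]
          exact ht.trans (Nat.mul_le_mul_left _ (by omega))
      · exfalso
        obtain ⟨t, _, h1, _, h2⟩ := h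
        apply hno
        have hcast : ((R - 8 : ℕ) : ℝ) = R - 8 := by
          rw [Nat.cast_sub (by omega)]; norm_num
        rw [hcast] at h1 h2
        refine ⟨t, ?_, ?_⟩
        · refine h1.trans ?_
          have h3 : ((R : ℝ) - (R - 8)) * u / R = (8 / R) * u := by ring
          rw [h3]
          exact mul_le_mul_of_nonneg_right h8R hupos.le
        · intro s hs
          have h3 := h2 s hs
          have h4 : Real.log (col^[s] n) - (u - s * (Real.log (4 / 3) / 3)) =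
              dv n s + (Real.log n - u) := by unfold dv; ring
          rw [h4]
          have h5 := abs_add_le (dv n s) (Real.log n - u)
          have h6 : |Real.log n - u| ≤ u / R := by
            rw [abs_le]
            have h7 : ((R : ℝ) - 1) * u / R = u - u / R := by field_simp
            rw [h7] at hA
            have h8 : 0 ≤ u / R := by positivity
            constructor
            · linarith
            · linarith
          have h7 : ((R : ℝ) - 8) * (a * J + 3) ≤ 8 * a * u + R * (a + 3) := by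
            have h8 : a * (J : ℝ) ≤ a * (8 * u / R + 1) := mul_le_mul_of_nonneg_left hJ2 ha.le
            have h9 : ((R : ℝ) - 8) * (a * J + 3) ≤ R * (a * (8 * u / R + 1) + 3) := by
              apply mul_le_mul
              · linarith
              · linarith
              · positivity
              · exact hRpos.le
            have h10 : (R : ℝ) * (a * (8 * u / R + 1) + 3) = 8 * a * u + R * (a + 3) := by
              field_simp
              ring
            linarith
          have h8 : u / R ≤ ε / 4 * u := by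
            have := mul_le_mul_of_nonneg_right h1R hupos.le
            have h9 : 1 / (R : ℝ) * u = u / R := by ring
            linarith
          have h9 : 8 * a * u ≤ ε / 4 * u := mul_le_mul_of_nonneg_right h8a hupos.le
          have h10 : 0 ≤ ε / 4 * u := by
            have : 0 ≤ 8 * a * u := by positivity
            linarith
          linarith
  have hcard : (S.card : ℝ) ≤ SA.card + (SB.card + ∑ i ∈ range (R - 8), ((SI i).card : ℝ)) := by
    have h1 := card_le_card hcov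
    have h2 := card_union_le SA (SB ∪ (range (R - 8)).biUnion SI)
    have h3 := card_union_le SB ((range (R - 8)).biUnion SI)
    have h4 : ((range (R - 8)).biUnion SI).card ≤ ∑ i ∈ range (R - 8), (SI i).card :=
      card_biUnion_le
    have h5 : S.card ≤ SA.card + (SB.card + ∑ i ∈ range (R - 8), (SI i).card) := by omega
    exact_mod_cast h5
  have hcA : (SA.card : ℝ) ≤ Real.exp (((R : ℝ) - 1) * u / R) := by
    apply e4_small
    intro n hn
    rw [hSA, mem_filter] at hn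
    exact ⟨(hS n hn.1).1, hn.2⟩
  have hcB : (SB.card : ℝ) ≤ C * q ^ J * X := by
    apply hcount J X
    · have h1 : (2 : ℝ) ^ J ≤ X := by
        refine h2J.trans ?_
        rw [← hlogX]
        apply Real.exp_le_exp.mpr
        rw [div_le_iff₀ hRpos]
        nlinarith
      exact_mod_cast h1
    · intro n hn
      rw [hSB, mem_filter] at hn
      exact ⟨(hS n hn.1).1, (hS n hn.1).2.1, hn.2⟩
  have hcI : ∀ i ∈ range (R - 8), ((SI i).card : ℝ) ≤
      2 * (C * q ^ J) * ((T : ℝ) + 1) ^ 3 * X := by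
    intro i hi
    rw [mem_range] at hi
    have hi2 : (i : ℝ) + 8 ≤ R := by
      have : i + 8 ≤ R := by omega
      exact_mod_cast this
    have hv : 8 * u / R ≤ ((R : ℝ) - i) * u / R := by
      apply div_le_div_of_nonneg_right _ hRpos.le
      nlinarith
    have hev := Real.exp_le_exp.mpr hv
    apply e4_hit (v := ((R : ℝ) - i) * u / R) (fun m => Dev (a * J) J m)
    · refine le_trans ?_ hv
      rw [h8w]
      nlinarith
    · linarith
    · intro M hM
      have h1 : 2 ^ J ≤ ⌊Real.exp (((R : ℝ) - i) * u / R)⌋₊ := by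
        apply Nat.le_floor
        push_cast
        exact h2J.trans hev
      have h2 := hcount J ⌊Real.exp (((R : ℝ) - i) * u / R)⌋₊ h1 M (fun m hm => by
        obtain ⟨h3, h4, h5⟩ := hM m hm
        exact ⟨h3, Nat.le_floor h4, h5⟩)
      refine h2.trans ?_
      apply mul_le_mul_of_nonneg_left (Nat.floor_le (Real.exp_pos _).le)
      positivity
    · intro n hn
      rw [hSI] at hn
      simp only [mem_filter] at hn
      exact ⟨(hS n hn.1).1, (hS n hn.1).2.1, hn.2⟩
  have hsum := sum_le_sum hcI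
  rw [sum_const, card_range, nsmul_eq_mul] at hsum
  have hlast : ((R - 8 : ℕ) : ℝ) * (2 * (C * q ^ J) * ((T : ℝ) + 1) ^ 3 * X) ≤
      R * (2 * (C * q ^ J) * ((T : ℝ) + 1) ^ 3 * X) := by
    apply mul_le_mul_of_nonneg_right
    · have : R - 8 ≤ R := Nat.sub_le _ _
      exact_mod_cast this
    · positivity
  linarith

theorem e4_path {ε η : ℝ} (hε : 0 < ε) (hη : 0 < η) : ∃ δ K : ℝ, 0 < δ ∧ δ ≤ 1 ∧ 0 < K ∧
    ∀ X : ℕ, 1 ≤ X → ∀ S : Finset ℕ, (∀ n ∈ S, 1 ≤ n ∧ n ≤ X ∧
      ¬ ∃ k : ℕ, Real.log (col^[k] n) ≤ η * Real.log X ∧ ∀ s ≤ k,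
        |Real.log (col^[s] n) - (Real.log X - s * (Real.log (4 / 3) / 3))| ≤
          ε * Real.log X + K) →
      (S.card : ℝ) ≤ K * (X : ℝ) ^ (-δ) * X := by
  obtain ⟨a, ha, ha1, h8a⟩ : ∃ a : ℝ, 0 < a ∧ a ≤ 1 / 100 ∧ 8 * a ≤ ε / 4 := by
    refine ⟨min (1 / 100) (ε / 32), lt_min (by norm_num) (by positivity), min_le_left _ _, ?_⟩
    have := min_le_right (1 / 100 : ℝ) (ε / 32)
    linarith
  obtain ⟨R, hR, h8R, h1R⟩ : ∃ R : ℕ, 9 ≤ R ∧ 8 / (R : ℝ) ≤ η ∧ 1 / (R : ℝ) ≤ ε / 4 := by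
    obtain ⟨R1, hR1⟩ := exists_nat_ge (8 / η)
    obtain ⟨R2, hR2⟩ := exists_nat_ge (4 / ε)
    refine ⟨R1 + R2 + 9, by omega, ?_, ?_⟩
    · rw [div_le_iff₀ (by positivity)]
      rw [div_le_iff₀ hη] at hR1
      push_cast
      nlinarith [(Nat.cast_nonneg R2 : (0 : ℝ) ≤ R2)]
    · rw [div_le_iff₀ (by positivity)]
      rw [div_le_iff₀ hε] at hR2
      push_cast
      nlinarith [(Nat.cast_nonneg R1 : (0 : ℝ) ≤ R1)]
  obtain ⟨q, C, hq0, hq1, hC, hcount⟩ := e1_count ha
  have hRpos : (0 : ℝ) < R := by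
    have : 0 < R := by omega
    exact_mod_cast this
  have hR9 : (9 : ℝ) ≤ R := by exact_mod_cast hR
  have hlq : Real.log q < 0 := Real.log_neg hq0 hq1
  obtain ⟨c, hc⟩ : ∃ c : ℝ, c = 8 * (-Real.log q) / R := ⟨_, rfl⟩
  have hcpos : 0 < c := by
    rw [hc]
    apply div_pos _ hRpos
    linarith
  obtain ⟨δ, hδ0, hδR, hδc⟩ : ∃ δ : ℝ, 0 < δ ∧ δ ≤ 1 / R ∧ δ ≤ c / 2 :=
    ⟨min (1 / R) (c / 2), lt_min (by positivity) (by positivity), min_le_left _ _,
      min_le_right _ _⟩
  have hδ1 : δ ≤ 1 := by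
    refine hδR.trans ?_
    rw [div_le_iff₀ hRpos]
    linarith
  obtain ⟨K₂, hK₂⟩ : ∃ K₂ : ℝ, K₂ = 96 / c + 2 * R + 1 := ⟨_, rfl⟩
  have hK₂pos : 0 < K₂ := by rw [hK₂]; positivity
  obtain ⟨E, hE⟩ : ∃ E : ℝ, E = Real.exp ((R : ℝ) * (R + 60)) := ⟨_, rfl⟩
  have hEpos : 1 ≤ E := by
    rw [hE]
    exact Real.one_le_exp (by positivity)
  refine ⟨δ, E + R * (a + 3) + (1 + C + 2 * R * C * K₂ ^ 3), hδ0, hδ1, by positivity, ?_⟩
  intro X hX S hS
  have hXpos : (0 : ℝ) < X := by exact_mod_cast hX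
  have hX1 : (1 : ℝ) ≤ X := by exact_mod_cast hX
  have hu0 : 0 ≤ Real.log X := Real.log_nonneg hX1
  have hpow : (X : ℝ) ^ (-δ) = Real.exp (-(δ * Real.log X)) := by
    rw [Real.rpow_def_of_pos hXpos]; congr 1; ring
  have hP1 : 0 ≤ R * (a + 3) := by positivity
  have hP2 : 0 ≤ 1 + C + 2 * R * C * K₂ ^ 3 := by positivity
  have hXd : 0 < (X : ℝ) ^ (-δ) * X := by
    rw [hpow]
    exact mul_pos (Real.exp_pos _) hXpos
  by_cases hbig : (R : ℝ) * (R + 60) ≤ Real.log X
  · obtain ⟨J, T, hJ, hT, hcard⟩ := e4_large hq0 hC hcount hR ha ha1 h8a h1R h8R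
      (K := E + R * (a + 3) + (1 + C + 2 * R * C * K₂ ^ 3)) (by linarith) hX hbig S hS
    have hexpX : Real.exp (Real.log X) = X := Real.exp_log hXpos
    generalize Real.log (X : ℝ) = u at *
    have h1 : Real.exp (((R : ℝ) - 1) * u / R) ≤ Real.exp (-(δ * u)) * X := by
      rw [← hexpX, ← Real.exp_add]
      apply Real.exp_le_exp.mpr
      have h2 : ((R : ℝ) - 1) * u / R = u - (1 / R) * u := by field_simp
      rw [h2]
      have := mul_le_mul_of_nonneg_right hδR hu0
      linarith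
    have hqJ : q ^ J ≤ Real.exp (-(c * u)) := by
      have h2 : q ^ J = Real.exp (J * Real.log q) := by
        rw [mul_comm, Real.exp_mul, Real.exp_log hq0, Real.rpow_natCast]
      rw [h2]
      apply Real.exp_le_exp.mpr
      have h3 : -(c * u) = (8 * u / R) * Real.log q := by rw [hc]; ring
      rw [h3]
      exact mul_le_mul_of_nonpos_right hJ hlq.le
    have h2 : Real.exp (-(c * u)) ≤ Real.exp (-(δ * u)) := by
      apply Real.exp_le_exp.mpr
      have : δ * u ≤ c / 2 * u := mul_le_mul_of_nonneg_right hδc hu0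
      nlinarith [mul_nonneg hcpos.le hu0]
    have h3 : ((T : ℝ) + 1) ^ 3 ≤ K₂ ^ 3 * Real.exp (c * u / 2) := by
      have h4 : (T : ℝ) + 1 ≤ K₂ * Real.exp (c * u / 6) := by
        have h5 : c * u / 6 + 1 ≤ Real.exp (c * u / 6) := Real.add_one_le_exp _
        have h6 : 1 ≤ Real.exp (c * u / 6) := Real.one_le_exp (by positivity)
        have h7 : 16 * u ≤ 96 / c * Real.exp (c * u / 6) := by
          have h8 : 16 * u = 96 / c * (c * u / 6) := by field_simp; ring
          rw [h8]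
          apply mul_le_mul_of_nonneg_left _ (by positivity)
          linarith
        have h8 : (2 * (R : ℝ) + 1) * 1 ≤ (2 * (R : ℝ) + 1) * Real.exp (c * u / 6) :=
          mul_le_mul_of_nonneg_left h6 (by positivity)
        rw [hK₂]
        have h9 : (96 / c + 2 * (R : ℝ) + 1) * Real.exp (c * u / 6) =
          96 / c * Real.exp (c * u / 6) + (2 * (R : ℝ) + 1) * Real.exp (c * u / 6) := by ring
        rw [h9]
        linarith
      calc ((T : ℝ) + 1) ^ 3 ≤ (K₂ * Real.exp (c * u / 6)) ^ 3 := by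
            apply pow_le_pow_left₀ (by positivity) h4
        _ = K₂ ^ 3 * Real.exp (c * u / 2) := by
            rw [mul_pow, ← Real.exp_nat_mul]
            congr 2
            push_cast
            ring
    have h4 : q ^ J * ((T : ℝ) + 1) ^ 3 ≤ K₂ ^ 3 * Real.exp (-(δ * u)) := by
      calc q ^ J * ((T : ℝ) + 1) ^ 3 ≤ Real.exp (-(c * u)) * (K₂ ^ 3 * Real.exp (c * u / 2)) := by
            apply mul_le_mul hqJ h3 (by positivity) (Real.exp_pos _).le
        _ = K₂ ^ 3 * Real.exp (-(c * u) + c * u / 2) := by rw [Real.exp_add]; ring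
        _ ≤ K₂ ^ 3 * Real.exp (-(δ * u)) := by
            apply mul_le_mul_of_nonneg_left _ (by positivity)
            apply Real.exp_le_exp.mpr
            have : δ * u ≤ c / 2 * u := mul_le_mul_of_nonneg_right hδc hu0
            linarith
    have h5 : C * q ^ J * X ≤ C * (Real.exp (-(δ * u)) * X) := by
      rw [mul_assoc]
      apply mul_le_mul_of_nonneg_left _ hC.le
      exact mul_le_mul_of_nonneg_right (hqJ.trans h2) hXpos.le
    have h6 : R * (2 * (C * q ^ J) * ((T : ℝ) + 1) ^ 3 * X) ≤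
        2 * R * C * K₂ ^ 3 * (Real.exp (-(δ * u)) * X) := by
      have h7 : R * (2 * (C * q ^ J) * ((T : ℝ) + 1) ^ 3 * X) =
        2 * R * C * X * (q ^ J * ((T : ℝ) + 1) ^ 3) := by ring
      rw [h7]
      have h8 := mul_le_mul_of_nonneg_left h4 (show (0 : ℝ) ≤ 2 * R * C * X by positivity)
      refine h8.trans (le_of_eq (by ring))
    rw [hpow]
    rw [hpow] at hXd
    have h7 : (E + R * (a + 3)) * (Real.exp (-(δ * u)) * X) ≥ 0 := by
      apply mul_nonneg _ hXd.le
      linarith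
    calc (S.card : ℝ) ≤ _ := hcard
      _ ≤ Real.exp (-(δ * u)) * X + C * (Real.exp (-(δ * u)) * X) +
          2 * R * C * K₂ ^ 3 * (Real.exp (-(δ * u)) * X) := by linarith
      _ ≤ (E + R * (a + 3) + (1 + C + 2 * R * C * K₂ ^ 3)) * Real.exp (-(δ * u)) * X := by
          have h8 : (E + R * (a + 3) + (1 + C + 2 * R * C * K₂ ^ 3)) * Real.exp (-(δ * u)) * X =
            (E + R * (a + 3)) * (Real.exp (-(δ * u)) * X) + (Real.exp (-(δ * u)) * X +
              C * (Real.exp (-(δ * u)) * X) +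
              2 * R * C * K₂ ^ 3 * (Real.exp (-(δ * u)) * X)) := by ring
          rw [h8]
          linarith
  · push Not at hbig
    have h1 : (S.card : ℝ) ≤ X := by
      have h2 : S ⊆ Icc 1 X := by
        intro n hn
        rw [mem_Icc]
        exact ⟨(hS n hn).1, (hS n hn).2.1⟩
      have h3 := card_le_card h2
      rw [Nat.card_Icc, Nat.add_sub_cancel] at h3
      exact_mod_cast h3
    have h2 : 1 ≤ E * (X : ℝ) ^ (-δ) := by
      rw [hpow, hE, ← Real.exp_add]
      apply Real.one_le_exp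
      have h3 : δ * Real.log X ≤ 1 * Real.log X := mul_le_mul_of_nonneg_right hδ1 hu0
      linarith
    have h3 : (X : ℝ) ≤ E * (X : ℝ) ^ (-δ) * X := by
      have := mul_le_mul_of_nonneg_right h2 hXpos.le
      linarith
    have h4 : 0 ≤ (R * (a + 3) + (1 + C + 2 * R * C * K₂ ^ 3)) * ((X : ℝ) ^ (-δ) * X) :=
      mul_nonneg (by linarith) hXd.le
    calc (S.card : ℝ) ≤ X := h1
      _ ≤ E * (X : ℝ) ^ (-δ) * X := h3
      _ ≤ (E + R * (a + 3) + (1 + C + 2 * R * C * K₂ ^ 3)) * (X : ℝ) ^ (-δ) * X := by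
          have h5 : (E + R * (a + 3) + (1 + C + 2 * R * C * K₂ ^ 3)) * (X : ℝ) ^ (-δ) * X =
            E * (X : ℝ) ^ (-δ) * X +
              (R * (a + 3) + (1 + C + 2 * R * C * K₂ ^ 3)) * ((X : ℝ) ^ (-δ) * X) := by ring
          rw [h5]
          linarith

end Pool.Agent.Lib.MP_e43fce_ps
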