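import Pool.Agent.Lib.MP_e43fce_ps.PDefs

/-! E5 (90 minutes): the path down to `N`, from the path down to `X^eta` (`hE`, any `eps, eta`) and Theorem P (`hP`, any `e0`).
PROOF. `c0 = 3/log(4/3)`, between `9` and `12` (`1/4 <= log(4/3) <= 1/3`: t1odd_c_lower, t1odd_c_upper in T1ODD, or norm_num bounds).
Put `e = eps/100` (and `e <= 1/100`); `hE` with `eps := e`, `eta := e` gives `d1, K1`; `hP` with `e0 := e` gives `d2, K2`.
`delta = min d1 d2`, `K` large.  Let `S` be as in the statement and split it: `S1` = the `n` in `S` without a `k` as in `hE`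
(at most `K1 X^(-d1) X`), `S2` = the `n` in `S` with `N < col^[k] n` for all `k <= (c0 + e) log X + 1` (at most
`K2 (N^(-d') + X^(-d2)) X`).  Claim: `S` is contained in the union of `S1` and `S2`.  Let `n` be in neither; `u = log X`;
`k0` from `hE`, `t` with `t <= (c0+e) u + 1` and `col^[t] n <= N`; take the LEAST such `t` (so `col^[s] n > N` for `s < t`).
If `t <= k0`: the path bound holds for all `s <= t` (`e u + K1 <= eps u + K`): contradiction with `n` in `S`.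
If `t > k0`: for `s <= k0` the same.  For `k0 < s <= t`: by `hE` at `k0`, `|log C^k0 - (u - k0 lam)| <= e u + K1`
(`lam = log(4/3)/3 = 1/c0`) and `log C^k0 <= e u`, so `k0 lam >= u - 2 e u - K1`, `k0 >= c0 (1 - 2e) u - c0 K1`, so
`s - k0 <= (c0+e) u + 1 - c0 (1-2e) u + c0 K1 <= (e + 2 c0 e) u + 1 + c0 K1 <= 25 e u + 1 + 12 K1`.
`0 <= log C^s <= log C^k0 + (s - k0) log 4` (`col x <= 4 x` for `x >= 1`, all iterates are `>= 1`).  So
`|log C^s - (u - s lam)| <= |log C^k0 - (u - k0 lam)| + |log C^s - log C^k0| + (s - k0) lam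
<= e u + K1 + (e u + (s - k0) * 1.4) + (s - k0)/9 <= 42 e u + K`: contradiction again. -/

set_option autoImplicit false

namespace Pool.Agent.Lib.MP_e43fce_ps

open Finset
open Pool.Agent.Lib.MP_e43fce_nt_nat (col)

private theorem E5_pos {n : ℕ} (hn : 1 ≤ n) : 1 ≤ col n := by
  unfold col
  split_ifs <;> omega

private theorem E5_le {n : ℕ} (hn : 1 ≤ n) : col n ≤ 4 * n := by
  unfold col
  split_ifs <;> omega

private theorem E5_it (n : ℕ) (hn : 1 ≤ n) (s : ℕ) : 1 ≤ col^[s] n := by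
  induction s with
  | zero => exact hn
  | succ s ih =>
    rw [Function.iterate_succ_apply']
    exact E5_pos ih

private theorem E5_log (n : ℕ) (hn : 1 ≤ n) (k j : ℕ) :
    Real.log (col^[k + j] n) ≤ Real.log (col^[k] n) + j * Real.log 4 := by
  induction j with
  | zero => simp
  | succ j ih =>
    have h1 := E5_it n hn (k + j)
    have h2 : col^[k + (j + 1)] n ≤ 4 * col^[k + j] n := by
      rw [← add_assoc, Function.iterate_succ_apply']
      exact E5_le h1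
    have h3 : (0 : ℝ) < col^[k + (j + 1)] n := by exact_mod_cast E5_it n hn (k + (j + 1))
    have h4 : (col^[k + (j + 1)] n : ℝ) ≤ 4 * (col^[k + j] n : ℝ) := by exact_mod_cast h2
    have h5 : (0 : ℝ) < col^[k + j] n := by exact_mod_cast h1
    have h6 := Real.log_le_log h3 h4
    rw [Real.log_mul (by norm_num) h5.ne'] at h6
    push_cast
    linarith

theorem e5_final {d' : ℝ}
    (hE : ∀ ε η : ℝ, 0 < ε → 0 < η → ∃ δ K : ℝ, 0 < δ ∧ δ ≤ 1 ∧ 0 < K ∧
      ∀ X : ℕ, 1 ≤ X → ∀ S : Finset ℕ, (∀ n ∈ S, 1 ≤ n ∧ n ≤ X ∧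
        ¬ ∃ k : ℕ, Real.log (col^[k] n) ≤ η * Real.log X ∧ ∀ s ≤ k,
          |Real.log (col^[s] n) - (Real.log X - s * (Real.log (4 / 3) / 3))| ≤
            ε * Real.log X + K) →
        (S.card : ℝ) ≤ K * (X : ℝ) ^ (-δ) * X)
    (hP : ∀ e0 : ℝ, 0 < e0 → ∃ dl C : ℝ, 0 < dl ∧ 0 < C ∧
      ∀ N X : ℕ, 1 ≤ N → 1 ≤ X → ∀ S : Finset ℕ, (∀ n ∈ S, 1 ≤ n ∧ n ≤ X ∧
        ∀ k : ℕ, (k : ℝ) ≤ (3 / Real.log (4 / 3) + e0) * Real.log X + 1 → N < col^[k] n) →
      (S.card : ℝ) ≤ C * ((N : ℝ) ^ (-d') + (X : ℝ) ^ (-dl)) * X)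
    {ε : ℝ} (hε : 0 < ε) : ∃ δ K : ℝ, 0 < δ ∧ 0 < K ∧ ∀ N X : ℕ, 1 ≤ N → 1 ≤ X →
      ∀ S : Finset ℕ, (∀ n ∈ S, 1 ≤ n ∧ n ≤ X ∧
        ¬ ∃ t : ℕ, col^[t] n ≤ N ∧ ∀ s ≤ t,
          |Real.log (col^[s] n) - (Real.log X - s * (Real.log (4 / 3) / 3))| ≤
            ε * Real.log X + K) →
      (S.card : ℝ) ≤ K * ((N : ℝ) ^ (-d') + (X : ℝ) ^ (-δ)) * X := by
  classical
  set e : ℝ := min (ε / 100) (1 / 100) with he
  have he0 : 0 < e := by
    rw [he]
    exact lt_min (by positivity) (by norm_num)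
  have heε : e ≤ ε / 100 := min_le_left _ _
  obtain ⟨δ1, K1, hδ1, -, hK1, h1⟩ := hE e e he0 he0
  obtain ⟨dl, C, hdl, hC, h2⟩ := hP e he0
  set L : ℝ := Real.log (4 / 3) with hL
  have hL1 : L ≤ 1 / 3 := by
    have := Real.log_le_sub_one_of_pos (show (0 : ℝ) < 4 / 3 by norm_num)
    rw [hL]
    linarith
  have hL2 : 1 / 4 ≤ L := by
    have := Real.one_sub_inv_le_log_of_pos (show (0 : ℝ) < 4 / 3 by norm_num)
    rw [hL]
    norm_num at this ⊢
    linarith
  have hL0 : 0 < L := by linarith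
  have hc0 : 3 / L ≤ 12 := by
    rw [div_le_iff₀ hL0]
    linarith
  have hc0' : 0 < 3 / L := by positivity
  have hcl : 3 / L * (L / 3) = 1 := by
    field_simp
  have hlog4 : Real.log 4 ≤ 1.4 := by
    have h3 : (4 : ℝ) = 2 ^ 2 := by norm_num
    rw [h3, Real.log_pow]
    have := Real.log_two_lt_d9
    push_cast
    linarith
  have hlog40 : 0 ≤ Real.log 4 := Real.log_nonneg (by norm_num)
  refine ⟨min δ1 dl, 22 * K1 + C + 2, lt_min hδ1 hdl, by positivity, ?_⟩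
  intro N X hN hX S hS
  have hXR : (1 : ℝ) ≤ X := by exact_mod_cast hX
  have hX0 : (0 : ℝ) < X := by linarith
  set u : ℝ := Real.log X with hu
  have hu0 : 0 ≤ u := Real.log_nonneg hXR
  set S1 := S.filter fun n => ¬ ∃ k : ℕ, Real.log (col^[k] n) ≤ e * u ∧ ∀ s ≤ k,
    |Real.log (col^[s] n) - (u - s * (L / 3))| ≤ e * u + K1 with hS1
  set S2 := S.filter fun n => ∀ k : ℕ, (k : ℝ) ≤ (3 / L + e) * u + 1 → N < col^[k] n with hS2
  have hc1 : (S1.card : ℝ) ≤ K1 * (X : ℝ) ^ (-δ1) * X := by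
    refine h1 X hX S1 fun n hn => ?_
    rw [hS1, mem_filter] at hn
    exact ⟨(hS n hn.1).1, (hS n hn.1).2.1, hn.2⟩
  have hc2 : (S2.card : ℝ) ≤ C * ((N : ℝ) ^ (-d') + (X : ℝ) ^ (-dl)) * X := by
    refine h2 N X hN hX S2 fun n hn => ?_
    rw [hS2, mem_filter] at hn
    exact ⟨(hS n hn.1).1, (hS n hn.1).2.1, hn.2⟩
  have hsub : S ⊆ S1 ∪ S2 := by
    intro n hn
    by_contra hnot
    rw [mem_union, not_or] at hnot
    obtain ⟨hn1, hn2⟩ := hnot
    obtain ⟨hn0, -, hno⟩ := hS n hn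
    have ha : ∃ k : ℕ, Real.log (col^[k] n) ≤ e * u ∧ ∀ s ≤ k,
        |Real.log (col^[s] n) - (u - s * (L / 3))| ≤ e * u + K1 := by
      by_contra hh
      exact hn1 (mem_filter.mpr ⟨hn, hh⟩)
    have hb : ∃ k : ℕ, (k : ℝ) ≤ (3 / L + e) * u + 1 ∧ col^[k] n ≤ N := by
      by_contra hh
      push Not at hh
      exact hn2 (mem_filter.mpr ⟨hn, fun k hk => hh k hk⟩)
    obtain ⟨k0, hk0, hk0s⟩ := ha
    obtain ⟨t0, ht0, ht0N⟩ := hb
    have hex : ∃ t : ℕ, col^[t] n ≤ N := ⟨t0, ht0N⟩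
    have htle : Nat.find hex ≤ t0 := Nat.find_min' hex ht0N
    apply hno
    refine ⟨Nat.find hex, Nat.find_spec hex, fun s hs => ?_⟩
    have hsR : (s : ℝ) ≤ (3 / L + e) * u + 1 := by
      have : (s : ℝ) ≤ t0 := by exact_mod_cast hs.trans htle
      linarith
    have heu : e * u ≤ ε / 100 * u := mul_le_mul_of_nonneg_right heε hu0
    have hεu : 0 ≤ ε * u := by positivity
    rcases le_or_gt s k0 with hsk | hsk
    · refine (hk0s s hsk).trans ?_
      nlinarith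
    · obtain ⟨j, rfl⟩ : ∃ j, s = k0 + j := ⟨s - k0, by omega⟩
      have h3 := hk0s k0 le_rfl
      have h4 := E5_log n hn0 k0 j
      have h5 : 0 ≤ Real.log (col^[k0 + j] n) :=
        Real.log_nonneg (by exact_mod_cast E5_it n hn0 (k0 + j))
      have h6 : 0 ≤ Real.log (col^[k0] n) :=
        Real.log_nonneg (by exact_mod_cast E5_it n hn0 k0)
      set a := Real.log (col^[k0] n) with had
      set b := Real.log (col^[k0 + j] n) with hbd
      rw [abs_le] at h3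
      push_cast at hsR ⊢
      have hj0 : (0 : ℝ) ≤ j := Nat.cast_nonneg _
      have heu0 : 0 ≤ e * u := by positivity
      have h7 : u - 2 * (e * u) - K1 ≤ k0 * (L / 3) := by linarith [h3.1]
      have h8 : 3 / L * (u - 2 * (e * u) - K1) ≤ k0 := by
        have := mul_le_mul_of_nonneg_left h7 hc0'.le
        have h9 : 3 / L * (k0 * (L / 3)) = k0 := by
          rw [mul_comm (k0 : ℝ), ← mul_assoc, hcl, one_mul]
        linarith
      have h10 : (j : ℝ) ≤ 25 * (e * u) + 1 + 12 * K1 := by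
        have h11 : 3 / L * (2 * (e * u) + K1) ≤ 12 * (2 * (e * u) + K1) :=
          mul_le_mul_of_nonneg_right hc0 (by positivity)
        have h12 : (3 / L + e) * u = 3 / L * u + e * u := by ring
        have h13 : 3 / L * (u - 2 * (e * u) - K1) = 3 / L * u - 3 / L * (2 * (e * u) + K1) := by ring
        linarith
      have h14 : (j : ℝ) * Real.log 4 ≤ j * 1.4 := mul_le_mul_of_nonneg_left hlog4 hj0
      have h15 : (j : ℝ) * (L / 3) ≤ j * (1 / 9) := mul_le_mul_of_nonneg_left (by linarith) hj0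
      have h16 : 0 ≤ (j : ℝ) * (L / 3) := by positivity
      have h17 : 0 ≤ (j : ℝ) * Real.log 4 := by positivity
      have h18 : u - ((k0 : ℝ) + j) * (L / 3) = u - k0 * (L / 3) - j * (L / 3) := by ring
      rw [h18, abs_le]
      constructor
      · linarith [h3.1, h3.2]
      · linarith [h3.1, h3.2]
  have hcard : (S.card : ℝ) ≤ S1.card + S2.card := by
    have := (card_le_card hsub).trans (card_union_le S1 S2)
    exact_mod_cast this
  have hp1 : (X : ℝ) ^ (-δ1) ≤ (X : ℝ) ^ (-(min δ1 dl)) :=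
    Real.rpow_le_rpow_of_exponent_le hXR (neg_le_neg (min_le_left _ _))
  have hp2 : (X : ℝ) ^ (-dl) ≤ (X : ℝ) ^ (-(min δ1 dl)) :=
    Real.rpow_le_rpow_of_exponent_le hXR (neg_le_neg (min_le_right _ _))
  set P := (X : ℝ) ^ (-(min δ1 dl)) with hP'
  have hP0 : 0 ≤ P := Real.rpow_nonneg hX0.le _
  have hNd : 0 ≤ (N : ℝ) ^ (-d') := Real.rpow_nonneg (Nat.cast_nonneg _) _
  have h19 : K1 * (X : ℝ) ^ (-δ1) * X ≤ K1 * P * X :=
    mul_le_mul_of_nonneg_right (mul_le_mul_of_nonneg_left hp1 hK1.le) hX0.le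
  have h20 : C * ((N : ℝ) ^ (-d') + (X : ℝ) ^ (-dl)) * X ≤ C * ((N : ℝ) ^ (-d') + P) * X :=
    mul_le_mul_of_nonneg_right (mul_le_mul_of_nonneg_left (by linarith) hC.le) hX0.le
  have h21 : K1 * P * X + C * ((N : ℝ) ^ (-d') + P) * X ≤
      (22 * K1 + C + 2) * ((N : ℝ) ^ (-d') + P) * X := by
    have h22 : (22 * K1 + C + 2) * ((N : ℝ) ^ (-d') + P) * X -
        (K1 * P * X + C * ((N : ℝ) ^ (-d') + P) * X) =
        (22 * K1 + 2) * (N : ℝ) ^ (-d') * X + (21 * K1 + 2) * P * X := by ring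
    have h23 : 0 ≤ (22 * K1 + 2) * (N : ℝ) ^ (-d') * X + (21 * K1 + 2) * P * X := by positivity
    linarith
  linarith

end Pool.Agent.Lib.MP_e43fce_ps
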