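import Pool.Agent.Lib.MP_e43fce_ps.PFin
import Pool.Agent.Lib.MP_e43fce_ps.E4
import Pool.Agent.Lib.MP_e43fce_ps.E5

/-! EFin: the pathwise theorem (assembly; helper53). -/

set_option autoImplicit false

namespace Pool.Agent.Lib.MP_e43fce_ps

open Finset
open Pool.Agent.Lib.MP_e43fce_nt_nat

theorem efin {d' : ℝ} (hd' : 0 < d') (h20 : d' < 1 / 20) {ε : ℝ} (hε : 0 < ε) :
    ∃ δ K : ℝ, 0 < δ ∧ 0 < K ∧ ∀ N X : ℕ, 1 ≤ N → 1 ≤ X →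
      ∀ S : Finset ℕ, (∀ n ∈ S, 1 ≤ n ∧ n ≤ X ∧
        ¬ ∃ t : ℕ, col^[t] n ≤ N ∧ ∀ s ≤ t,
          |Real.log (col^[s] n) - (Real.log X - s * (Real.log (4 / 3) / 3))| ≤
            ε * Real.log X + K) →
      (S.card : ℝ) ≤ K * ((N : ℝ) ^ (-d') + (X : ℝ) ^ (-δ)) * X :=
  e5_final (fun _ _ h1 h2 => e4_path h1 h2) (fun _ h => pfin_sharp h hd' h20) hε

end Pool.Agent.Lib.MP_e43fce_ps
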