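import Pool.Agent.Lib.MP_e43fce_ps.PDefs

/-! PB4 (45 minutes): from dyadic blocks to the sum of reciprocals.
PROOF. `pb4_sparse`: `d = 1 - log q/log 2 > 0`, so `q/2 = 2^(-d)`.  Split `S` by `j = Nat.log 2 m` (`2^j <= m < 2^(j+1)`,
`Nat.pow_log_le_self`, `Nat.lt_pow_succ_log_self`); `j >= L = Nat.log 2 N`.  The part of `S` in block `j`
has at most `t q^j` elements, each with `1/m <= 2^(-j)`: its sum is at most `t (q/2)^j`.  The sum over the `j >= L`
(finitely many, `j` in `Ico L M`) is at most `t (q/2)^L/(1 - q/2)` and `(q/2)^L = (2/q) (q/2)^(L+1) = (2/q) (2^(L+1))^(-d)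
<= (2/q) N^(-d)` because `N < 2^(L+1)`.  (For real powers: `Real.rpow_natCast`, `Real.rpow_mul`,
`Real.rpow_le_rpow_of_nonpos` or `Real.rpow_le_rpow_left_iff`.)
`pb4_w`: `w = 2^(19/20)`, `d = 1/20`. -/

set_option autoImplicit false

namespace Pool.Agent.Lib.MP_e43fce_ps

open Finset
open Pool.Agent.Lib.MP_e43fce_nt_bt (w)

theorem pb4_pos {q : ℝ} (hq : 0 < q) (hq2 : q < 2) : 0 < 1 - Real.log q / Real.log 2 := by
  have h2 : 0 < Real.log 2 := Real.log_pos (by norm_num)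
  have h3 : Real.log q < Real.log 2 := Real.log_lt_log hq hq2
  have h4 : Real.log q / Real.log 2 < 1 := by
    rw [div_lt_one h2]
    exact h3
  linarith

theorem pb4_sparse {c q : ℝ} (hq : 0 < q) (hq2 : q < 2) (h : Blk c q) :
    Sparse c (1 - Real.log q / Real.log 2) := by
  obtain ⟨t, ht, hblk⟩ := h
  set d : ℝ := 1 - Real.log q / Real.log 2 with hd
  have hd0 : 0 < d := pb4_pos hq hq2
  have hl2 : 0 < Real.log 2 := Real.log_pos (by norm_num)
  have hr0 : 0 < q / 2 := by positivity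
  have hr1 : q / 2 < 1 := by linarith
  have hr : q / 2 = (2 : ℝ) ^ (-d) := by
    rw [Real.rpow_def_of_pos (by norm_num)]
    have h1 : Real.log 2 * (-d) = Real.log q - Real.log 2 := by
      rw [hd]
      field_simp
      ring
    rw [h1, Real.exp_sub, Real.exp_log hq, Real.exp_log (by norm_num)]
  refine ⟨t * (2 / q) / (1 - q / 2), by
    have : 0 < 1 - q / 2 := by linarith
    positivity, ?_⟩
  intro N hN S hS
  set L := Nat.log 2 N with hL
  set M := S.sup id + 1 with hM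
  have hmaps : ∀ m ∈ S, Nat.log 2 m ∈ Ico L M := by
    intro m hm
    obtain ⟨h1, _⟩ := hS m hm
    rw [mem_Ico]
    refine ⟨Nat.log_mono_right h1.le, ?_⟩
    have h2 : m ≤ S.sup id := Finset.le_sup (f := id) hm
    have h3 : Nat.log 2 m ≤ m := Nat.log_le_self 2 m
    omega
  have hsplit : ∑ m ∈ S, (1 : ℝ) / m =
      ∑ j ∈ Ico L M, ∑ m ∈ S.filter (fun m => Nat.log 2 m = j), (1 : ℝ) / m :=
    (Finset.sum_fiberwise_of_maps_to hmaps _).symm
  have hpiece : ∀ j ∈ Ico L M, ∑ m ∈ S.filter (fun m => Nat.log 2 m = j), (1 : ℝ) / m ≤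
      t * (q / 2) ^ j := by
    intro j _
    have hmem : ∀ m ∈ S.filter (fun m => Nat.log 2 m = j), 2 ^ j ≤ m ∧ m < 2 ^ (j + 1) ∧ IsBad c m := by
      intro m hm
      rw [mem_filter] at hm
      obtain ⟨h1, h2⟩ := hm
      obtain ⟨h3, h4⟩ := hS m h1
      rw [← h2]
      exact ⟨Nat.pow_log_le_self 2 (by omega), Nat.lt_pow_succ_log_self (by norm_num) m, h4⟩
    have hcard := hblk j _ hmem
    have h5 : ∀ m ∈ S.filter (fun m => Nat.log 2 m = j), (1 : ℝ) / m ≤ 1 / 2 ^ j := by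
      intro m hm
      have h6 : ((2 : ℝ) ^ j) ≤ m := by exact_mod_cast (hmem m hm).1
      exact one_div_le_one_div_of_le (by positivity) h6
    calc ∑ m ∈ S.filter (fun m => Nat.log 2 m = j), (1 : ℝ) / m
        ≤ ∑ m ∈ S.filter (fun m => Nat.log 2 m = j), (1 : ℝ) / 2 ^ j := sum_le_sum h5
      _ = ((S.filter (fun m => Nat.log 2 m = j)).card : ℝ) * (1 / 2 ^ j) := by
          rw [sum_const, nsmul_eq_mul]
      _ ≤ (t * q ^ j) * (1 / 2 ^ j) := mul_le_mul_of_nonneg_right hcard (by positivity)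
      _ = t * (q / 2) ^ j := by
          rw [div_pow]
          ring
  have hN' : (1 : ℝ) ≤ N := by exact_mod_cast hN
  have hpow : (q / 2) ^ (L + 1) ≤ (N : ℝ) ^ (-d) := by
    have h1 : (q / 2) ^ (L + 1) = ((2 : ℝ) ^ (L + 1)) ^ (-d) := by
      rw [hr, ← Real.rpow_natCast, ← Real.rpow_natCast, ← Real.rpow_mul (by norm_num),
        ← Real.rpow_mul (by norm_num)]
      congr 1
      ring
    rw [h1]
    have h2 : (N : ℝ) ≤ (2 : ℝ) ^ (L + 1) := by
      have : N < 2 ^ (L + 1) := Nat.lt_pow_succ_log_self (by norm_num) N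
      exact_mod_cast this.le
    exact Real.rpow_le_rpow_of_nonpos (by linarith) h2 (by linarith)
  have h1q : 0 < 1 - q / 2 := by linarith
  calc ∑ m ∈ S, (1 : ℝ) / m ≤ ∑ j ∈ Ico L M, t * (q / 2) ^ j := by
        rw [hsplit]
        exact sum_le_sum hpiece
    _ = t * ∑ j ∈ Ico L M, (q / 2) ^ j := by rw [Finset.mul_sum]
    _ ≤ t * ((q / 2) ^ L / (1 - q / 2)) :=
        mul_le_mul_of_nonneg_left (geom_sum_Ico_le_of_lt_one hr0.le hr1) ht.le
    _ = t * (2 / q) / (1 - q / 2) * (q / 2) ^ (L + 1) := by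
        rw [pow_succ]
        field_simp
    _ ≤ t * (2 / q) / (1 - q / 2) * (N : ℝ) ^ (-d) :=
        mul_le_mul_of_nonneg_left hpow (by positivity)

theorem pb4_w {c : ℝ} (h : Blk c w) : Sparse c (1 / 20) := by
  have hw0 : 0 < w := by
    unfold w
    positivity
  have hw2 : w < 2 := by
    unfold w
    calc (2 : ℝ) ^ ((19 : ℝ) / 20) < (2 : ℝ) ^ (1 : ℝ) :=
          Real.rpow_lt_rpow_of_exponent_lt (by norm_num) (by norm_num)
      _ = 2 := Real.rpow_one 2
  have h1 := pb4_sparse hw0 hw2 h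
  have h2 : 1 - Real.log w / Real.log 2 = 1 / 20 := by
    unfold w
    rw [Real.log_rpow (by norm_num)]
    have hl2 : 0 < Real.log 2 := Real.log_pos (by norm_num)
    field_simp
    norm_num
  rwa [h2] at h1

end Pool.Agent.Lib.MP_e43fce_ps
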