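import Pool.Agent.Lib.MP_e43fce_ps.PDefs

/-! PC1: the argmin lemma (strong induction). -/

set_option autoImplicit false

namespace Pool.Agent.Lib.MP_e43fce_ps

open Pool.Agent.Lib.MP_e43fce_nt_nat (col)

theorem pc1_pos (k n : ℕ) (hn : 1 ≤ n) : 1 ≤ col^[k] n := by
  induction k with
  | zero => simpa using hn
  | succ k ih =>
    rw [Function.iterate_succ_apply']
    unfold col at ih ⊢
    split_ifs with h
    · omega
    · omega

theorem pc1_argmin {c : ℝ} (hc : 0 < c) (n : ℕ) (hn : 1 ≤ n) : ∃ t : ℕ,
    (t : ℝ) ≤ c * Real.log n ∧ IsBad c (col^[t] n) ∧ ∀ i < t, col^[t] n ≤ col^[i] n := by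
  induction n using Nat.strong_induction_on with
  | _ n ih =>
    by_cases hb : IsBad c n
    · refine ⟨0, ?_, by simpa using hb, fun i hi => absurd hi (Nat.not_lt_zero i)⟩
      have h1 : (1 : ℝ) ≤ n := by exact_mod_cast hn
      have h2 := Real.log_nonneg h1
      simpa using mul_nonneg hc.le h2
    · have hex : ∃ k : ℕ, 1 ≤ k ∧ (col^[k] n : ℝ) * Real.exp (k / c) ≤ n := by
        unfold IsBad at hb
        push Not at hb
        exact hb
      classical
      set k := Nat.find hex with hk
      obtain ⟨hk1, hk2⟩ := Nat.find_spec hex
      rw [← hk] at hk1 hk2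
      have hmin : ∀ i, 1 ≤ i → i < k → (n : ℝ) < (col^[i] n : ℝ) * Real.exp (i / c) := by
        intro i hi1 hik
        have := Nat.find_min hex hik
        push Not at this
        exact this hi1
      set s := col^[k] n with hs
      have hs1 : 1 ≤ s := pc1_pos k n hn
      have hsr : (1 : ℝ) ≤ s := by exact_mod_cast hs1
      have hnr : (1 : ℝ) ≤ n := by exact_mod_cast hn
      have hkpos : (0 : ℝ) < (k : ℝ) / c := by
        have : (1 : ℝ) ≤ k := by exact_mod_cast hk1
        positivity
      have hexp1 : 1 < Real.exp ((k : ℝ) / c) := Real.one_lt_exp_iff.2 hkpos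
      have hsn : (s : ℝ) < n := by nlinarith
      have hsn' : s < n := by exact_mod_cast hsn
      obtain ⟨t', ht1, ht2, ht3⟩ := ih s hsn' hs1
      have hts : col^[t'] s ≤ s := by
        rcases Nat.eq_zero_or_pos t' with h0 | h0
        · rw [h0]
          simp
        · simpa using ht3 0 h0
      have hcomp : col^[t' + k] n = col^[t'] s := by
        rw [Function.iterate_add_apply]
      refine ⟨t' + k, ?_, ?_, ?_⟩
      · -- time
        have h1 : Real.log s + (k : ℝ) / c ≤ Real.log n := by
          rw [← Real.log_exp ((k : ℝ) / c), ← Real.log_mul (by linarith) (Real.exp_pos _).ne']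
          exact Real.log_le_log (by positivity) hk2
        have h2 : (k : ℝ) = c * ((k : ℝ) / c) := by
          field_simp
        push_cast
        have h3 : c * (Real.log s + (k : ℝ) / c) ≤ c * Real.log n :=
          mul_le_mul_of_nonneg_left h1 hc.le
        rw [mul_add, ← h2] at h3
        linarith
      · rw [hcomp]
        exact ht2
      · intro i hi
        rw [hcomp]
        rcases Nat.lt_or_ge i k with hik | hik
        · rcases Nat.eq_zero_or_pos i with h0 | h0
          · rw [h0]
            simp only [Function.iterate_zero, id_eq]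
            omega
          · have h1 := hmin i h0 hik
            have h2 : (s : ℝ) * Real.exp ((i : ℝ) / c) ≤ n := by
              refine le_trans ?_ hk2
              apply mul_le_mul_of_nonneg_left _ (by linarith)
              apply Real.exp_le_exp.2
              apply div_le_div_of_nonneg_right _ hc.le
              exact_mod_cast hik.le
            have h3 : (s : ℝ) * Real.exp ((i : ℝ) / c) < (col^[i] n : ℝ) * Real.exp ((i : ℝ) / c) :=
              lt_of_le_of_lt h2 h1
            have h4 : (s : ℝ) < (col^[i] n : ℝ) := lt_of_mul_lt_mul_right h3 (Real.exp_pos _).le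
            have h5 : s < col^[i] n := by exact_mod_cast h4
            omega
        · obtain ⟨r, rfl⟩ : ∃ r, i = r + k := ⟨i - k, by omega⟩
          rw [Function.iterate_add_apply, ← hs]
          exact ht3 r (by omega)

end Pool.Agent.Lib.MP_e43fce_ps
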