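import Pool.Agent.Lib.MP_e43fce_ps.PA2
import Pool.Agent.Lib.MP_e43fce_ps.PC1

/-! PC2 (40 minutes): Proposition P0.
PROOF. Let `C` be the constant of `Sparse c d`.  Every `n` in `S` has (PC1) a `t <= c log n <= c log X <= T`, `m = col^[t] n`
bad, record minimum: `Hits T m n`; `m > N` by hypothesis (`k = t <= T`); `m <= n <= X` (`i = 0`, or `t = 0`).
So `S` is the union over the bad `m` in `(N, X]` of `S_m = {n in S : Hits T m n}` and PA2 (with `T < N < m`) gives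
`card S_m <= (T+1)^3 X/m`.  Sum: `card S <= sum (T+1)^3 X/m <= (T+1)^3 X C N^(-d)`. -/

set_option autoImplicit false

namespace Pool.Agent.Lib.MP_e43fce_ps

open Finset
open Pool.Agent.Lib.MP_e43fce_nt_nat (col)

theorem pc2_P0 {c d : ℝ} (hc : 0 < c) (h : Sparse c d) : ∃ C : ℝ, 0 < C ∧
    ∀ N X T : ℕ, 1 ≤ N → 1 ≤ X → c * Real.log X ≤ T → T < N → ∀ S : Finset ℕ,
      (∀ n ∈ S, 1 ≤ n ∧ n ≤ X ∧ ∀ k ≤ T, N < col^[k] n) →
        (S.card : ℝ) ≤ C * ((T : ℝ) + 1) ^ 3 * (N : ℝ) ^ (-d) * X := by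
  classical
  obtain ⟨C, hC, hsp⟩ := h
  refine ⟨C, hC, ?_⟩
  intro N X T hN hX hcT hTN S hS
  set B : Finset ℕ := (Icc (N + 1) X).filter (fun m => IsBad c m) with hB
  have hcov : S ⊆ B.biUnion (fun m => S.filter (fun n => Hits T m n)) := by
    intro n hn
    obtain ⟨h1, h2, h3⟩ := hS n hn
    obtain ⟨t, ht, hbad, hrec⟩ := pc1_argmin hc n h1
    have hnr : (1 : ℝ) ≤ n := by exact_mod_cast h1
    have hnX : (n : ℝ) ≤ X := by exact_mod_cast h2
    have htT : t ≤ T := by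
      have h4 : Real.log n ≤ Real.log X := Real.log_le_log (by linarith) hnX
      have h5 : (t : ℝ) ≤ T := by nlinarith
      exact_mod_cast h5
    have hm : col^[t] n ≤ X := by
      rcases Nat.eq_zero_or_pos t with h4 | h4
      · rw [h4]
        exact h2
      · exact (hrec 0 h4).trans h2
    rw [mem_biUnion]
    refine ⟨col^[t] n, ?_, ?_⟩
    · rw [hB, mem_filter, mem_Icc]
      exact ⟨⟨h3 t htT, hm⟩, hbad⟩
    · rw [mem_filter]
      exact ⟨hn, t, htT, rfl, hrec⟩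
  have hpiece : ∀ m ∈ B, ((S.filter (fun n => Hits T m n)).card : ℝ) ≤
      ((T : ℝ) + 1) ^ 3 * X * (1 / m) := by
    intro m hm
    rw [hB, mem_filter, mem_Icc] at hm
    have h1 := pa2_mult (T := T) (m := m) (X := X) (by omega) (S.filter (fun n => Hits T m n)) (by
      intro n hn
      rw [mem_filter] at hn
      obtain ⟨h1, h2, _⟩ := hS n hn.1
      exact ⟨h1, h2, hn.2⟩)
    have h2 : (m : ℝ) * ((S.filter (fun n => Hits T m n)).card : ℝ) ≤ ((T : ℝ) + 1) ^ 3 * X := by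
      exact_mod_cast h1
    have h3 : (0 : ℝ) < m := by
      have : 0 < m := by omega
      exact_mod_cast this
    rw [mul_one_div, le_div_iff₀ h3]
    linarith
  have hsum := hsp N hN B (by
    intro m hm
    rw [hB, mem_filter, mem_Icc] at hm
    exact ⟨by omega, hm.2⟩)
  calc (S.card : ℝ) ≤ ((B.biUnion (fun m => S.filter (fun n => Hits T m n))).card : ℝ) := by
        exact_mod_cast card_le_card hcov
    _ ≤ ((∑ m ∈ B, (S.filter (fun n => Hits T m n)).card : ℕ) : ℝ) := by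
        exact_mod_cast card_biUnion_le
    _ = ∑ m ∈ B, ((S.filter (fun n => Hits T m n)).card : ℝ) := by push_cast; rfl
    _ ≤ ∑ m ∈ B, ((T : ℝ) + 1) ^ 3 * X * (1 / m) := sum_le_sum hpiece
    _ = ((T : ℝ) + 1) ^ 3 * X * ∑ m ∈ B, (1 : ℝ) / m := by rw [Finset.mul_sum]
    _ ≤ ((T : ℝ) + 1) ^ 3 * X * (C * (N : ℝ) ^ (-d)) :=
        mul_le_mul_of_nonneg_left hsum (by positivity)
    _ = C * ((T : ℝ) + 1) ^ 3 * (N : ℝ) ^ (-d) * X := by ring

end Pool.Agent.Lib.MP_e43fce_ps
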