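import Pool.Agent.Lib.MP_e43fce_ps.PA2
import Pool.Agent.Lib.MP_e43fce_ps.PC1

/-! PC3 (75 minutes): Proposition P0 in the two-constant form.  `c1 < c` (`c1` near `3/log(4/3)`, exponent `dl` of the
`c1`-bad numbers) and `c2 > 0` large (exponent `d` of the `c2`-bad numbers).
PROOF. Choose `eta > 0` with `c1 + c2 * eta <= c`, `eta <= 1` (eta = min 1 ((c - c1)/c2)).  Let `n` be in `S`.
PC1 with `c1`: `t1 <= c1 log n`, more precisely we need `t1 <= c1 log X`; `m1 = col^[t1] n` is `c1`-bad and a record minimum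
(`Hits T m1 n`, as `t1 <= c1 log X <= c log X <= T`), `m1 > N` by the hypothesis with `k = t1`, `m1 <= n <= X`.
Case A: `m1 > X^eta`: `m1 > M := floor(X^eta)`, `M >= 1`.  The number of these `n` is at most (PA2, T < N < m1)
`sum over the c1-bad m1 in (M, X] of (T+1)^3 X/m1 <= (T+1)^3 X C1 M^(-dl) <= (T+1)^3 X C1 2^dl X^(-eta dl)` (`M >= X^eta/2`).
Case B: `m1 <= X^eta`: PC1 with `c2` for `m1`: `t2 <= c2 log m1 <= c2 eta log X`, `m2 = col^[t2] m1 = col^[t2+t1] n` is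
`c2`-bad, `t1 + t2 <= c log X <= T`, `m2 > N`, and `Hits T m2 n`: for `i < t1` `m2 <= m1 <= col^[i] n` (`m2 <= m1`: if `t2 > 0`
it is the hypothesis for `i = 0`, if `t2 = 0` equality), for `t1 <= i < t1 + t2` by PC1 for `m1`.  The number of these `n` is at
most `sum over the c2-bad m2 > N of (T+1)^3 X/m2 <= (T+1)^3 X C2 N^(-d)`.
A common lemma (`pc3_count`): if every `n` in a finite set `S` (elements in `[1,X]`) has a `c`-bad `m > N'` with `N' >= 1` and `T < m`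
and `Hits T m n`, and `Sparse c d` holds with constant `C`, then `card S <= (T+1)^3 X C N'^(-d)`.
Constant `dl' = eta dl`. -/

set_option autoImplicit false

namespace Pool.Agent.Lib.MP_e43fce_ps

open Finset
open Pool.Agent.Lib.MP_e43fce_nt_nat (col)

theorem pc3_count {c d C : ℝ}
    (hC : ∀ N : ℕ, 1 ≤ N → ∀ S : Finset ℕ, (∀ m ∈ S, N < m ∧ IsBad c m) →
      ∑ m ∈ S, (1 : ℝ) / m ≤ C * (N : ℝ) ^ (-d))
    {N X T : ℕ} (hN : 1 ≤ N) (S : Finset ℕ)
    (hS : ∀ n ∈ S, 1 ≤ n ∧ n ≤ X ∧ ∃ m : ℕ, N < m ∧ T < m ∧ IsBad c m ∧ Hits T m n) :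
    (S.card : ℝ) ≤ ((T : ℝ) + 1) ^ 3 * X * (C * (N : ℝ) ^ (-d)) := by
  classical
  have h1 : ∀ n : ℕ, ∃ m : ℕ, n ∈ S → (N < m ∧ T < m ∧ IsBad c m ∧ Hits T m n) := by
    intro n
    by_cases hn : n ∈ S
    · obtain ⟨_, _, m, hm⟩ := hS n hn
      exact ⟨m, fun _ => hm⟩
    · exact ⟨0, fun h2 => absurd h2 hn⟩
  choose f hf using h1
  have h2 : ∀ m ∈ S.image f, N < m ∧ IsBad c m := by
    intro m hm
    obtain ⟨n, hn, rfl⟩ := mem_image.1 hm
    exact ⟨(hf n hn).1, (hf n hn).2.2.1⟩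
  have h3 := hC N hN (S.image f) h2
  rw [card_eq_sum_card_image f S, Nat.cast_sum]
  calc ∑ m ∈ S.image f, ((S.filter (fun n => f n = m)).card : ℝ) ≤
        ∑ m ∈ S.image f, ((T : ℝ) + 1) ^ 3 * X * ((1 : ℝ) / m) := by
        refine sum_le_sum fun m hm => ?_
        obtain ⟨n0, hn0, rfl⟩ := mem_image.1 hm
        obtain ⟨ha, hb, _, _⟩ := hf n0 hn0
        have h4 : f n0 * (S.filter (fun n => f n = f n0)).card ≤ (T + 1) ^ 3 * X := by
          refine pa2_mult hb _ fun n hn => ?_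
          rw [mem_filter] at hn
          have h5 := (hf n hn.1).2.2.2
          rw [hn.2] at h5
          exact ⟨(hS n hn.1).1, (hS n hn.1).2.1, h5⟩
        have h6 : ((f n0 : ℕ) : ℝ) * ((S.filter (fun n => f n = f n0)).card : ℝ) ≤
            ((T : ℝ) + 1) ^ 3 * X := by exact_mod_cast h4
        have h7 : (0 : ℝ) < (f n0 : ℕ) := by
          have : 0 < f n0 := by omega
          exact_mod_cast this
        rw [mul_one_div, le_div_iff₀ h7]
        linarith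
    _ = ((T : ℝ) + 1) ^ 3 * X * ∑ m ∈ S.image f, (1 : ℝ) / m := by rw [mul_sum]
    _ ≤ ((T : ℝ) + 1) ^ 3 * X * (C * (N : ℝ) ^ (-d)) :=
        mul_le_mul_of_nonneg_left h3 (by positivity)

theorem pc3_P0 {c c1 c2 d dl : ℝ} (hc1 : 0 < c1) (hcc : c1 < c) (hc2 : 0 < c2) (hdl : 0 < dl)
    (h1 : Sparse c1 dl) (h2 : Sparse c2 d) : ∃ C dl' : ℝ, 0 < C ∧ 0 < dl' ∧
    ∀ N X T : ℕ, 1 ≤ N → 1 ≤ X → c * Real.log X ≤ T → T < N → ∀ S : Finset ℕ,
      (∀ n ∈ S, 1 ≤ n ∧ n ≤ X ∧ ∀ k ≤ T, N < col^[k] n) →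
        (S.card : ℝ) ≤ C * ((T : ℝ) + 1) ^ 3 * ((N : ℝ) ^ (-d) + (X : ℝ) ^ (-dl')) * X := by
  classical
  obtain ⟨C1, hC1, hS1⟩ := h1
  obtain ⟨C2, hC2, hS2⟩ := h2
  set η : ℝ := min 1 ((c - c1) / c2) with hη
  have hη0 : 0 < η := lt_min one_pos (div_pos (by linarith) hc2)
  have hηc : c1 + c2 * η ≤ c := by
    have h3 : η ≤ (c - c1) / c2 := min_le_right _ _
    have h4 : c2 * η ≤ c2 * ((c - c1) / c2) := mul_le_mul_of_nonneg_left h3 hc2.le
    have h5 : c2 * ((c - c1) / c2) = c - c1 := by field_simp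
    linarith
  have hp2 : (0 : ℝ) < 2 ^ dl := by positivity
  refine ⟨C1 * 2 ^ dl + C2, η * dl, by positivity, by positivity, ?_⟩
  intro N X T hN hX hT hTN S hS
  have hx1 : (1 : ℝ) ≤ X := by exact_mod_cast hX
  have hx0 : (0 : ℝ) < X := by linarith
  have hlX : 0 ≤ Real.log X := Real.log_nonneg hx1
  have hXη : 1 ≤ (X : ℝ) ^ η := Real.one_le_rpow hx1 hη0.le
  set P : ℕ → Prop := fun n => ∃ m : ℕ, (X : ℝ) ^ η < m ∧ N < m ∧ IsBad c1 m ∧ Hits T m n with hP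
  set M : ℕ := ⌊(X : ℝ) ^ η⌋₊ with hM
  have hM1 : 1 ≤ M := Nat.le_floor (by simpa using hXη)
  have hMx : (M : ℝ) ≤ (X : ℝ) ^ η := Nat.floor_le (by linarith)
  have hMx2 : (X : ℝ) ^ η / 2 ≤ M := by
    have h3 : (X : ℝ) ^ η < M + 1 := Nat.lt_floor_add_one _
    have h4 : (1 : ℝ) ≤ M := by exact_mod_cast hM1
    linarith
  -- case A
  have hA : ((S.filter P).card : ℝ) ≤ ((T : ℝ) + 1) ^ 3 * X * (C1 * (M : ℝ) ^ (-dl)) := by
    refine pc3_count hS1 hM1 _ fun n hn => ?_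
    rw [mem_filter] at hn
    obtain ⟨hnS, m, hm1, hm2, hm3, hm4⟩ := hn
    refine ⟨(hS n hnS).1, (hS n hnS).2.1, m, ?_, by omega, hm3, hm4⟩
    have h3 : (M : ℝ) < m := lt_of_le_of_lt hMx hm1
    exact_mod_cast h3
  -- case B
  have hB : ((S.filter (fun n => ¬ P n)).card : ℝ) ≤
      ((T : ℝ) + 1) ^ 3 * X * (C2 * (N : ℝ) ^ (-d)) := by
    refine pc3_count hS2 hN _ fun n hn => ?_
    rw [mem_filter] at hn
    obtain ⟨hnS, hnP⟩ := hn
    obtain ⟨hn1, hnX, hnk⟩ := hS n hnS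
    obtain ⟨t1, ht1, hb1, hr1⟩ := pc1_argmin hc1 n hn1
    have hnx : Real.log n ≤ Real.log X :=
      Real.log_le_log (by exact_mod_cast hn1) (by exact_mod_cast hnX)
    have ht1X : (t1 : ℝ) ≤ c1 * Real.log X :=
      ht1.trans (mul_le_mul_of_nonneg_left hnx hc1.le)
    have ht1T : t1 ≤ T := by
      have h3 : (t1 : ℝ) ≤ T := by
        have h4 : c1 * Real.log X ≤ c * Real.log X := mul_le_mul_of_nonneg_right hcc.le hlX
        linarith
      exact_mod_cast h3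
    have hm1N : N < col^[t1] n := hnk t1 ht1T
    have hm1X : ((col^[t1] n : ℕ) : ℝ) ≤ (X : ℝ) ^ η := by
      by_contra hcon
      push Not at hcon
      exact hnP ⟨col^[t1] n, hcon, hm1N, hb1, t1, ht1T, rfl, hr1⟩
    have hm11 : 1 ≤ col^[t1] n := by omega
    obtain ⟨t2, ht2, hb2, hr2⟩ := pc1_argmin hc2 (col^[t1] n) hm11
    have hlm : Real.log ((col^[t1] n : ℕ) : ℝ) ≤ η * Real.log X := by
      rw [← Real.log_rpow hx0]
      exact Real.log_le_log (by exact_mod_cast hm11) hm1X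
    have htT : t2 + t1 ≤ T := by
      have h3 : ((t2 + t1 : ℕ) : ℝ) ≤ T := by
        push_cast
        have h4 : c2 * Real.log ((col^[t1] n : ℕ) : ℝ) ≤ c2 * (η * Real.log X) :=
          mul_le_mul_of_nonneg_left hlm hc2.le
        have h5 : (c1 + c2 * η) * Real.log X ≤ c * Real.log X :=
          mul_le_mul_of_nonneg_right hηc hlX
        nlinarith
      exact_mod_cast h3
    have heq : col^[t2] (col^[t1] n) = col^[t2 + t1] n := (Function.iterate_add_apply col t2 t1 n).symm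
    have hm2 : N < col^[t2] (col^[t1] n) := by
      rw [heq]
      exact hnk _ htT
    have hm21 : col^[t2] (col^[t1] n) ≤ col^[t1] n := by
      rcases Nat.eq_zero_or_pos t2 with h3 | h3
      · rw [h3]
        simp
      · simpa using hr2 0 h3
    refine ⟨hn1, hnX, col^[t2] (col^[t1] n), hm2, by omega, hb2, t2 + t1, htT, heq.symm, ?_⟩
    intro i hi
    by_cases hit : i < t1
    · exact hm21.trans (hr1 i hit)
    · push Not at hit
      obtain ⟨j, rfl⟩ := Nat.exists_eq_add_of_le hit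
      have h3 := hr2 j (by omega)
      rw [← Function.iterate_add_apply, ← Function.iterate_add_apply] at h3
      rw [← Function.iterate_add_apply, add_comm t1 j]
      exact h3
  have hMp : (M : ℝ) ^ (-dl) ≤ 2 ^ dl * (X : ℝ) ^ (-(η * dl)) := by
    calc (M : ℝ) ^ (-dl) ≤ ((X : ℝ) ^ η / 2) ^ (-dl) :=
          Real.rpow_le_rpow_of_nonpos (by positivity) hMx2 (by linarith)
      _ = 2 ^ dl * (X : ℝ) ^ (-(η * dl)) := by
          rw [Real.div_rpow (by positivity) (by norm_num), ← Real.rpow_mul hx0.le,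
            Real.rpow_neg (by norm_num : (0 : ℝ) ≤ 2), div_inv_eq_mul, mul_comm, mul_neg]
  have hsum : (S.card : ℝ) = ((S.filter P).card : ℝ) + ((S.filter (fun n => ¬ P n)).card : ℝ) := by
    rw [← Nat.cast_add, Finset.card_filter_add_card_filter_not (s := S) P]
  have hG0 : (0 : ℝ) ≤ ((T : ℝ) + 1) ^ 3 * X := by positivity
  have hN0 : (0 : ℝ) < (N : ℝ) ^ (-d) := by
    have : (0 : ℝ) < N := by exact_mod_cast hN
    positivity
  have hXp : (0 : ℝ) < (X : ℝ) ^ (-(η * dl)) := by positivity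
  have hA2 : ((S.filter P).card : ℝ) ≤
      ((T : ℝ) + 1) ^ 3 * X * (C1 * (2 ^ dl * (X : ℝ) ^ (-(η * dl)))) :=
    hA.trans (mul_le_mul_of_nonneg_left (mul_le_mul_of_nonneg_left hMp hC1.le) hG0)
  rw [hsum]
  set U : ℝ := (X : ℝ) ^ (-(η * dl)) with hU
  set V : ℝ := (N : ℝ) ^ (-d) with hV
  have h6 : C1 * (2 ^ dl * U) + C2 * V ≤ (C1 * 2 ^ dl + C2) * (V + U) := by
    have e1 : 0 ≤ C1 * 2 ^ dl * V := by positivity
    have e2 : 0 ≤ C2 * U := by positivity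
    nlinarith
  calc _ ≤ ((T : ℝ) + 1) ^ 3 * X * (C1 * (2 ^ dl * U)) + ((T : ℝ) + 1) ^ 3 * X * (C2 * V) := by
        linarith
    _ = ((T : ℝ) + 1) ^ 3 * X * (C1 * (2 ^ dl * U) + C2 * V) := by ring
    _ ≤ ((T : ℝ) + 1) ^ 3 * X * ((C1 * 2 ^ dl + C2) * (V + U)) :=
        mul_le_mul_of_nonneg_left h6 hG0
    _ = _ := by ring

end Pool.Agent.Lib.MP_e43fce_ps
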