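import Pool.Agent.Lib.MP_e43fce_nt_nat.BT1

/-! PD2 (60 minutes): the induction over the height, from a base interval `[0.98 x1, x1]` on (compare `T1_oddB` in
BT1.lean, whose induction this is, with `L` replaced by `x1`).
PROOF. `Cs, xs` from `bt1_step he B`; `E = 200 Cs`; the result has the constants `E`, `xs` (`xs >= 1`).
Let `N, x1, D0` be as in the statement.  Claim: for all `n` and all `y > x1` with `y * 0.995^n <= x1` and all
`T >= c1 y`: `DD 0 (pT N T) y <= D0 + E/(0.98 x1)^B - E/y^B`.  Induction on `n` (`n = 0` is empty: `y <= x1`).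
Step: `bt1_step` at `y` (`y >= xs`, `y >= 1.07 log N`) with `D = D0 + E/(0.98 x1)^B - E/(0.995 y)^B >= D0 >= 0`
(`0.98 x1 <= 0.995 y`).  For `z` in `[0.98 y, 0.995 y]` (so `z >= 0.98 x1`): if `z <= x1` the base hypothesis gives
`<= D0 <= D`; if `z > x1` the induction hypothesis (`z * 0.995^n <= y * 0.995^(n+1)`) gives
`<= D0 + E/(0.98 x1)^B - E/z^B <= D`.
Then `Cs/y^B = 0.005 E/y^B <= E/(0.995 y)^B - E/y^B` (`0.995^B <= 0.995`, `B >= 1`, as in `T1_oddB`). -/

set_option autoImplicit false

namespace Pool.Agent.Lib.MP_e43fce_ps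

open Finset
open Pool.Agent.Lib.MP_e43fce_nt_nat

theorem pd2_ind {e0 : ℝ} (he : 0 < e0) {B : ℕ} (hB : 1 ≤ B) : ∃ E xs : ℝ, 0 < E ∧ 1 ≤ xs ∧
    ∀ N : ℕ, 2 ≤ N → ∀ x1 D0 : ℝ, xs ≤ x1 → 1.07 * Real.log N ≤ x1 → 0 ≤ D0 →
      (∀ y : ℝ, 0.98 * x1 ≤ y → y ≤ x1 → ∀ T : ℕ, (3 / Real.log (4 / 3) + e0) * y ≤ T →
        DD 0 (pT N T) y ≤ D0) →
      ∀ y : ℝ, x1 ≤ y → ∀ T : ℕ, (3 / Real.log (4 / 3) + e0) * y ≤ T →
        DD 0 (pT N T) y ≤ D0 + E / (0.98 * x1) ^ B := by
  obtain ⟨Cs, xs, hCs, hxs, hstep⟩ := bt1_step he B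
  set E := 200 * Cs with hE
  have hEpos : 0 < E := by positivity
  refine ⟨E, xs, hEpos, hxs, ?_⟩
  intro N hN x1 D0 hx1 hx1N hD0 hbase y0 hy0 T0 hT0
  have hx1pos : 0 < x1 := by linarith
  set F := E / (0.98 * x1) ^ B with hF
  have hF0 : 0 < F := by positivity
  have hind : ∀ n : ℕ, ∀ y : ℝ, x1 < y → y * 0.995 ^ n ≤ x1 → ∀ T : ℕ,
      (3 / Real.log (4 / 3) + e0) * y ≤ T → DD 0 (pT N T) y ≤ D0 + F - E / y ^ B := by
    intro n
    induction n with
    | zero =>
      intro y hy hyn T hT
      rw [pow_zero, mul_one] at hyn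
      linarith
    | succ n ih =>
      intro y hy hyn T hT
      have hypos : 0 < y := by linarith
      set D := D0 + F - E / (0.995 * y) ^ B with hD
      have hDD0 : D0 ≤ D := by
        have hpow : (0.98 * x1) ^ B ≤ (0.995 * y) ^ B :=
          pow_le_pow_left₀ (by positivity) (by nlinarith) B
        have h3 : E / (0.995 * y) ^ B ≤ F :=
          div_le_div_of_nonneg_left hEpos.le (by positivity) hpow
        rw [hD]
        linarith
      have key := hstep N hN y (by linarith) (by linarith) T hT D (hD0.trans hDD0) ?_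
      · refine le_trans key ?_
        have hyB : 0 < y ^ B := by positivity
        have h995 : (0.995 : ℝ) ^ B ≤ 0.995 := by
          calc (0.995 : ℝ) ^ B ≤ 0.995 ^ 1 :=
                pow_le_pow_of_le_one (by norm_num) (by norm_num) hB
            _ = 0.995 := pow_one _
        have h995p : (0 : ℝ) < 0.995 ^ B := by positivity
        have h6 : E / y ^ B * 1.005 ≤ E / (0.995 * y) ^ B := by
          rw [mul_pow, div_mul_eq_mul_div, div_le_div_iff₀ hyB (by positivity)]
          have h61 : (1.005 : ℝ) * 0.995 ^ B ≤ 1 := by nlinarith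
          have h62 : E * (1.005 * 0.995 ^ B) ≤ E * 1 :=
            mul_le_mul_of_nonneg_left h61 hEpos.le
          nlinarith
        have h7 : Cs / y ^ B = E / y ^ B * 0.005 := by
          rw [hE]
          ring
        rw [hD, h7]
        linarith
      · intro z hz1 hz2 T' hT'
        have hz0 : 0 < z := by nlinarith
        by_cases hzx : z ≤ x1
        · exact (hbase z (by nlinarith) hzx T' hT').trans hDD0
        · push Not at hzx
          have h10 := ih z hzx (by
            have h11 : z * 0.995 ^ n ≤ 0.995 * y * 0.995 ^ n :=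
              mul_le_mul_of_nonneg_right hz2 (by positivity)
            have h12 : 0.995 * y * 0.995 ^ n = y * 0.995 ^ (n + 1) := by ring
            linarith) T' hT'
          refine le_trans h10 ?_
          have hpow : z ^ B ≤ (0.995 * y) ^ B := pow_le_pow_left₀ hz0.le hz2 B
          have h13 : E / (0.995 * y) ^ B ≤ E / z ^ B :=
            div_le_div_of_nonneg_left hEpos.le (by positivity) hpow
          rw [hD]
          linarith
  by_cases hy1 : y0 ≤ x1
  · exact (hbase y0 (by nlinarith) hy1 T0 hT0).trans (by linarith)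
  · push Not at hy1
    have hypos : 0 < y0 := by linarith
    obtain ⟨n, hn⟩ := exists_pow_lt_of_lt_one (show 0 < x1 / y0 by positivity)
      (show (0.995 : ℝ) < 1 by norm_num)
    have hn' : y0 * 0.995 ^ n ≤ x1 := by
      rw [lt_div_iff₀ hypos] at hn
      linarith
    have h1 := hind n y0 hy1 hn' T0 hT0
    have h2 : 0 ≤ E / y0 ^ B := by positivity
    linarith

end Pool.Agent.Lib.MP_e43fce_ps
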