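import Pool.Agent.Lib.MP_e43fce_ps.PD1
import Pool.Agent.Lib.MP_e43fce_ps.PD2

/-! PD3 (90 minutes): the choice `x1 = N^a`, odd numbers.
Here `c = 3/log(4/3) + e0`, `P0 c C d dl` (PD1), `0 < d' < d`, `0 < dl' < dl`.
PROOF. `a = min ((d - d')/3) (1/2)`, `B >= 1` a natural number with `a B >= d'`.  `C', E, xs` from PD1, PD2.
`x1 = N^a`.  For `N >= N1` (`N1` depends on the constants only): `xs <= x1`, `1.07 log N <= x1`, `c x1 + 1 <= N`, `N >= 2`,
`x1 >= 1`.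
(1) `y <= x1`: PD1 gives `DD <= C' (y+1)^3 (N^(-d) + exp(-dl y)) <= C' 8 N^(3a) N^(-d) + C' (y+1)^3 exp(-dl y)
<= 8 C' N^(-d') + C'' exp(-dl' y)` because `(y+1)^3 exp(-(dl - dl') y)` is bounded for `y >= 0`
(for instance by `6/r^3 * exp r`, `r = dl - dl'`: `exp(r (y+1)) >= (r(y+1))^3/6`).
(2) `y > x1`: by (1), on `[0.98 x1, x1]` `DD <= D0 := 8 C' N^(-d') + C'' exp(-dl' 0.98 N^a)`, and
`exp(-dl' 0.98 N^a) <= C3 N^(-d')` for all `N >= 1` (exponential against power; e.g. `Real.pow_div_factorial_le_exp` with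
an exponent `p`, `a p >= d'`).  PD2: `DD <= D0 + E/(0.98 x1)^B <= D0 + E 0.98^(-B) N^(-aB)`, `N^(-aB) <= N^(-d')`.
(3) `N < N1`: `DD 0 (pT N T) y <= 1 <= N1^d' N^(-d')` (`DD0_le_one`, `t1odd_unit`). -/

set_option autoImplicit false

namespace Pool.Agent.Lib.MP_e43fce_ps

open Finset
open Pool.Agent.Lib.MP_e43fce_nt_nat

private theorem pd3_large {a c xs : ℝ} (ha : 0 < a) (ha2 : a ≤ 1 / 2) (hc : 0 < c) :
    ∃ N1 : ℕ, 2 ≤ N1 ∧ ∀ N : ℕ, N1 ≤ N → xs ≤ (N : ℝ) ^ a ∧ 1.07 * Real.log N ≤ (N : ℝ) ^ a ∧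
      c * (N : ℝ) ^ a + 1 ≤ N := by
  have h1 : ∀ᶠ x : ℝ in Filter.atTop, xs ≤ x ^ a :=
    (tendsto_rpow_atTop ha).eventually_ge_atTop xs
  have h2 : ∀ᶠ x : ℝ in Filter.atTop, ‖Real.log x‖ ≤ 1 / 2 * ‖x ^ a‖ :=
    (isLittleO_log_rpow_atTop ha).def (by norm_num)
  have h3 : ∀ᶠ x : ℝ in Filter.atTop, (c + 1) ^ 2 ≤ x := Filter.eventually_ge_atTop _
  obtain ⟨x0, hx0⟩ := Filter.eventually_atTop.mp (h1.and (h2.and h3))
  refine ⟨max 2 ⌈x0⌉₊, le_max_left _ _, fun N hN => ?_⟩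
  have hN2 : 2 ≤ N := (le_max_left _ _).trans hN
  have hNx : x0 ≤ (N : ℝ) := (Nat.le_ceil x0).trans (by exact_mod_cast (le_max_right _ _).trans hN)
  have hN1 : (1 : ℝ) ≤ N := by
    have : (2 : ℝ) ≤ N := by exact_mod_cast hN2
    linarith
  obtain ⟨g1, g2, g3⟩ := hx0 N hNx
  have hpos : 0 < (N : ℝ) ^ a := by positivity
  refine ⟨g1, ?_, ?_⟩
  · rw [Real.norm_eq_abs, Real.norm_eq_abs, abs_of_pos hpos] at g2
    have := (le_abs_self _).trans g2
    linarith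
  · have h4 : (N : ℝ) ^ a ≤ Real.sqrt N := by
      rw [Real.sqrt_eq_rpow]
      exact Real.rpow_le_rpow_of_exponent_le hN1 ha2
    have h5 : c + 1 ≤ Real.sqrt N := Real.le_sqrt_of_sq_le g3
    have h6 : Real.sqrt N * Real.sqrt N = N := Real.mul_self_sqrt (by linarith)
    have h7 : c * (N : ℝ) ^ a ≤ c * Real.sqrt N := mul_le_mul_of_nonneg_left h4 hc.le
    nlinarith

private theorem pd3_cube {dl dl' : ℝ} (hll : dl' < dl) : ∃ K : ℝ, 0 < K ∧
    ∀ y : ℝ, 0 ≤ y → (y + 1) ^ 3 * Real.exp (-(dl * y)) ≤ K * Real.exp (-(dl' * y)) := by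
  have hr : 0 < dl - dl' := by linarith
  refine ⟨6 / (dl - dl') ^ 3 * Real.exp (dl - dl'), by positivity, fun y hy => ?_⟩
  have h1 := Real.pow_div_factorial_le_exp ((dl - dl') * (y + 1)) (by positivity) 3
  have h2 : ((3 : ℕ).factorial : ℝ) = 6 := by norm_num [Nat.factorial]
  rw [h2, mul_pow] at h1
  have h3 : (y + 1) ^ 3 ≤ 6 / (dl - dl') ^ 3 * Real.exp ((dl - dl') * (y + 1)) := by
    rw [div_mul_eq_mul_div, le_div_iff₀ (by positivity)]
    rw [div_le_iff₀ (by norm_num)] at h1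
    linarith
  have h4 : Real.exp ((dl - dl') * (y + 1)) * Real.exp (-(dl * y)) =
      Real.exp (dl - dl') * Real.exp (-(dl' * y)) := by
    rw [← Real.exp_add, ← Real.exp_add]
    congr 1
    ring
  calc (y + 1) ^ 3 * Real.exp (-(dl * y))
      ≤ 6 / (dl - dl') ^ 3 * Real.exp ((dl - dl') * (y + 1)) * Real.exp (-(dl * y)) :=
        mul_le_mul_of_nonneg_right h3 (Real.exp_pos _).le
    _ = 6 / (dl - dl') ^ 3 * (Real.exp ((dl - dl') * (y + 1)) * Real.exp (-(dl * y))) := by ring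
    _ = 6 / (dl - dl') ^ 3 * Real.exp (dl - dl') * Real.exp (-(dl' * y)) := by
        rw [h4]
        ring

private theorem pd3_exp {t a d' : ℝ} {B : ℕ} (ht : 0 < t) (hB : d' ≤ a * B) : ∃ K : ℝ, 0 < K ∧
    ∀ N : ℕ, 1 ≤ N → Real.exp (-(t * (N : ℝ) ^ a)) ≤ K * (N : ℝ) ^ (-d') := by
  refine ⟨(B.factorial : ℝ) / t ^ B, by positivity, fun N hN => ?_⟩
  have hNr : (1 : ℝ) ≤ N := by exact_mod_cast hN
  have hN0 : (0 : ℝ) < N := by linarith
  have h1 := Real.pow_div_factorial_le_exp (t * (N : ℝ) ^ a) (by positivity) B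
  have e4 : ((N : ℝ) ^ a) ^ B = (N : ℝ) ^ (a * B) := by
    rw [← Real.rpow_natCast, ← Real.rpow_mul hN0.le]
  rw [mul_pow, e4] at h1
  have e5 : (N : ℝ) ^ (-(a * B)) ≤ (N : ℝ) ^ (-d') :=
    Real.rpow_le_rpow_of_exponent_le hNr (by linarith)
  have h2 : Real.exp (-(t * (N : ℝ) ^ a)) ≤ (t ^ B * (N : ℝ) ^ (a * B) / B.factorial)⁻¹ := by
    rw [Real.exp_neg]
    exact inv_anti₀ (by positivity) h1
  refine h2.trans ?_
  have h3 : (t ^ B * (N : ℝ) ^ (a * B) / B.factorial)⁻¹ =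
      (B.factorial : ℝ) / t ^ B * (N : ℝ) ^ (-(a * B)) := by
    rw [Real.rpow_neg hN0.le]
    have : (N : ℝ) ^ (a * B) ≠ 0 := (Real.rpow_pos_of_pos hN0 _).ne'
    field_simp
  rw [h3]
  exact mul_le_mul_of_nonneg_left e5 (by positivity)

theorem pd3_odd {e0 C d d' dl dl' : ℝ} (he : 0 < e0) (hC : 0 < C) (hd' : 0 < d') (hdd : d' < d)
    (hl' : 0 < dl') (hll : dl' < dl) (h : P0 (3 / Real.log (4 / 3) + e0) C d dl) :
    ∃ C' : ℝ, 0 < C' ∧ ∀ N : ℕ, 1 ≤ N →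
      ∀ y : ℝ, 0 ≤ y → ∀ T : ℕ, (3 / Real.log (4 / 3) + e0) * y ≤ T →
        DD 0 (pT N T) y ≤ C' * (N : ℝ) ^ (-d') + C' * Real.exp (-(dl' * y)) := by
  obtain ⟨c, hcdef⟩ : ∃ c, c = 3 / Real.log (4 / 3) + e0 := ⟨_, rfl⟩
  have hc : 0 < c := by
    have : 0 < Real.log (4 / 3) := Real.log_pos (by norm_num)
    rw [hcdef]
    positivity
  obtain ⟨a, ha0, ha1, ha2⟩ : ∃ a : ℝ, 0 < a ∧ a ≤ 1 / 2 ∧ 3 * a ≤ d - d' := by
    refine ⟨min ((d - d') / 3) (1 / 2), lt_min (by linarith) (by norm_num), min_le_right _ _, ?_⟩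
    have := min_le_left ((d - d') / 3) (1 / 2 : ℝ)
    linarith
  obtain ⟨B, hB1, hB2⟩ : ∃ B : ℕ, 1 ≤ B ∧ d' ≤ a * B := by
    obtain ⟨B, hB⟩ := exists_nat_ge (d' / a)
    refine ⟨B + 1, by omega, ?_⟩
    rw [div_le_iff₀ ha0] at hB
    push_cast
    nlinarith
  obtain ⟨C1, hC1, hbase⟩ := pd1_base (d := d) (dl := dl) hc hC (hl'.trans hll)
    (by rw [hcdef]; exact h)
  obtain ⟨E, xs, hE, hxs, hind⟩ := pd2_ind he hB1
  obtain ⟨N1, hN1, hlarge⟩ := pd3_large (xs := xs) ha0 ha1 hc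
  obtain ⟨K1, hK1, hcube⟩ := pd3_cube hll
  obtain ⟨K2, hK2, hexp⟩ := pd3_exp (t := dl' * 0.98) (by positivity) hB2
  obtain ⟨C', hC'def⟩ : ∃ C' : ℝ, C' = 8 * C1 + C1 * K1 * K2 + C1 * K1 + E / 0.98 ^ B +
    (N1 : ℝ) ^ d' := ⟨_, rfl⟩
  have hN1p : 0 ≤ (N1 : ℝ) ^ d' := by positivity
  have hK : 0 < C1 * K1 := by positivity
  have hKK : 0 < C1 * K1 * K2 := by positivity
  have hEB : 0 < E / 0.98 ^ B := by positivity
  have hC'pos : 0 < C' := by
    rw [hC'def]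
    positivity
  refine ⟨C', hC'pos, ?_⟩
  intro N hN y hy T hT
  have hNr : (1 : ℝ) ≤ N := by exact_mod_cast hN
  have hN0 : (0 : ℝ) < N := by linarith
  have hNd' : 0 < (N : ℝ) ^ (-d') := by positivity
  have hey : 0 < Real.exp (-(dl' * y)) := Real.exp_pos _
  by_cases hNN : N1 ≤ N
  · obtain ⟨g1, g2, g3⟩ := hlarge N hNN
    have hx1pos : 1 ≤ (N : ℝ) ^ a := Real.one_le_rpow hNr ha0.le
    -- the part below x1
    have hlow : ∀ z : ℝ, 0 ≤ z → z ≤ (N : ℝ) ^ a → ∀ T' : ℕ, c * z ≤ T' →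
        DD 0 (pT N T') z ≤ 8 * C1 * (N : ℝ) ^ (-d') + C1 * K1 * Real.exp (-(dl' * z)) := by
      intro z hz hz1 T' hT'
      have hcz : c * z + 1 ≤ N := by
        have := mul_le_mul_of_nonneg_left hz1 hc.le
        linarith
      refine (hbase N hN z hz hcz T' hT').trans ?_
      have e1 : (z + 1) ^ 3 ≤ (2 * (N : ℝ) ^ a) ^ 3 :=
        pow_le_pow_left₀ (by positivity) (by linarith) 3
      have e4 : ((N : ℝ) ^ a) ^ 3 = (N : ℝ) ^ (3 * a) := by
        rw [← Real.rpow_natCast, ← Real.rpow_mul hN0.le]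
        congr 1
        push_cast
        ring
      have e3 : (z + 1) ^ 3 * (N : ℝ) ^ (-d) ≤ 8 * (N : ℝ) ^ (-d') := by
        have hNd : 0 ≤ (N : ℝ) ^ (-d) := by positivity
        calc (z + 1) ^ 3 * (N : ℝ) ^ (-d) ≤ (2 * (N : ℝ) ^ a) ^ 3 * (N : ℝ) ^ (-d) :=
              mul_le_mul_of_nonneg_right e1 hNd
          _ = 8 * ((N : ℝ) ^ (3 * a) * (N : ℝ) ^ (-d)) := by
              rw [mul_pow, e4]
              ring
          _ = 8 * (N : ℝ) ^ (3 * a + -d) := by rw [← Real.rpow_add hN0]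
          _ ≤ 8 * (N : ℝ) ^ (-d') := mul_le_mul_of_nonneg_left
              (Real.rpow_le_rpow_of_exponent_le hNr (by linarith)) (by norm_num)
      have e5 := hcube z hz
      calc C1 * (z + 1) ^ 3 * ((N : ℝ) ^ (-d) + Real.exp (-(dl * z)))
          = C1 * ((z + 1) ^ 3 * (N : ℝ) ^ (-d)) + C1 * ((z + 1) ^ 3 * Real.exp (-(dl * z))) := by
            ring
        _ ≤ C1 * (8 * (N : ℝ) ^ (-d')) + C1 * (K1 * Real.exp (-(dl' * z))) :=
            add_le_add (mul_le_mul_of_nonneg_left e3 hC1.le)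
              (mul_le_mul_of_nonneg_left e5 hC1.le)
        _ = 8 * C1 * (N : ℝ) ^ (-d') + C1 * K1 * Real.exp (-(dl' * z)) := by ring
    rcases le_total y ((N : ℝ) ^ a) with hy1 | hy1
    · refine (hlow y hy hy1 T (by rw [hcdef]; exact hT)).trans (add_le_add ?_ ?_)
      · refine mul_le_mul_of_nonneg_right ?_ hNd'.le
        rw [hC'def]
        linarith
      · refine mul_le_mul_of_nonneg_right ?_ hey.le
        rw [hC'def]
        linarith
    · have hD0 : 0 ≤ (8 * C1 + C1 * K1 * K2) * (N : ℝ) ^ (-d') := by positivity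
      have hmain := hind N (hN1.trans hNN) ((N : ℝ) ^ a)
        ((8 * C1 + C1 * K1 * K2) * (N : ℝ) ^ (-d')) g1 g2 hD0
        (fun z hz hz1 T' hT' => by
          refine (hlow z (by nlinarith) hz1 T' (by rw [hcdef]; exact hT')).trans ?_
          have e6 : Real.exp (-(dl' * z)) ≤ K2 * (N : ℝ) ^ (-d') := by
            refine le_trans (Real.exp_le_exp.mpr ?_) (hexp N hN)
            have := mul_le_mul_of_nonneg_left hz hl'.le
            linarith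
          have e7 := mul_le_mul_of_nonneg_left e6 hK.le
          linarith)
        y hy1 T hT
      refine hmain.trans ?_
      have h2 : E / (0.98 * (N : ℝ) ^ a) ^ B ≤ E / 0.98 ^ B * (N : ℝ) ^ (-d') := by
        have e4 : ((N : ℝ) ^ a) ^ B = (N : ℝ) ^ (a * B) := by
          rw [← Real.rpow_natCast, ← Real.rpow_mul hN0.le]
        have e5 : (N : ℝ) ^ (-(a * B)) ≤ (N : ℝ) ^ (-d') :=
          Real.rpow_le_rpow_of_exponent_le hNr (by linarith)
        rw [mul_pow, e4, ← div_div, div_eq_mul_inv, ← Real.rpow_neg hN0.le]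
        exact mul_le_mul_of_nonneg_left e5 (by positivity)
      have h3 : (8 * C1 + C1 * K1 * K2) * (N : ℝ) ^ (-d') + E / 0.98 ^ B * (N : ℝ) ^ (-d') ≤
          C' * (N : ℝ) ^ (-d') := by
        rw [← add_mul]
        refine mul_le_mul_of_nonneg_right ?_ hNd'.le
        rw [hC'def]
        linarith
      have h4 : 0 ≤ C' * Real.exp (-(dl' * y)) := by positivity
      linarith
  · push Not at hNN
    have h1 : DD 0 (pT N T) y ≤ 1 := DD0_le_one (t1odd_unit N T) y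
    have h2 : 1 ≤ (N1 : ℝ) ^ d' * (N : ℝ) ^ (-d') := by
      rw [Real.rpow_neg hN0.le, ← div_eq_mul_inv, one_le_div (by positivity)]
      exact Real.rpow_le_rpow hN0.le (by exact_mod_cast hNN.le) hd'.le
    have h3 : (N1 : ℝ) ^ d' * (N : ℝ) ^ (-d') ≤ C' * (N : ℝ) ^ (-d') := by
      refine mul_le_mul_of_nonneg_right ?_ hNd'.le
      rw [hC'def]
      linarith
    have h4 : 0 ≤ C' * Real.exp (-(dl' * y)) := by positivity
    linarith

end Pool.Agent.Lib.MP_e43fce_ps
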