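import Pool.Agent.Lib.MP_e43fce_nt_nat.BT1

/-! PD4 (50 minutes): from odd numbers to all numbers (`T1_allB` in BT1.lean with a bound `G1 + G2 exp(-dl y)` in place
of `C1 / (log N0)^B`; copy that proof: `S` is covered by the `2^j * m`, `m` odd, `y j = log X - j log 2`, `T j = ceil(c1 * y j)`,
the piece `j` has at most `(G1 + G2 (X/2^j)^(-dl)) * X / 2^j` elements; the extra `+ 1` in the number of steps pays for the
ceiling: `k <= T j` implies `k + j <= c1 log X + 1` because `c1 log 2 >= 1`).  If `y j < 0` the piece is empty.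
Sum over `j`: `sum 2^(-j) <= 2`, and `(2^j)^dl / 2^j <= (1/sqrt 2)^j` (`dl <= 1/2`), sum `<= 1/(1 - 1/sqrt 2) <= 4`. -/

set_option autoImplicit false

namespace Pool.Agent.Lib.MP_e43fce_ps

open Finset
open Pool.Agent.Lib.MP_e43fce_nt_nat

theorem pd4_all2 {e0 G1 G2 dl : ℝ} (he : 0 < e0) (hG1 : 0 ≤ G1) (hG2 : 0 ≤ G2) (hdl : 0 < dl)
    (hdl2 : dl ≤ 1 / 2) {N : ℕ}
    (h : ∀ y : ℝ, 0 ≤ y → ∀ T : ℕ, (3 / Real.log (4 / 3) + e0) * y ≤ T →
      DD 0 (pT N T) y ≤ G1 + G2 * Real.exp (-(dl * y)))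
    {X : ℕ} (hX : 1 ≤ X) (S : Finset ℕ) (hS : ∀ n ∈ S, 1 ≤ n ∧ n ≤ X ∧
      ∀ k : ℕ, (k : ℝ) ≤ (3 / Real.log (4 / 3) + e0) * Real.log X + 1 → N < col^[k] n) :
    (S.card : ℝ) ≤ (2 * G1 + 4 * G2 * (X : ℝ) ^ (-dl)) * X := by
  classical
  set c1 := 3 / Real.log (4 / 3) + e0 with hc1
  have hX' : (1 : ℝ) ≤ X := by exact_mod_cast hX
  have hc1ge : 9 ≤ c1 := by
    have h1 := t1odd_c_upper
    have h2 := t1odd_c_lower
    have h3 : (9 : ℝ) ≤ 3 / Real.log (4 / 3) := by
      rw [le_div_iff₀ (by linarith)]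
      linarith
    linarith
  have hl2 : (0.6 : ℝ) ≤ Real.log 2 := by
    have := Real.log_two_gt_d9
    norm_num at this ⊢
    linarith
  set y : ℕ → ℝ := fun j => Real.log X - j * Real.log 2 with hy
  have hey : ∀ j, Real.exp (y j) = X / 2 ^ j := by
    intro j
    rw [hy]
    simp only
    rw [Real.exp_sub, Real.exp_log (by linarith), mul_comm, Real.exp_mul, Real.exp_log (by norm_num),
      Real.rpow_natCast]
  set T : ℕ → ℕ := fun j => ⌈c1 * y j⌉₊ with hT
  set O : ℕ → Finset ℕ := fun j => (oddS (Real.exp (y j))).filter (fun m => pT N (T j) m = 1)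
    with hO
  have hcov : S ⊆ (range (X + 1)).biUnion (fun j => (O j).image (fun m => 2 ^ j * m)) := by
    intro n hn
    obtain ⟨hn3, hn4, hn2⟩ := hS n hn
    obtain ⟨j, m, hm, hnm⟩ := Nat.exists_eq_two_pow_mul_odd (show n ≠ 0 by omega)
    have hmpos : 1 ≤ m := hm.pos
    have hjX : j < X + 1 := by
      have h1 : j < 2 ^ j := Nat.lt_two_pow_self
      have h2 : 2 ^ j * 1 ≤ 2 ^ j * m := Nat.mul_le_mul_left _ hmpos
      omega
    have hmX : (m : ℝ) ≤ X / 2 ^ j := by
      rw [le_div_iff₀ (by positivity)]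
      have h3 : m * 2 ^ j ≤ X := by
        rw [mul_comm, ← hnm]
        exact hn4
      exact_mod_cast h3
    have hyj : 0 ≤ y j := by
      have h4 : (1 : ℝ) ≤ Real.exp (y j) := by
        rw [hey]
        have : (1 : ℝ) ≤ m := by exact_mod_cast hmpos
        linarith
      by_contra hcon
      push Not at hcon
      have := (Real.exp_lt_exp.2 hcon).trans_eq Real.exp_zero
      linarith
    rw [Finset.mem_biUnion]
    refine ⟨j, Finset.mem_range.2 hjX, ?_⟩
    rw [Finset.mem_image]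
    refine ⟨m, ?_, hnm.symm⟩
    rw [hO]
    simp only
    rw [Finset.mem_filter]
    refine ⟨?_, ?_⟩
    · unfold oddS
      rw [Finset.mem_filter, Finset.mem_Icc]
      refine ⟨⟨hmpos, ?_⟩, Nat.odd_iff.1 hm⟩
      apply Nat.le_floor
      rw [hey]
      exact hmX
    · unfold pT
      rw [if_pos]
      intro k hk
      have h5 : col^[k] m = col^[k + j] n := by
        rw [Function.iterate_add_apply, hnm, t1all_col]
      rw [h5]
      apply hn2
      have h6 : (k : ℝ) ≤ T j := by exact_mod_cast hk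
      have h7 : ((T j : ℕ) : ℝ) < c1 * y j + 1 := Nat.ceil_lt_add_one (by positivity)
      have h8 : y j = Real.log X - j * Real.log 2 := rfl
      have h9 : (0 : ℝ) ≤ j := Nat.cast_nonneg j
      have h10 : (1 : ℝ) ≤ c1 * Real.log 2 := by nlinarith
      have h11 : (j : ℝ) * 1 ≤ j * (c1 * Real.log 2) := mul_le_mul_of_nonneg_left h10 h9
      push_cast
      rw [h8] at h7
      nlinarith
  set r : ℝ := (2 : ℝ) ^ dl / 2 with hr
  have hr0 : 0 ≤ r := by positivity
  have hr34 : r ≤ 3 / 4 := by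
    have h1 : (2 : ℝ) ^ dl ≤ (2 : ℝ) ^ ((1 : ℝ) / 2) :=
      Real.rpow_le_rpow_of_exponent_le (by norm_num) hdl2
    have h2 : (2 : ℝ) ^ ((1 : ℝ) / 2) ≤ 3 / 2 := by
      rw [← Real.sqrt_eq_rpow]
      rw [Real.sqrt_le_left (by norm_num)]
      norm_num
    rw [hr]
    linarith
  have hexp : ∀ j, Real.exp (-(dl * y j)) = (X : ℝ) ^ (-dl) * ((2 : ℝ) ^ dl) ^ j := by
    intro j
    rw [Real.rpow_def_of_pos (by linarith), Real.rpow_def_of_pos (by norm_num), ← Real.exp_nat_mul,
      ← Real.exp_add]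
    congr 1
    have h8 : y j = Real.log X - j * Real.log 2 := rfl
    rw [h8]
    ring
  have hpiece : ∀ j, ((O j).card : ℝ) ≤
      G1 * X * (1 / 2 ^ j) + G2 * (X : ℝ) ^ (-dl) * X * r ^ j := by
    intro j
    by_cases hyj : 0 ≤ y j
    · have h1 := t1all_card N (T j) (y j)
      have h2 := h (y j) hyj (T j) (Nat.le_ceil _)
      rw [hexp] at h2
      refine (le_trans h1 (mul_le_mul_of_nonneg_right h2 (Real.exp_pos _).le)).trans (le_of_eq ?_)
      rw [hey, hr, div_pow]
      ring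
    · push Not at hyj
      have h3 : O j = ∅ := by
        rw [hO]
        simp only
        unfold oddS
        have h4 : ⌊Real.exp (y j)⌋₊ = 0 :=
          Nat.floor_eq_zero.2 ((Real.exp_lt_exp.2 hyj).trans_eq Real.exp_zero)
        rw [h4]
        rfl
      rw [h3]
      simp only [Finset.card_empty, Nat.cast_zero]
      positivity
  have hgeo : ∑ j ∈ range (X + 1), (1 : ℝ) / 2 ^ j ≤ 2 := by
    have h1 : ∀ n : ℕ, ∑ j ∈ range n, (1 : ℝ) / 2 ^ j = 2 - 2 / 2 ^ n := by
      intro n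
      induction n with
      | zero => simp
      | succ n ih =>
        rw [Finset.sum_range_succ, ih, pow_succ]
        field_simp
        ring
    rw [h1]
    have : (0 : ℝ) < 2 / 2 ^ (X + 1) := by positivity
    linarith
  have hgeo2 : ∑ j ∈ range (X + 1), r ^ j ≤ 4 := by
    have h1 := geom_sum_Ico_le_of_lt_one (m := 0) (n := X + 1) hr0 (by linarith)
    rw [← Finset.range_eq_Ico, pow_zero] at h1
    refine h1.trans ?_
    rw [div_le_iff₀ (by linarith)]
    linarith
  calc ((S.card : ℕ) : ℝ) ≤ (((range (X + 1)).biUnion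
          (fun j => (O j).image (fun m => 2 ^ j * m))).card : ℝ) := by
        exact_mod_cast Finset.card_le_card hcov
    _ ≤ ((∑ j ∈ range (X + 1), ((O j).image (fun m => 2 ^ j * m)).card : ℕ) : ℝ) := by
        exact_mod_cast Finset.card_biUnion_le
    _ ≤ ((∑ j ∈ range (X + 1), (O j).card : ℕ) : ℝ) := by
        have : ∑ j ∈ range (X + 1), ((O j).image (fun m => 2 ^ j * m)).card
            ≤ ∑ j ∈ range (X + 1), (O j).card :=
          Finset.sum_le_sum fun j _ => Finset.card_image_le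
        exact_mod_cast this
    _ = ∑ j ∈ range (X + 1), ((O j).card : ℝ) := by push_cast; rfl
    _ ≤ ∑ j ∈ range (X + 1), (G1 * X * (1 / 2 ^ j) + G2 * (X : ℝ) ^ (-dl) * X * r ^ j) :=
        Finset.sum_le_sum fun j _ => hpiece j
    _ = G1 * X * ∑ j ∈ range (X + 1), (1 : ℝ) / 2 ^ j +
          G2 * (X : ℝ) ^ (-dl) * X * ∑ j ∈ range (X + 1), r ^ j := by
        rw [Finset.mul_sum, Finset.mul_sum, ← Finset.sum_add_distrib]
    _ ≤ G1 * X * 2 + G2 * (X : ℝ) ^ (-dl) * X * 4 := by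
        refine add_le_add ?_ ?_
        · apply mul_le_mul_of_nonneg_left hgeo
          positivity
        · apply mul_le_mul_of_nonneg_left hgeo2
          positivity
    _ = (2 * G1 + 4 * G2 * (X : ℝ) ^ (-dl)) * X := by ring

end Pool.Agent.Lib.MP_e43fce_ps
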