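import Pool.Agent.Lib.MP_e43fce_ps.PB3
import Pool.Agent.Lib.MP_e43fce_ps.PB4
import Pool.Agent.Lib.MP_e43fce_ps.PC2
import Pool.Agent.Lib.MP_e43fce_ps.PC3
import Pool.Agent.Lib.MP_e43fce_ps.PD3
import Pool.Agent.Lib.MP_e43fce_ps.PD4

/-! PFin: Theorem P (assembly; helper53). -/

set_option autoImplicit false

namespace Pool.Agent.Lib.MP_e43fce_ps

open Finset
open Pool.Agent.Lib.MP_e43fce_nt_nat

/-- Theorem P from Proposition P0 -/
theorem pfin_gen {e0 C d d' dl dl' : ℝ} (he : 0 < e0) (hC : 0 < C) (hd' : 0 < d') (hdd : d' < d)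
    (hl' : 0 < dl') (hll : dl' < dl) (hl2 : dl' ≤ 1 / 2)
    (h : P0 (3 / Real.log (4 / 3) + e0) C d dl) : ∃ C' : ℝ, 0 < C' ∧ ∀ N X : ℕ, 1 ≤ N → 1 ≤ X →
      ∀ S : Finset ℕ, (∀ n ∈ S, 1 ≤ n ∧ n ≤ X ∧
        ∀ k : ℕ, (k : ℝ) ≤ (3 / Real.log (4 / 3) + e0) * Real.log X + 1 → N < col^[k] n) →
      (S.card : ℝ) ≤ C' * ((N : ℝ) ^ (-d') + (X : ℝ) ^ (-dl')) * X := by
  obtain ⟨C1, hC1, h1⟩ := pd3_odd he hC hd' hdd hl' hll h
  refine ⟨4 * C1, by positivity, ?_⟩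
  intro N X hN hX S hS
  have h2 := pd4_all2 he (show 0 ≤ C1 * (N : ℝ) ^ (-d') by positivity) hC1.le hl' hl2
    (fun y hy T hT => h1 N hN y hy T hT) hX S hS
  have h3 : 0 ≤ C1 * (N : ℝ) ^ (-d') := by positivity
  calc (S.card : ℝ) ≤ (2 * (C1 * (N : ℝ) ^ (-d')) + 4 * C1 * (X : ℝ) ^ (-dl')) * X := h2
    _ ≤ (4 * (C1 * (N : ℝ) ^ (-d')) + 4 * C1 * (X : ℝ) ^ (-dl')) * X := by
        apply mul_le_mul_of_nonneg_right _ (Nat.cast_nonneg X)
        linarith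
    _ = 4 * C1 * ((N : ℝ) ^ (-d') + (X : ℝ) ^ (-dl')) * X := by ring

/-- Theorem P (i): the sharp number of steps and every exponent below `1/20` -/
theorem pfin_sharp {e0 : ℝ} (he : 0 < e0) {d' : ℝ} (hd' : 0 < d') (h20 : d' < 1 / 20) :
    ∃ dl C : ℝ, 0 < dl ∧ 0 < C ∧
    ∀ N X : ℕ, 1 ≤ N → 1 ≤ X → ∀ S : Finset ℕ, (∀ n ∈ S, 1 ≤ n ∧ n ≤ X ∧
        ∀ k : ℕ, (k : ℝ) ≤ (3 / Real.log (4 / 3) + e0) * Real.log X + 1 → N < col^[k] n) →
      (S.card : ℝ) ≤ C * ((N : ℝ) ^ (-d') + (X : ℝ) ^ (-dl)) * X := by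
  have hl : 0 < Real.log (4 / 3) := Real.log_pos (by norm_num)
  have h30 : 0 < 3 / Real.log (4 / 3) := by positivity
  obtain ⟨q, hq, hq2, hb⟩ := pb3_blk (c := 3 / Real.log (4 / 3) + e0 / 2) (by linarith)
  have hs := pb4_sparse hq hq2 hb
  have hp := pb4_pos hq hq2
  obtain ⟨c2, hc2, hb2⟩ := pb3_blk19
  have hs2 := pb4_w hb2
  obtain ⟨C0, dl0, hC0, hdl0, hP0⟩ := pc3_P0 (c := 3 / Real.log (4 / 3) + e0) (by linarith)
    (by linarith) (by linarith) hp hs hs2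
  have hm : 0 < min dl0 1 := lt_min hdl0 one_pos
  have hm1 : min dl0 1 ≤ 1 := min_le_right _ _
  have hm2 : min dl0 1 ≤ dl0 := min_le_left _ _
  obtain ⟨C, hC, h⟩ := pfin_gen he hC0 hd' h20 (dl' := min dl0 1 / 2) (by linarith) (by linarith)
    (by linarith) (dl := dl0) hP0
  exact ⟨_, C, by linarith, hC, h⟩

/-- Theorem P (ii): every exponent below `1/20`, `O(log X)` steps -/
theorem pfin_twenty {d' : ℝ} (hd' : 0 < d') (h20 : d' < 1 / 20) : ∃ c C : ℝ, 0 < c ∧ 0 < C ∧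
    ∀ N X : ℕ, 1 ≤ N → 1 ≤ X → ∀ S : Finset ℕ, (∀ n ∈ S, 1 ≤ n ∧ n ≤ X ∧
        ∀ k : ℕ, (k : ℝ) ≤ c * Real.log X + 1 → N < col^[k] n) →
      (S.card : ℝ) ≤ C * (N : ℝ) ^ (-d') * X := by
  have hl : 0 < Real.log (4 / 3) := Real.log_pos (by norm_num)
  have h30 : 0 < 3 / Real.log (4 / 3) := by positivity
  obtain ⟨c, hc, hb⟩ := pb3_blk19
  have hs := pb4_w hb
  obtain ⟨C0, hC0, hP⟩ := pc2_P0 (by linarith) hs
  have e : 3 / Real.log (4 / 3) + (c - 3 / Real.log (4 / 3)) = c := by ring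
  have hP0 : P0 (3 / Real.log (4 / 3) + (c - 3 / Real.log (4 / 3))) C0 (1 / 20) (1 / 20) := by
    rw [e]
    intro N X T hN hX hT hTN S hS
    refine (hP N X T hN hX hT hTN S hS).trans ?_
    apply mul_le_mul_of_nonneg_right _ (Nat.cast_nonneg X)
    apply mul_le_mul_of_nonneg_left _ (by positivity)
    have : 0 ≤ (X : ℝ) ^ (-(1 / 20) : ℝ) := by positivity
    linarith
  obtain ⟨C, hC, h⟩ := pfin_gen (by linarith : 0 < c - 3 / Real.log (4 / 3)) hC0 hd' h20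
    hd' h20 (by linarith) hP0
  rw [e] at h
  refine ⟨c, 2 * C, by linarith, by positivity, ?_⟩
  intro N X hN hX S hS
  have h1 := h N X hN hX S hS
  have hN' : (1 : ℝ) ≤ N := by exact_mod_cast hN
  have hX' : (1 : ℝ) ≤ X := by exact_mod_cast hX
  rcases Nat.lt_or_ge X N with hlt | hge
  · -- no such numbers
    have hSe : S = ∅ := by
      rw [Finset.eq_empty_iff_forall_notMem]
      intro n hn
      obtain ⟨h3, h4, h5⟩ := hS n hn
      have h6 := h5 0 (by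
        have : 0 ≤ Real.log X := Real.log_nonneg hX'
        have : 0 ≤ c * Real.log X := by
          have : 0 < c := by linarith
          positivity
        push_cast
        linarith)
      simp only [Function.iterate_zero, id_eq] at h6
      omega
    rw [hSe]
    simp only [Finset.card_empty, Nat.cast_zero]
    positivity
  · have h7 : (X : ℝ) ^ (-d') ≤ (N : ℝ) ^ (-d') := by
      apply Real.rpow_le_rpow_of_nonpos (by linarith) (by exact_mod_cast hge) (by linarith)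
    calc (S.card : ℝ) ≤ C * ((N : ℝ) ^ (-d') + (X : ℝ) ^ (-d')) * X := h1
      _ ≤ C * ((N : ℝ) ^ (-d') + (N : ℝ) ^ (-d')) * X := by
          apply mul_le_mul_of_nonneg_right _ (Nat.cast_nonneg X)
          apply mul_le_mul_of_nonneg_left _ hC.le
          linarith
      _ = 2 * C * (N : ℝ) ^ (-d') * X := by ring

end Pool.Agent.Lib.MP_e43fce_ps
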