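import Pool.Agent.Lib.MP_e43fce_nt_nat.TSH
import Pool.Agent.Lib.MP_e43fce_ps.PFin

/-! TS3: the law of first passage times with a power saving in the probability (helper53). -/

set_option autoImplicit false

namespace Pool.Agent.Lib.MP_e43fce_nt_nat

open Finset Filter Topology

/-- the density of the `n` which are never reached is at most `K N ^ (-e)`, `N` a value of `f` -/
theorem ts3_ge {e : ℝ} (he : e < 1 / 20) : ∃ K : ℝ, ∀ (S : Finset ℕ) (f : ℕ → ℕ), Monotone f →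
    ∀ δ : ℝ, HasDens {n | tau S f n = ⊤} (1 - δ) → ∀ m : ℕ, 1 ≤ f m →
      1 - K * (f m : ℝ) ^ (-e) ≤ δ := by
  classical
  obtain ⟨c, C, hc, hC, hP⟩ := Pool.Agent.Lib.MP_e43fce_ps.pfin_twenty
    (d' := max e (1 / 40)) (lt_max_of_lt_right (by norm_num)) (max_lt he (by norm_num))
  refine ⟨C, ?_⟩
  intro S f hf δ hδ m hm
  have h1 : HasDens {n | tau S f n ≠ ⊤} δ := by
    have h4 := hδ.compl
    have h5 : ({n | tau S f n = ⊤} : Set ℕ)ᶜ = {n | tau S f n ≠ ⊤} := by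
      ext n
      rfl
    rw [h5] at h4
    have h6 : 1 - (1 - δ) = δ := by ring
    rwa [h6] at h4
  have hset : ({n | tau S f n ≠ ⊤} : Set ℕ) = {n | ∃ k : ℕ, col^[k] n ∈ S ∨ col^[k] n ≤ f n} := by
    ext n
    show tau S f n ≠ ⊤ ↔ ∃ k : ℕ, col^[k] n ∈ S ∨ col^[k] n ≤ f n
    unfold tau
    rw [HFin.inf_ne_top]
  rw [hset] at h1
  have h4 : HasDens {n | n ≤ m ∨ ∃ k : ℕ, col^[k] n ∈ S ∨ col^[k] n ≤ f n} δ := by
    refine HFin.dens_ev h1 (m + 1) ?_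
    intro n hn _
    constructor
    · exact Or.inr
    · rintro (h | h)
      · omega
      · exact h
  have hfm : (1 : ℝ) ≤ (f m : ℝ) := by exact_mod_cast hm
  have hpow : (f m : ℝ) ^ (-(max e (1 / 40))) ≤ (f m : ℝ) ^ (-e) := by
    apply Real.rpow_le_rpow_of_exponent_le hfm
    have := le_max_left e (1 / 40)
    linarith
  refine HasDens.ge (S := {n | n ≤ m ∨ ∃ k : ℕ, col^[k] n ∈ S ∨ col^[k] n ≤ f n}) (X0 := 1) ?_
    (fun n _ h => h) h4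
  intro X hX
  have h5 := hP (f m) X hm hX
    ((Icc 1 X).filter (fun n => ∀ k : ℕ, (k : ℝ) ≤ c * Real.log X + 1 → f m < col^[k] n)) (by
      intro n hn
      rw [mem_filter, mem_Icc] at hn
      exact ⟨hn.1.1, hn.1.2, hn.2⟩)
  have h6 : (X : ℝ) - cnt {n | n ≤ m ∨ ∃ k : ℕ, col^[k] n ∈ S ∨ col^[k] n ≤ f n} X ≤
      (((Icc 1 X).filter (fun n => ∀ k : ℕ,
        (k : ℝ) ≤ c * Real.log X + 1 → f m < col^[k] n)).card : ℝ) := by
    rw [← cnt_compl, cnt_filter' _ X]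
    apply Nat.cast_le.2
    apply card_le_card
    intro n hn
    rw [mem_filter, mem_Icc] at hn ⊢
    refine ⟨hn.1, fun k _ => ?_⟩
    by_contra hcon
    push Not at hcon
    apply hn.2
    by_cases hnm : n ≤ m
    · exact Or.inl hnm
    · right
      refine ⟨k, Or.inr (hcon.trans (hf ?_))⟩
      omega
  have h8 : C * (f m : ℝ) ^ (-(max e (1 / 40))) * X ≤ C * (f m : ℝ) ^ (-e) * X := by
    apply mul_le_mul_of_nonneg_right _ (Nat.cast_nonneg X)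
    exact mul_le_mul_of_nonneg_left hpow hC.le
  have h7 : (1 - C * (f m : ℝ) ^ (-e)) * X = X - C * (f m : ℝ) ^ (-e) * X := by ring
  rw [h7]
  linarith

theorem fin_passage3 : ∃ (c : ℝ) (δ : Finset ℕ → (ℕ → ℕ) → ℝ), 0 < c ∧
    (∀ S f, Slow f →
      HasDens {n | tau S f n ≤ n} (δ S f) ∧ HasDens {n | tau S f n = ⊤} (1 - δ S f) ∧
      (∀ y : ℝ, HasDens {n | ∃ k : ℕ, tau S f n = k ∧
        (k : ℝ) ≤ 3 / Real.log (4 / 3) * Real.log n +
          y * ((3 * Real.log 2 / Real.log (4 / 3) - 1) * Real.sqrt (2 / Real.log (4 / 3))) *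
            Real.sqrt (Real.log n)}
        (δ S f * (ProbabilityTheory.gaussianReal 0 1).real (Set.Iic y))) ∧
      (∀ a ∈ S, 0 < a → ¬ 3 ∣ a → c / a ≤ δ S f)) ∧
    (∀ S, ∀ ε : ℝ, 0 < ε → ∃ R : ℝ, ∀ N X : ℕ, R * max (N : ℝ) 1 ≤ X →
      |cnt {n | tau S (fun _ => N) n ≠ ⊤} X - δ S (fun _ => N) * X| ≤ ε * X ∧
      ∀ y : ℝ, |cnt {n | ∃ k : ℕ, tau S (fun _ => N) n = k ∧
        (k : ℝ) ≤ 3 / Real.log (4 / 3) * Real.log (X / max (N : ℝ) 1) +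
          y * ((3 * Real.log 2 / Real.log (4 / 3) - 1) * Real.sqrt (2 / Real.log (4 / 3))) *
            Real.sqrt (Real.log (X / max (N : ℝ) 1))} X -
        δ S (fun _ => N) * (ProbabilityTheory.gaussianReal 0 1).real (Set.Iic y) * X| ≤ ε * X) ∧
    (∀ e : ℝ, e < 1 / 20 → ∃ K : ℝ, ∀ S f, Slow f → ∀ m : ℕ, 1 ≤ f m →
      1 - K * (f m : ℝ) ^ (-e) ≤ δ S f) ∧
    (δ {1} 0 = 1 ↔ ∀ n : ℕ, 0 < n → tau {1} 0 n ≠ ⊤) := by
  obtain ⟨c, δ, hc, h1, h2, -, h4⟩ := fin_passage2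
  refine ⟨c, δ, hc, h1, h2, ?_, h4⟩
  intro e he
  obtain ⟨K, hK⟩ := ts3_ge he
  exact ⟨K, fun S f hf m hm => hK S f hf.1 _ (h1 S f hf).2.1 m hm⟩

end Pool.Agent.Lib.MP_e43fce_nt_nat
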