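import Pool.Agent.Lib.MP_e43fce_ps.EDefs

/-! E1 (75 minutes): deviant numbers are rare (two-sided Chernoff bound, maximum over the prefixes).
PROOF. `sum_weight` (Lib bt) with `t = exp(2s)`: `sum over r < 2^j of exp(s (2 od j r - j)) = exp(-s j) (1 + exp(2s))^j
= 2^j (cosh s)^j <= 2^j exp(s^2 j/2)` (`Real.cosh_le_exp_half_sq`); the same for `-s`.  So for `j <= J` and `s = a` the number
of `r < 2^j` with `2 od j r - j > a J` is at most `exp(-a^2 J) 2^j exp(a^2 j/2) <= 2^j exp(-a^2 J/2)`, and the same for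
`< - a J`.  `od j m` depends only on `m mod 2^j` (`od_congr`), so the number of `m <= Y` (`2^j <= 2^J <= Y`) with
`a J < |2 od j m - j|` is at most `(Y/2^j + 1) * 2 * 2^j exp(-a^2 J/2) <= 4 Y exp(-a^2 J/2)`.  Sum over `j <= J`:
`4 (J+1) exp(-a^2 J/2) Y <= C exp(-a^2 J/4) Y`, `q = exp(-a^2/4)`.
(The number of `m` in `[1,Y]` with `m mod 2^j` in a set `B` of residues is at most `(Y/2^j + 1) card B`: for instance
`m -> (m / 2^j, m % 2^j)` is injective into `range (Y/2^j + 1) x B`.) -/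

set_option autoImplicit false

namespace Pool.Agent.Lib.MP_e43fce_ps

open Finset
open Pool.Agent.Lib.MP_e43fce_nt_bt (T od od_congr sum_weight)

theorem e1_mgf (s : ℝ) (j : ℕ) :
    ∑ r ∈ range (2 ^ j), Real.exp (s * (2 * (od j r : ℝ) - j)) ≤
      2 ^ j * Real.exp (s ^ 2 * j / 2) := by
  have h1 : ∀ r ∈ range (2 ^ j), Real.exp (s * (2 * (od j r : ℝ) - j)) =
      Real.exp (-s) ^ j * (Real.exp (2 * s)) ^ od j r := by
    intro r _
    rw [← Real.exp_nat_mul, ← Real.exp_nat_mul, ← Real.exp_add]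
    congr 1
    ring
  rw [Finset.sum_congr rfl h1, ← Finset.mul_sum, sum_weight, ← mul_pow]
  have h2 : Real.exp (-s) * (1 + Real.exp (2 * s)) = 2 * Real.cosh s := by
    rw [Real.cosh_eq, mul_add, ← Real.exp_add, mul_one]
    have : -s + 2 * s = s := by ring
    rw [this]
    ring
  rw [h2]
  have h3 : Real.cosh s ≤ Real.exp (s ^ 2 / 2) := Real.cosh_le_exp_half_sq s
  calc (2 * Real.cosh s) ^ j ≤ (2 * Real.exp (s ^ 2 / 2)) ^ j := by
        apply pow_le_pow_left₀
        · have := Real.cosh_pos s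
          positivity
        · linarith
    _ = 2 ^ j * Real.exp (s ^ 2 * j / 2) := by
        rw [mul_pow, ← Real.exp_nat_mul]
        congr 2
        ring

theorem e1_res {a : ℝ} (ha : 0 < a) (j J : ℕ) (hj : j ≤ J) :
    (((range (2 ^ j)).filter (fun r => a * J < |2 * (od j r : ℝ) - j|)).card : ℝ) ≤
      2 * 2 ^ j * Real.exp (-(a ^ 2 * J / 2)) := by
  have h1 := e1_mgf a j
  have h2 := e1_mgf (-a) j
  set B := (range (2 ^ j)).filter (fun r => a * J < |2 * (od j r : ℝ) - j|) with hB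
  have h3 : (B.card : ℝ) * Real.exp (a ^ 2 * J) ≤
      ∑ r ∈ range (2 ^ j), (Real.exp (a * (2 * (od j r : ℝ) - j)) +
        Real.exp (-a * (2 * (od j r : ℝ) - j))) := by
    calc (B.card : ℝ) * Real.exp (a ^ 2 * J) = ∑ r ∈ B, Real.exp (a ^ 2 * J) := by
          rw [Finset.sum_const, nsmul_eq_mul]
      _ ≤ ∑ r ∈ B, (Real.exp (a * (2 * (od j r : ℝ) - j)) +
            Real.exp (-a * (2 * (od j r : ℝ) - j))) := by
          apply Finset.sum_le_sum
          intro r hr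
          rw [hB, Finset.mem_filter] at hr
          have h4 := hr.2
          have h5 : a ^ 2 * J ≤ a * |2 * (od j r : ℝ) - j| := by
            have : a ^ 2 * J = a * (a * J) := by ring
            rw [this]
            exact mul_le_mul_of_nonneg_left h4.le ha.le
          rcases abs_cases (2 * (od j r : ℝ) - j) with ⟨h6, _⟩ | ⟨h6, _⟩
          · rw [h6] at h5
            have h7 := Real.exp_le_exp.mpr h5
            have h8 := Real.exp_pos (-a * (2 * (od j r : ℝ) - j))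
            linarith
          · rw [h6] at h5
            have h7 := Real.exp_le_exp.mpr h5
            have h8 := Real.exp_pos (a * (2 * (od j r : ℝ) - j))
            have h9 : a * -(2 * (od j r : ℝ) - j) = -a * (2 * (od j r : ℝ) - j) := by ring
            rw [h9] at h7
            linarith
      _ ≤ _ := by
          apply Finset.sum_le_sum_of_subset_of_nonneg (Finset.filter_subset _ _)
          intro r _ _
          have := Real.exp_pos (a * (2 * (od j r : ℝ) - j))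
          have := Real.exp_pos (-a * (2 * (od j r : ℝ) - j))
          linarith
  rw [Finset.sum_add_distrib] at h3
  rw [neg_sq] at h2
  have h4 : Real.exp (a ^ 2 * j / 2) ≤ Real.exp (a ^ 2 * J / 2) := by
    apply Real.exp_le_exp.mpr
    have : (j : ℝ) ≤ J := by exact_mod_cast hj
    have h5 : 0 ≤ a ^ 2 := sq_nonneg a
    nlinarith
  have h5 : (B.card : ℝ) * Real.exp (a ^ 2 * J) ≤ 2 * 2 ^ j * Real.exp (a ^ 2 * J / 2) := by
    have h6 : (2 : ℝ) ^ j * Real.exp (a ^ 2 * j / 2) ≤ 2 ^ j * Real.exp (a ^ 2 * J / 2) :=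
      mul_le_mul_of_nonneg_left h4 (by positivity)
    linarith
  have h6 : Real.exp (a ^ 2 * J) = Real.exp (a ^ 2 * J / 2) * Real.exp (a ^ 2 * J / 2) := by
    rw [← Real.exp_add]; congr 1; ring
  have h7 := Real.exp_pos (a ^ 2 * J / 2)
  rw [h6, ← mul_assoc] at h5
  have h8 : (B.card : ℝ) * Real.exp (a ^ 2 * J / 2) ≤ 2 * 2 ^ j := le_of_mul_le_mul_right h5 h7
  rw [Real.exp_neg]
  rw [← div_eq_mul_inv, le_div_iff₀ h7]
  exact h8

theorem e1_box (j Y : ℕ) (hY : 2 ^ j ≤ Y) (P : ℕ → Prop) [DecidablePred P]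
    (hP : ∀ m, P m ↔ P (m % 2 ^ j)) (S : Finset ℕ) (hS : ∀ m ∈ S, m ≤ Y ∧ P m) :
    (S.card : ℝ) ≤ 2 * Y / 2 ^ j * ((range (2 ^ j)).filter P).card := by
  have hpos : 0 < 2 ^ j := Nat.pow_pos (by norm_num)
  have h1 : S.card ≤ (range (Y / 2 ^ j + 1) ×ˢ (range (2 ^ j)).filter P).card := by
    apply Finset.card_le_card_of_injOn (fun m => (m / 2 ^ j, m % 2 ^ j))
    · intro m hm
      have h2 := hS m hm
      rw [Finset.mem_coe, Finset.mem_product, Finset.mem_range, Finset.mem_filter,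
        Finset.mem_range]
      refine ⟨?_, Nat.mod_lt _ hpos, (hP m).mp h2.2⟩
      have := Nat.div_le_div_right (c := 2 ^ j) h2.1
      show m / 2 ^ j < Y / 2 ^ j + 1
      omega
    · intro m _ m' _ h
      have h3 : m / 2 ^ j = m' / 2 ^ j := congrArg Prod.fst h
      have h4 : m % 2 ^ j = m' % 2 ^ j := congrArg Prod.snd h
      rw [← Nat.div_add_mod m (2 ^ j), ← Nat.div_add_mod m' (2 ^ j), h3, h4]
  rw [Finset.card_product, Finset.card_range] at h1
  have h2 : (S.card : ℝ) ≤ ((Y / 2 ^ j : ℕ) + 1 : ℝ) * ((range (2 ^ j)).filter P).card := by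
    exact_mod_cast h1
  refine h2.trans (mul_le_mul_of_nonneg_right ?_ (Nat.cast_nonneg _))
  have h3 : ((Y / 2 ^ j : ℕ) : ℝ) ≤ (Y : ℝ) / 2 ^ j := by
    have := @Nat.cast_div_le ℝ _ _ _ Y (2 ^ j)
    push_cast at this
    exact this
  have h4 : (1 : ℝ) ≤ (Y : ℝ) / 2 ^ j := by
    rw [le_div_iff₀ (by positivity), one_mul]
    exact_mod_cast hY
  have h5 : 2 * (Y : ℝ) / 2 ^ j = (Y : ℝ) / 2 ^ j + (Y : ℝ) / 2 ^ j := by ring
  rw [h5]
  linarith

theorem e1_count {a : ℝ} (ha : 0 < a) : ∃ q C : ℝ, 0 < q ∧ q < 1 ∧ 0 < C ∧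
    ∀ J Y : ℕ, 2 ^ J ≤ Y → ∀ S : Finset ℕ, (∀ m ∈ S, 1 ≤ m ∧ m ≤ Y ∧ Dev (a * J) J m) →
      (S.card : ℝ) ≤ C * q ^ J * Y := by
  classical
  have hc : 0 < a ^ 2 / 4 := by positivity
  refine ⟨Real.exp (-(a ^ 2 / 4)), 4 * (1 + 1 / (a ^ 2 / 4)), Real.exp_pos _, ?_, ?_, ?_⟩
  · rw [Real.exp_lt_one_iff]; linarith
  · positivity
  intro J Y hY S hS
  have h1 : S ⊆ (range (J + 1)).biUnion (fun j => S.filter (fun m =>
      a * J < |2 * (od j m : ℝ) - j|)) := by
    intro m hm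
    obtain ⟨_, _, j, hj, hd⟩ := hS m hm
    rw [Finset.mem_biUnion]
    exact ⟨j, Finset.mem_range.mpr (by omega), Finset.mem_filter.mpr ⟨hm, hd⟩⟩
  have h2 : (S.card : ℝ) ≤ ∑ j ∈ range (J + 1),
      ((S.filter (fun m => a * J < |2 * (od j m : ℝ) - j|)).card : ℝ) := by
    have h3 := (Finset.card_le_card h1).trans Finset.card_biUnion_le
    exact_mod_cast h3
  have h3 : ∀ j ∈ range (J + 1),
      ((S.filter (fun m => a * J < |2 * (od j m : ℝ) - j|)).card : ℝ) ≤
        4 * Y * Real.exp (-(a ^ 2 * J / 2)) := by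
    intro j hj
    rw [Finset.mem_range] at hj
    have hjJ : j ≤ J := by omega
    have hYj : 2 ^ j ≤ Y := (Nat.pow_le_pow_right (by norm_num) hjJ).trans hY
    have h4 := e1_box j Y hYj (fun m => a * J < |2 * (od j m : ℝ) - j|)
      (fun m => by
        have : od j m = od j (m % 2 ^ j) := od_congr j _ _ (Nat.mod_mod _ _).symm
        rw [this])
      (S.filter (fun m => a * J < |2 * (od j m : ℝ) - j|))
      (fun m hm => by
        rw [Finset.mem_filter] at hm
        exact ⟨(hS m hm.1).2.1, hm.2⟩)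
    have h5 := e1_res ha j J hjJ
    have h6 : (0 : ℝ) ≤ 2 * Y / 2 ^ j := by positivity
    have h7 := mul_le_mul_of_nonneg_left h5 h6
    have h8 : 2 * (Y : ℝ) / 2 ^ j * (2 * 2 ^ j * Real.exp (-(a ^ 2 * J / 2))) =
        4 * Y * Real.exp (-(a ^ 2 * J / 2)) := by
      have : (2 : ℝ) ^ j ≠ 0 := by positivity
      field_simp
      ring
    rw [h8] at h7
    exact h4.trans h7
  have h4 := h2.trans (Finset.sum_le_sum h3)
  rw [Finset.sum_const, Finset.card_range, nsmul_eq_mul] at h4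
  refine h4.trans ?_
  rw [← Real.exp_nat_mul]
  have h5 : Real.exp (-(a ^ 2 * J / 2)) = Real.exp (J * -(a ^ 2 / 4)) *
      Real.exp (-((a ^ 2 / 4) * J)) := by
    rw [← Real.exp_add]; congr 1; ring
  have h6 : ((J + 1 : ℕ) : ℝ) * Real.exp (-((a ^ 2 / 4) * J)) ≤ 1 + 1 / (a ^ 2 / 4) := by
    rw [Real.exp_neg, ← div_eq_mul_inv, div_le_iff₀ (Real.exp_pos _)]
    generalize a ^ 2 / 4 = c at hc
    have h7 := Real.add_one_le_exp (c * J)
    have h8 : 0 < 1 + 1 / c := by positivity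
    have h9 := mul_le_mul_of_nonneg_left h7 h8.le
    refine le_trans ?_ h9
    have h10 : (1 + 1 / c) * (c * (J : ℝ) + 1) = c * J + 1 + J + 1 / c := by
      field_simp
      ring
    rw [h10]
    push_cast
    have h11 : 0 ≤ c * (J : ℝ) := by positivity
    have h12 : 0 < 1 / c := by positivity
    linarith
  have h7 := Real.exp_pos ((J : ℝ) * -(a ^ 2 / 4))
  rw [h5]
  generalize Real.exp ((J : ℝ) * -(a ^ 2 / 4)) = E at *
  generalize Real.exp (-((a ^ 2 / 4) * J)) = F at *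
  have h8 : (0 : ℝ) ≤ 4 * Y * E := by positivity
  calc ((J + 1 : ℕ) : ℝ) * (4 * Y * (E * F)) = (4 * Y * E) * (((J + 1 : ℕ) : ℝ) * F) := by ring
    _ ≤ (4 * Y * E) * (1 + 1 / (a ^ 2 / 4)) := mul_le_mul_of_nonneg_left h6 h8
    _ = 4 * (1 + 1 / (a ^ 2 / 4)) * E * Y := by ring

end Pool.Agent.Lib.MP_e43fce_ps
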