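import Pool.Agent.Lib.MP_e43fce_ps.PDefs

/-! PB1: the accelerated map `T` of Lib bt (`MP_e43fce_nt_bt.T`) and `col`; what badness means
for the number `od j m` of odd terms among the first `j` iterates of `T`. -/

set_option autoImplicit false

namespace Pool.Agent.Lib.MP_e43fce_ps

open Pool.Agent.Lib.MP_e43fce_nt_nat (col)
open Pool.Agent.Lib.MP_e43fce_nt_bt (T od growth)

theorem pb1_T (j m : ℕ) : T^[j] m = col^[j + od j m] m := by
  induction j generalizing m with
  | zero => simp [od]
  | succ j ih =>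
    rw [Function.iterate_succ_apply, ih (T m), od]
    rcases Nat.mod_two_eq_zero_or_one m with h0 | h0
    · have h1 : T m = col m := by
        unfold T col
        rw [if_pos h0, if_pos h0]
      rw [h0, h1, show j + 1 + (0 + od j (col m)) = (j + od j (col m)) + 1 by ring,
        Function.iterate_succ_apply]
    · have h1 : T m = col (col m) := by
        have h2 : col m = 3 * m + 1 := by
          unfold col
          rw [if_neg (by omega)]
        rw [h2]
        unfold T col
        rw [if_neg (by omega), if_pos (by omega)]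
      rw [h0, h1, show j + 1 + (1 + od j (col (col m))) = (j + od j (col (col m))) + 1 + 1 by ring,
        Function.iterate_succ_apply, Function.iterate_succ_apply]

theorem pb1_bad {c : ℝ} (hc : 0 < c) {j m : ℕ} (hj : 1 ≤ j) (hm : 2 ^ j ≤ m) (hb : IsBad c m) :
    (j : ℝ) * (Real.log 2 - 1 / c) - Real.log 2 < (od j m : ℝ) * (Real.log 3 + 1 / c) := by
  have hg := growth j m
  have hmpos : (0 : ℝ) < m := by
    have : 0 < 2 ^ j := by positivity
    exact_mod_cast lt_of_lt_of_le this hm
  have h1 := hb (j + od j m) (by omega)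
  rw [← pb1_T] at h1
  set o := od j m with ho
  have h2 : (2 : ℝ) ^ j * (T^[j] m : ℝ) ≤ 3 ^ o * (m + 2 ^ j) := by exact_mod_cast hg
  have h3 : (2 : ℝ) ^ j ≤ m := by exact_mod_cast hm
  set E := Real.exp (((j + o : ℕ) : ℝ) / c) with hE
  have hEpos : 0 < E := Real.exp_pos _
  have h2j : (0 : ℝ) < 2 ^ j := by positivity
  have h3o : (0 : ℝ) < 3 ^ o := by positivity
  have h4 : (2 : ℝ) ^ j * m < 2 * m * 3 ^ o * E := by
    calc (2 : ℝ) ^ j * m < 2 ^ j * ((T^[j] m : ℝ) * E) := mul_lt_mul_of_pos_left h1 h2j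
      _ = (2 ^ j * (T^[j] m : ℝ)) * E := by ring
      _ ≤ (3 ^ o * (m + 2 ^ j)) * E := mul_le_mul_of_nonneg_right h2 hEpos.le
      _ ≤ (3 ^ o * (m + m)) * E := by
          apply mul_le_mul_of_nonneg_right _ hEpos.le
          apply mul_le_mul_of_nonneg_left _ h3o.le
          linarith
      _ = 2 * m * 3 ^ o * E := by ring
  have h5 : (2 : ℝ) ^ j < 2 * 3 ^ o * E := by
    have : (2 : ℝ) ^ j * m < (2 * 3 ^ o * E) * m := by linarith
    exact lt_of_mul_lt_mul_right this hmpos.le
  have h6 := Real.log_lt_log h2j h5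
  rw [Real.log_mul (by positivity) hEpos.ne', Real.log_mul (by norm_num) h3o.ne', Real.log_pow,
    Real.log_pow, hE, Real.log_exp] at h6
  push_cast at h6
  have h7 : ((j : ℝ) + o) / c = j * (1 / c) + o * (1 / c) := by ring
  rw [h7] at h6
  nlinarith

end Pool.Agent.Lib.MP_e43fce_ps
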