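import Pool.Agent.Lib.MP_e43fce_ps.EDefs
import Pool.Agent.Lib.MP_e43fce_ps.PB1
import Pool.Agent.Lib.MP_e43fce_nt_bt.Window

/-! E2 (75 minutes): from the counts of odd terms to the path.
PROOF. `e2_T`: `2^j T^[j] m >= 3^o m` (`o = od j m`; induction as for `growth` in Lib bt) and
`2^j T^[j] m <= 3^o (m + 2^j) <= 2 * 3^o m` (`growth`, `2^j <= 2^J <= m`).  Take logarithms.
`e2_drop`: `o <= (J + b)/2`, `log 3/2 - log 2 = - log(4/3)/2`.
`e2_path`: `k <= J + od J m` is either `k = j + od j m` with `j <= J` (then `col^[k] m = T^[j] m`, `pb1_T`) or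
`k = j + od j m + 1` with `j < J` and `T^[j] m` odd (then `col^[k] m = 3 T^[j] m + 1`): take the largest `j` with
`j + od j m <= k`; `od (j+1) m = od j m + T^[j] m % 2` (auxiliary lemma, by induction).
In the first case `dv m k = (2 o - j) (log 6)/3 + theta`, `0 <= theta <= log 2` (identity:
`o log 3 - j log 2 + (j + o) (2 log 2 - log 3)/3 = (2 o - j)(log 2 + log 3)/3`), so `|dv m k| <= b * 0.6 + 0.7`.
In the second case `log(3v+1)` is between `log v + log 3` and `log v + log 4` (`v >= 1`), so `|dv|` grows by at most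
`log 4 + log(4/3)/3 <= 1.5`.  (`(log 2 + log 3)/3 <= 1`, `b >= 0` because `Dev b J m` fails for `j = 0`.) -/

set_option autoImplicit false

namespace Pool.Agent.Lib.MP_e43fce_ps

open Pool.Agent.Lib.MP_e43fce_nt_nat (col)
open Pool.Agent.Lib.MP_e43fce_nt_bt (T od growth growth_lower)

private theorem e2_od_succ (j m : ℕ) : od (j + 1) m = od j m + T^[j] m % 2 := by
  induction j generalizing m with
  | zero => simp [od]
  | succ j ih =>
    have h := ih (T m)
    rw [od, h, od, Function.iterate_succ_apply]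
    ring

private theorem e2_mpos {m J : ℕ} (hm : 2 ^ J ≤ m) : (0 : ℝ) < m := by
  have : 0 < 2 ^ J := by positivity
  exact_mod_cast lt_of_lt_of_le this hm

private theorem e2_Tpos {m J : ℕ} (hm : 2 ^ J ≤ m) (j : ℕ) : 1 ≤ T^[j] m := by
  have h0 : 0 < m := lt_of_lt_of_le (by positivity) hm
  have h1 := growth_lower j m
  by_contra hc
  have h2 : T^[j] m = 0 := by omega
  rw [h2, mul_zero] at h1
  have h3 : 0 < 3 ^ od j m * m := by positivity
  omega

theorem e2_T {m J : ℕ} (hm : 2 ^ J ≤ m) {j : ℕ} (hj : j ≤ J) :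
    (od j m : ℝ) * Real.log 3 - j * Real.log 2 ≤ Real.log (T^[j] m) - Real.log m ∧
      Real.log (T^[j] m) - Real.log m ≤
        (od j m : ℝ) * Real.log 3 - j * Real.log 2 + Real.log 2 := by
  have hm0 := e2_mpos hm
  have hT0 : (0 : ℝ) < (T^[j] m : ℕ) := by exact_mod_cast e2_Tpos hm j
  have h3 : (0 : ℝ) < 3 ^ od j m := by positivity
  have h2 : (0 : ℝ) < 2 ^ j := by positivity
  constructor
  · have h1 : (3 : ℝ) ^ od j m * m ≤ 2 ^ j * (T^[j] m : ℕ) := by exact_mod_cast growth_lower j m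
    have h4 := Real.log_le_log (by positivity) h1
    rw [Real.log_mul h3.ne' hm0.ne', Real.log_mul h2.ne' hT0.ne', Real.log_pow,
      Real.log_pow] at h4
    linarith
  · have h1 : (2 : ℝ) ^ j * (T^[j] m : ℕ) ≤ 3 ^ od j m * (m + 2 ^ j) := by
      exact_mod_cast growth j m
    have h5 : (2 : ℝ) ^ j ≤ m := by
      have : 2 ^ j ≤ m := le_trans (Nat.pow_le_pow_right (by norm_num) hj) hm
      exact_mod_cast this
    have h6 : (2 : ℝ) ^ j * (T^[j] m : ℕ) ≤ 3 ^ od j m * (2 * m) := by
      refine h1.trans (mul_le_mul_of_nonneg_left ?_ h3.le)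
      linarith
    have h4 := Real.log_le_log (by positivity) h6
    rw [Real.log_mul h3.ne' (by positivity), Real.log_mul h2.ne' hT0.ne', Real.log_pow,
      Real.log_pow, Real.log_mul (by norm_num) hm0.ne'] at h4
    linarith

private theorem e2_dev {m J : ℕ} {b : ℝ} (h : ¬ Dev b J m) {j : ℕ} (hj : j ≤ J) :
    |2 * (od j m : ℝ) - j| ≤ b := by
  by_contra hc
  rw [not_le] at hc
  exact h ⟨j, hj, hc⟩

private theorem e2_log43 : Real.log (4 / 3) = 2 * Real.log 2 - Real.log 3 := by
  rw [Real.log_div (by norm_num) (by norm_num), show (4 : ℝ) = 2 ^ 2 by norm_num, Real.log_pow]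
  push_cast
  ring

theorem e2_drop {m J : ℕ} (hm : 2 ^ J ≤ m) {b : ℝ} (h : ¬ Dev b J m) :
    Real.log (col^[J + od J m] m) ≤
      Real.log m - J * (Real.log (4 / 3) / 2) + b * (Real.log 3 / 2) + Real.log 2 := by
  rw [← pb1_T]
  have h1 := (e2_T hm le_rfl).2
  have h2 := abs_le.mp (e2_dev h le_rfl)
  have h3 : 0 < Real.log 3 := Real.log_pos (by norm_num)
  rw [e2_log43]
  have h4 : (od J m : ℝ) * Real.log 3 ≤ ((J + b) / 2) * Real.log 3 :=
    mul_le_mul_of_nonneg_right (by linarith [h2.2]) h3.le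
  nlinarith

private theorem e2_base {m J : ℕ} (hm : 2 ^ J ≤ m) {b : ℝ} (h : ¬ Dev b J m) {j : ℕ}
    (hj : j ≤ J) : -b ≤ dv m (j + od j m) ∧ dv m (j + od j m) ≤ b + 7 / 10 := by
  have h1 := e2_T hm hj
  have h2 := abs_le.mp (e2_dev h hj)
  have h3 : 0 < Real.log 3 := Real.log_pos (by norm_num)
  have h4 : 0 < Real.log 2 := Real.log_pos (by norm_num)
  have h5 : Real.log 2 < 0.6931471808 := Real.log_two_lt_d9
  have h6 : Real.log 3 ≤ 3 - 1 := Real.log_le_sub_one_of_pos (by norm_num)
  have hb : 0 ≤ b := le_trans (abs_nonneg _) (e2_dev h hj)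
  have h7 : dv m (j + od j m) = Real.log (T^[j] m) - Real.log m +
      ((j : ℝ) + od j m) * ((2 * Real.log 2 - Real.log 3) / 3) := by
    unfold dv
    rw [← pb1_T, e2_log43]
    push_cast
    ring
  have h8 : (od j m : ℝ) * Real.log 3 - j * Real.log 2 +
      ((j : ℝ) + od j m) * ((2 * Real.log 2 - Real.log 3) / 3) =
      (2 * (od j m : ℝ) - j) * ((Real.log 2 + Real.log 3) / 3) := by ring
  have h9 : 0 ≤ (Real.log 2 + Real.log 3) / 3 := by positivity
  have h10 : (Real.log 2 + Real.log 3) / 3 ≤ 1 := by linarith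
  have h11 : (2 * (od j m : ℝ) - j) * ((Real.log 2 + Real.log 3) / 3) ≤ b := by
    calc (2 * (od j m : ℝ) - j) * ((Real.log 2 + Real.log 3) / 3) ≤
        b * ((Real.log 2 + Real.log 3) / 3) := mul_le_mul_of_nonneg_right h2.2 h9
      _ ≤ b * 1 := mul_le_mul_of_nonneg_left h10 hb
      _ = b := mul_one b
  have h12 : -b ≤ (2 * (od j m : ℝ) - j) * ((Real.log 2 + Real.log 3) / 3) := by
    calc -b = -(b * 1) := by ring
      _ ≤ -(b * ((Real.log 2 + Real.log 3) / 3)) :=
        neg_le_neg (mul_le_mul_of_nonneg_left h10 hb)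
      _ = (-b) * ((Real.log 2 + Real.log 3) / 3) := by ring
      _ ≤ _ := mul_le_mul_of_nonneg_right h2.1 h9
  rw [h7]
  constructor
  · linarith [h1.1]
  · linarith [h1.2]

theorem e2_path {m J : ℕ} (hm : 2 ^ J ≤ m) {b : ℝ} (h : ¬ Dev b J m) :
    ∀ k ≤ J + od J m, |dv m k| ≤ b + 3 := by
  intro k hk
  classical
  set j := Nat.findGreatest (fun j => j + od j m ≤ k) J with hjdef
  have hjJ : j ≤ J := Nat.findGreatest_le J
  have hP : j + od j m ≤ k :=
    Nat.findGreatest_spec (P := fun j => j + od j m ≤ k) (Nat.zero_le J) (by simp [od])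
  have hbase := e2_base hm h hjJ
  have hb : 0 ≤ b := le_trans (abs_nonneg _) (e2_dev h hjJ)
  rcases eq_or_lt_of_le hP with he | hlt
  · rw [← he, abs_le]
    exact ⟨by linarith [hbase.1], by linarith [hbase.2]⟩
  · have hjlt : j < J := by
      rcases lt_or_eq_of_le hjJ with h1 | h1
      · exact h1
      · rw [h1] at hlt
        omega
    have hnP : ¬ (j + 1 + od (j + 1) m ≤ k) :=
      Nat.findGreatest_is_greatest (P := fun j => j + od j m ≤ k)
        (show Nat.findGreatest (fun j => j + od j m ≤ k) J < j + 1 by omega) (by omega)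
    rw [e2_od_succ] at hnP
    have hodd : T^[j] m % 2 = 1 := by omega
    have hk1 : k = j + od j m + 1 := by omega
    have hcol : col^[k] m = 3 * T^[j] m + 1 := by
      rw [hk1, Function.iterate_succ_apply', ← pb1_T]
      unfold col
      rw [if_neg (by omega)]
    have hv := e2_Tpos hm j
    set v := T^[j] m with hvdef
    have hv1 : (1 : ℝ) ≤ v := by exact_mod_cast hv
    have hv0 : (0 : ℝ) < v := by linarith
    have h1 : Real.log 3 + Real.log v ≤ Real.log (3 * (v : ℝ) + 1) := by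
      rw [← Real.log_mul (by norm_num) hv0.ne']
      exact Real.log_le_log (by positivity) (by linarith)
    have h2 : Real.log (3 * (v : ℝ) + 1) ≤ 2 * Real.log 2 + Real.log v := by
      have h3 : 2 * Real.log 2 = Real.log 4 := by
        rw [show (4 : ℝ) = 2 ^ 2 by norm_num, Real.log_pow]
        push_cast
        ring
      rw [h3, ← Real.log_mul (by norm_num) hv0.ne']
      exact Real.log_le_log (by positivity) (by linarith)
    have h3 : 0 < Real.log 3 := Real.log_pos (by norm_num)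
    have h5 : Real.log 2 < 0.6931471808 := Real.log_two_lt_d9
    have h6 : Real.log (4 / 3) ≤ 4 / 3 - 1 := Real.log_le_sub_one_of_pos (by norm_num)
    have h7 : 0 ≤ Real.log (4 / 3) := Real.log_nonneg (by norm_num)
    have h8 : dv m k = dv m (j + od j m) + (Real.log (3 * (v : ℝ) + 1) - Real.log v) +
        Real.log (4 / 3) / 3 := by
      unfold dv
      rw [hcol, ← pb1_T, hk1, ← hvdef]
      push_cast
      ring
    rw [h8, abs_le]
    exact ⟨by linarith [hbase.1], by linarith [hbase.2]⟩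

end Pool.Agent.Lib.MP_e43fce_ps
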