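import Pool.Agent.Lib.MP_e43fce_ps.PDefs

/-! EDefs: definitions for the pathwise form. -/

set_option autoImplicit false

namespace Pool.Agent.Lib.MP_e43fce_ps

open Pool.Agent.Lib.MP_e43fce_nt_nat (col)
open Pool.Agent.Lib.MP_e43fce_nt_bt (T od)

/-- deviation of `log (col^[k] m)` from the line `log m - k log(4/3)/3` -/
noncomputable def dv (m k : ℕ) : ℝ :=
  Real.log (col^[k] m) - Real.log m + k * (Real.log (4 / 3) / 3)

/-- `m` is `b`-deviant during `J` steps of the accelerated map -/
def Dev (b : ℝ) (J m : ℕ) : Prop := ∃ j ≤ J, b < |2 * (od j m : ℝ) - j|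

end Pool.Agent.Lib.MP_e43fce_ps
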