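import Pool.Agent.Lib.MP_e43fce_ps.PDefs

/-! PA1 (15 minutes): the offset of an orbit which stays above `m`.
PROOF. Induction on `t`; put `e = t - oc t n` (and `oc t n <= t`, first lemma).
`t = 0`: `F = 0`.  Step, `v = col^[t] n` even: `oc (t+1) n = oc t n`, `e` grows by one, `col^[t+1] n = v/2`
(`Function.iterate_succ_apply'`), `2^(e+1) (v/2) = 2^e v`, same `F`.
Step, `v` odd: `v >= m`, `oc` grows by one, `e` is the same, `col^[t+1] n = 3v+1`, `F' = 3F + 2^e`:
`2^e (3v+1) = 3 (3^o n + F) + 2^e` and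
`3mF' = 3 (3mF) + 3m 2^e <= 3 (o 2^e v) + 3 v 2^e = (o+1) 2^e (3v) <= (o+1) 2^e (3v+1)`. -/

set_option autoImplicit false

namespace Pool.Agent.Lib.MP_e43fce_ps

open Pool.Agent.Lib.MP_e43fce_nt_nat (col)

theorem oc_le (t n : ℕ) : oc t n ≤ t := by
  induction t with
  | zero => exact le_rfl
  | succ t ih =>
    show oc t n + col^[t] n % 2 ≤ t + 1
    have := Nat.mod_lt (col^[t] n) (show 0 < 2 by norm_num)
    omega

theorem pa1_orbit (m n : ℕ) : ∀ t : ℕ, (∀ i < t, m ≤ col^[i] n) → ∃ F : ℕ,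
    2 ^ (t - oc t n) * col^[t] n = 3 ^ oc t n * n + F ∧
      3 * m * F ≤ oc t n * 2 ^ (t - oc t n) * col^[t] n := by
  intro t
  induction t with
  | zero =>
    intro _
    refine ⟨0, ?_, ?_⟩
    · simp [oc]
    · simp
  | succ t ih =>
    intro h
    obtain ⟨F, h1, h2⟩ := ih (fun i hi => h i (by omega))
    have hm := h t (by omega)
    have hle := oc_le t n
    rw [Function.iterate_succ_apply']
    have hoc : oc (t + 1) n = oc t n + col^[t] n % 2 := rfl
    revert h1 h2 hm hoc
    generalize col^[t] n = v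
    generalize oc t n = o at hle ⊢
    intro h1 h2 hm hoc
    obtain ⟨e, he⟩ : ∃ e, e = t - o := ⟨_, rfl⟩
    rw [← he] at h1 h2
    rcases Nat.mod_two_eq_zero_or_one v with hv | hv
    · rw [hv, add_zero] at hoc
      have hcol : col v = v / 2 := by
        unfold col
        rw [if_pos hv]
      have he1 : t + 1 - o = e + 1 := by omega
      have hv2 : 2 ^ (e + 1) * (v / 2) = 2 ^ e * v := by
        have : 2 * (v / 2) = v := by omega
        rw [pow_succ, mul_assoc, this]
      refine ⟨F, ?_, ?_⟩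
      · rw [hoc, hcol, he1, hv2]
        exact h1
      · rw [hoc, hcol, he1, mul_assoc o, hv2, ← mul_assoc]
        exact h2
    · rw [hv] at hoc
      have hcol : col v = 3 * v + 1 := by
        unfold col
        rw [if_neg (by omega)]
      have he1 : t + 1 - (o + 1) = e := by omega
      refine ⟨3 * F + 2 ^ e, ?_, ?_⟩
      · rw [hoc, hcol, he1, pow_succ]
        calc 2 ^ e * (3 * v + 1) = 3 * (2 ^ e * v) + 2 ^ e := by ring
          _ = 3 * (3 ^ o * n + F) + 2 ^ e := by rw [h1]
          _ = 3 ^ o * 3 * n + (3 * F + 2 ^ e) := by ring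
      · rw [hoc, hcol, he1]
        calc 3 * m * (3 * F + 2 ^ e) = 3 * (3 * m * F) + 3 * m * 2 ^ e := by ring
          _ ≤ 3 * (o * 2 ^ e * v) + 3 * v * 2 ^ e := by
              apply Nat.add_le_add
              · exact Nat.mul_le_mul_left 3 h2
              · exact Nat.mul_le_mul_right _ (Nat.mul_le_mul_left 3 hm)
          _ = (o + 1) * 2 ^ e * (3 * v) := by ring
          _ ≤ (o + 1) * 2 ^ e * (3 * v + 1) := Nat.mul_le_mul_left _ (by omega)

end Pool.Agent.Lib.MP_e43fce_ps
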