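import Pool.Agent.Lib.MP_e43fce_ps.PDefs

/-! PB2 (60 minutes): Chernoff bound in a dyadic block.
PROOF. `pb2_sum`: the block `[2^j, 2^(j+1))` is `2^j + r`, `r < 2^j`; `od_congr` (Lib bt), `sum_weight` (Lib bt).
`pb2_q`: `g(t) = log(1+t) - rho log t` has `g(1) = log 2`, `g'(1) = 1/2 - rho < 0`, so `g(t) < log 2` for some
`t > 1` (`HasDerivAt`, or by hand: put `t = 1 + s`, `s` small; `log(1+t) = log 2 + log(1+s/2) <= log 2 + s/2`,
`log t = log(1+s) >= s - s^2/2` or `>= s/(1+s)`, so `g(t) <= log 2 + s/2 - rho s/(1+s) < log 2` when `(1+s) < 2 rho`).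
`pb2_chernoff`: every `m` in `S` has `t^(rho j - 1) <= t^(od j m)` (real powers, `t > 1`), so
`card S * t^(rho j - 1) <= sum over the block = (1+t)^j`, `card S <= t ((1+t)/t^rho)^j`; `q = (1+t)/t^rho`. -/

set_option autoImplicit false

namespace Pool.Agent.Lib.MP_e43fce_ps

open Finset
open Pool.Agent.Lib.MP_e43fce_nt_bt (T od od_congr sum_weight)

theorem pb2_sum (t : ℝ) (j : ℕ) :
    ∑ m ∈ Ico (2 ^ j) (2 ^ (j + 1)), t ^ od j m = (1 + t) ^ j := by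
  rw [sum_Ico_eq_sum_range, ← sum_weight t j]
  have h1 : 2 ^ (j + 1) - 2 ^ j = 2 ^ j := by
    rw [pow_succ]
    omega
  rw [h1]
  refine sum_congr rfl fun i _ => ?_
  rw [od_congr j (2 ^ j + i) i (by rw [Nat.add_mod_left])]

theorem pb2_q {rho : ℝ} (h : 1 / 2 < rho) : ∃ t : ℝ, 1 < t ∧ (1 + t) / t ^ rho < 2 := by
  set s : ℝ := rho - 1 / 2 with hs
  have hs0 : 0 < s := by linarith
  have h1 : 1 + s < 2 * rho := by linarith
  have ht : (0 : ℝ) < 1 + s := by linarith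
  refine ⟨1 + s, by linarith, ?_⟩
  rw [div_lt_iff₀ (Real.rpow_pos_of_pos ht _)]
  have h2 : s / 2 < Real.log (1 + s) * rho := by
    have h3 : 1 - (1 + s)⁻¹ ≤ Real.log (1 + s) := Real.one_sub_inv_le_log_of_pos ht
    have h4 : 1 - (1 + s)⁻¹ = s / (1 + s) := by
      field_simp
      ring
    rw [h4] at h3
    have h5 : s / (1 + s) * rho ≤ Real.log (1 + s) * rho :=
      mul_le_mul_of_nonneg_right h3 (by linarith)
    refine lt_of_lt_of_le ?_ h5
    rw [div_mul_eq_mul_div, div_lt_div_iff₀ (by norm_num) ht]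
    nlinarith
  have h6 : 1 + s / 2 ≤ Real.exp (s / 2) := by
    have := Real.add_one_le_exp (s / 2)
    linarith
  have h7 : Real.exp (s / 2) < (1 + s) ^ rho := by
    rw [Real.rpow_def_of_pos ht]
    exact Real.exp_lt_exp.2 h2
  linarith

theorem pb2_chernoff {rho : ℝ} (h : 1 / 2 < rho) : ∃ q t : ℝ, 0 < q ∧ q < 2 ∧ 0 < t ∧
    ∀ j : ℕ, ∀ S : Finset ℕ, (∀ m ∈ S, 2 ^ j ≤ m ∧ m < 2 ^ (j + 1) ∧ rho * j - 1 < (od j m : ℝ)) →
      (S.card : ℝ) ≤ t * q ^ j := by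
  obtain ⟨t, ht1, ht2⟩ := pb2_q h
  have ht0 : 0 < t := by linarith
  have hr : 0 < t ^ rho := Real.rpow_pos_of_pos ht0 _
  refine ⟨(1 + t) / t ^ rho, t, by positivity, ht2, ht0, fun j S hS => ?_⟩
  have h1 : t ^ (rho * j - 1) = (t ^ rho) ^ j / t := by
    rw [Real.rpow_sub ht0, Real.rpow_one, Real.rpow_mul ht0.le, Real.rpow_natCast]
  have h2 : (S.card : ℝ) * t ^ (rho * j - 1) ≤ (1 + t) ^ j := by
    rw [← pb2_sum t j]
    have h3 : S ⊆ Ico (2 ^ j) (2 ^ (j + 1)) := fun m hm =>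
      mem_Ico.2 ⟨(hS m hm).1, (hS m hm).2.1⟩
    calc (S.card : ℝ) * t ^ (rho * j - 1) = ∑ _m ∈ S, t ^ (rho * j - 1) := by
          rw [sum_const, nsmul_eq_mul]
      _ ≤ ∑ m ∈ S, t ^ od j m := by
          refine sum_le_sum fun m hm => ?_
          rw [← Real.rpow_natCast]
          exact Real.rpow_le_rpow_of_exponent_le ht1.le (hS m hm).2.2.le
      _ ≤ ∑ m ∈ Ico (2 ^ j) (2 ^ (j + 1)), t ^ od j m :=
          sum_le_sum_of_subset_of_nonneg h3 fun m _ _ => by positivity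
  have h4 : 0 < (t ^ rho) ^ j := by positivity
  rw [h1, mul_div_assoc', div_le_iff₀ ht0] at h2
  rw [div_pow, mul_div_assoc', le_div_iff₀ h4]
  linarith

end Pool.Agent.Lib.MP_e43fce_ps
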