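import Pool.Agent.Lib.MP_e43fce_ps.PB1
import Pool.Agent.Lib.MP_e43fce_ps.PB2

/-! PB3 (60 minutes): bad numbers are sparse.
PROOF. `pb3_blk`: `rho = (log 2 - 1/c)/(log 3 + 1/c)`; `rho > 1/2` because `log(4/3) = 2 log 2 - log 3 > 3/c`.
PB1: `od j m > rho j - log 2/(log 3 + 1/c) > rho j - 1` for a bad `m` in the block, `j >= 1`; for `j = 0` the block is
`{1}` and the card is at most `1` (take the constant `t + 1`, and `1 <= (t+1) q^0`).
`pb3_blk19`: choose `c` so large that `rho' = (log 2 - 1/c)/(log 3 + 1/c) > 306/485` (possible because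
`306 log 3 < 485 log 2`, from `3^306 < 2^485`, `by norm_num` or `decide +kernel` as in Lib bt `exists_J`), then
`od j m > rho' j - 1 >= 306 j/485` for `j >= J`; so `m mod 2^j` lies in `bad j` of Lib bt (`od_congr`), the map
`m -> m mod 2^j` is injective on the block, and `card_bad` gives `<= w^j`, `w = 2^(19/20)`.  For `j < J` the card is
at most `2^j <= 2^J`; take `t = 2^J + 1` and `w^j >= 1`. -/

set_option autoImplicit false

namespace Pool.Agent.Lib.MP_e43fce_ps

open Finset
open Pool.Agent.Lib.MP_e43fce_nt_bt (T od od_congr bad card_bad w w_ge)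

private theorem pb3_log43 : 0 < Real.log (4 / 3) := Real.log_pos (by norm_num)

private theorem pb3_card_block (j : ℕ) (S : Finset ℕ) (hS : ∀ m ∈ S, 2 ^ j ≤ m ∧ m < 2 ^ (j + 1)) :
    S.card ≤ 2 ^ j := by
  have hsub : S ⊆ Ico (2 ^ j) (2 ^ (j + 1)) := by
    intro m hm
    exact mem_Ico.mpr (hS m hm)
  have h := card_le_card hsub
  rw [Nat.card_Ico, pow_succ] at h
  omega

theorem pb3_blk {c : ℝ} (hc : 3 / Real.log (4 / 3) < c) : ∃ q : ℝ, 0 < q ∧ q < 2 ∧ Blk c q := by
  have hl := pb3_log43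
  have hc0 : 0 < c := lt_trans (by positivity) hc
  have hl2 : 0 < Real.log 2 := Real.log_pos (by norm_num)
  have hl3 : Real.log 2 < Real.log 3 := Real.log_lt_log (by norm_num) (by norm_num)
  have h43 : Real.log (4 / 3) = 2 * Real.log 2 - Real.log 3 := by
    rw [Real.log_div (by norm_num) (by norm_num), show (4 : ℝ) = 2 ^ 2 by norm_num, Real.log_pow]
    norm_num
  have hinv : 0 < 1 / c := by positivity
  have h3c : 3 * (1 / c) < 2 * Real.log 2 - Real.log 3 := by
    rw [← h43]
    rw [div_lt_iff₀ hl] at hc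
    rw [mul_one_div, div_lt_iff₀ hc0]
    linarith
  set A : ℝ := Real.log 2 - 1 / c with hA
  set B : ℝ := Real.log 3 + 1 / c with hB
  have hBpos : 0 < B := by rw [hB]; linarith
  have hrho : 1 / 2 < A / B := by
    rw [lt_div_iff₀ hBpos, hA, hB]
    linarith
  obtain ⟨q, t, hq, hq2, ht, h⟩ := pb2_chernoff hrho
  refine ⟨q, hq, hq2, t + 1, by linarith, fun j S hS => ?_⟩
  rcases Nat.eq_zero_or_pos j with rfl | hj
  · have hcard := pb3_card_block 0 S (fun m hm => ⟨(hS m hm).1, (hS m hm).2.1⟩)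
    have h1 : (S.card : ℝ) ≤ 1 := by exact_mod_cast hcard
    simp only [pow_zero, mul_one]
    linarith
  · have h1 := h j S (fun m hm => by
      obtain ⟨ha, hb, hbad⟩ := hS m hm
      refine ⟨ha, hb, ?_⟩
      have hp := pb1_bad hc0 hj ha hbad
      rw [← hA, ← hB] at hp
      have h2 : A / B * j - 1 = (A * j - B) / B := by
        field_simp
      rw [h2, div_lt_iff₀ hBpos]
      have h3 : Real.log 2 < B := by rw [hB]; linarith
      linarith)
    have h2 : 0 < q ^ j := pow_pos hq j
    nlinarith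

theorem pb3_blk19 : ∃ c : ℝ, 3 / Real.log (4 / 3) < c ∧ Blk c w := by
  have hl := pb3_log43
  have hl2 : 0 < Real.log 2 := Real.log_pos (by norm_num)
  have hl3 : Real.log 2 < Real.log 3 := Real.log_lt_log (by norm_num) (by norm_num)
  have hlog : 306 * Real.log 3 < 485 * Real.log 2 := by
    have h0 : 3 ^ 306 < 2 ^ 485 := by decide +kernel
    have h0' : (3 : ℝ) ^ 306 < 2 ^ 485 := by exact_mod_cast h0
    have h1 := Real.log_lt_log (by positivity) h0'
    rw [Real.log_pow, Real.log_pow] at h1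
    exact_mod_cast h1
  set D : ℝ := 485 * Real.log 2 - 306 * Real.log 3 with hD
  have hDpos : 0 < D := by rw [hD]; linarith
  obtain ⟨c, hc1, hc2⟩ : ∃ c : ℝ, 3 / Real.log (4 / 3) < c ∧ 1582 / D < c := by
    refine ⟨max (3 / Real.log (4 / 3)) (1582 / D) + 1, ?_, ?_⟩
    · have := le_max_left (3 / Real.log (4 / 3)) (1582 / D)
      linarith
    · have := le_max_right (3 / Real.log (4 / 3)) (1582 / D)
      linarith
  have hc0 : 0 < c := lt_trans (by positivity) hc1
  have hcD : 1582 * (1 / c) < D := by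
    rw [div_lt_iff₀ hDpos] at hc2
    rw [mul_one_div, div_lt_iff₀ hc0]
    linarith
  have hinv : 0 < 1 / c := by positivity
  -- the gap
  set e : ℝ := D - 791 * (1 / c) with he
  have hepos : 0 < e := by rw [he]; linarith
  obtain ⟨J, hJ⟩ := exists_nat_gt (485 * Real.log 2 / e)
  have hJe : 485 * Real.log 2 < J * e := by
    rwa [div_lt_iff₀ hepos] at hJ
  have hw1 : (1 : ℝ) ≤ w := le_trans (by norm_num) w_ge
  refine ⟨c, hc1, 2 ^ J + 1, by positivity, fun j S hS => ?_⟩
  have hwj : (1 : ℝ) ≤ w ^ j := one_le_pow₀ hw1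
  have h2J : (0 : ℝ) < 2 ^ J := by positivity
  rcases lt_or_ge j J with hj | hj
  · have hcard := pb3_card_block j S (fun m hm => ⟨(hS m hm).1, (hS m hm).2.1⟩)
    have h1 : (S.card : ℝ) ≤ 2 ^ j := by exact_mod_cast hcard
    have h2 : (2 : ℝ) ^ j ≤ 2 ^ J := pow_le_pow_right₀ (by norm_num) hj.le
    nlinarith
  · have hmem : ∀ m ∈ S, m % 2 ^ j ∈ bad j := by
      intro m hm
      obtain ⟨ha, hb, hbad⟩ := hS m hm
      have hj1 : 1 ≤ j := by
        rcases Nat.eq_zero_or_pos j with rfl | h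
        · exfalso
          have hJ0 : J = 0 := by omega
          rw [hJ0] at hJe
          simp only [Nat.cast_zero, zero_mul] at hJe
          linarith
        · exact h
      have hp := pb1_bad hc0 hj1 ha hbad
      have hodc : od j (m % 2 ^ j) = od j m := od_congr j _ _ (Nat.mod_mod _ _)
      unfold Pool.Agent.Lib.MP_e43fce_nt_bt.bad
      rw [mem_filter, mem_range]
      refine ⟨Nat.mod_lt _ (by positivity), ?_⟩
      rw [hodc]
      by_contra hcon
      push Not at hcon
      have hcon' : (485 : ℝ) * (od j m : ℝ) ≤ 306 * (j : ℝ) := by exact_mod_cast hcon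
      have hB : 0 < Real.log 3 + 1 / c := by linarith
      have h1 : 485 * ((od j m : ℝ) * (Real.log 3 + 1 / c)) ≤ 306 * (j : ℝ) * (Real.log 3 + 1 / c) := by
        have := mul_le_mul_of_nonneg_right hcon' hB.le
        linarith
      have hjJ : (J : ℝ) ≤ (j : ℝ) := by exact_mod_cast hj
      have h2 : (J : ℝ) * e ≤ (j : ℝ) * e := mul_le_mul_of_nonneg_right hjJ hepos.le
      have h3 : (j : ℝ) * e = 485 * ((j : ℝ) * (Real.log 2 - 1 / c)) - 306 * (j : ℝ) * (Real.log 3 + 1 / c) := by
        rw [he, hD]; ring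
      linarith
    have hinj : Set.InjOn (fun m => m % 2 ^ j) (S : Set ℕ) := by
      intro a ha b hb hab
      obtain ⟨ha1, ha2, -⟩ := hS a ha
      obtain ⟨hb1, hb2, -⟩ := hS b hb
      simp only at hab
      rw [pow_succ] at ha2 hb2
      have ea : a % 2 ^ j = a - 2 ^ j := by
        rw [Nat.mod_eq_sub_mod ha1, Nat.mod_eq_of_lt (by omega)]
      have eb : b % 2 ^ j = b - 2 ^ j := by
        rw [Nat.mod_eq_sub_mod hb1, Nat.mod_eq_of_lt (by omega)]
      rw [ea, eb] at hab
      omega
    have hcard : S.card ≤ (bad j).card := card_le_card_of_injOn _ hmem hinj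
    have h1 : (S.card : ℝ) ≤ w ^ j := le_trans (by exact_mod_cast hcard) (card_bad j)
    nlinarith

end Pool.Agent.Lib.MP_e43fce_ps
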