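import Pool.Agent.Lib.MP_e43fce_ps.PDefs
import Pool.Agent.Lib.MP_e43fce_nt_nat.BT1

/-! PD1 (60 minutes): the base, in terms of `DD 0 (pT N T) y`.
PROOF. `pd1_mono`: `pT N T' n <= pT N T n` for `T <= T'`, so the same for `DD 0` (sums over `oddS (exp y)`,
`MM 0 = 1`: `MM_zero`, see `NN_zero_eq` in MMs.lean, `t1all_card` in T1ALL.lean).
`pd1_base`: `T0 = ceil(c y) <= T`, `T0 < c y + 1 <= N`; `DD 0 (pT N T0) y * exp y` = number of odd `n <= exp y` with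
`N < col^[k] n` for all `k <= T0`, at most the number for `hP` with `X = floor(exp y)` (`X >= 1`, `log X <= y`,
`exp y / 2 <= X <= exp y`).  So `DD 0 (pT N T0) y <= C (T0 + 1)^3 (N^(-d) + X^(-dl)) X / exp y <= C (c y + 2)^3 (N^(-d) + 2^dl exp(-dl y))`. -/

set_option autoImplicit false

namespace Pool.Agent.Lib.MP_e43fce_ps

open Finset
open Pool.Agent.Lib.MP_e43fce_nt_nat

private theorem pd1_pT {N T T' : ℕ} (h : T ≤ T') (n : ℕ) : pT N T' n ≤ pT N T n := by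
  unfold pT
  by_cases h1 : ∀ k ≤ T', N < col^[k] n
  · rw [if_pos h1, if_pos fun k hk => h1 k (hk.trans h)]
  · rw [if_neg h1]
    split_ifs
    · exact zero_le_one
    · exact le_rfl

private theorem pd1_NN (p : ℕ → ℝ) (Y : ℝ) : NN 0 p Y = ∑ n ∈ oddS Y, p n := by
  unfold NN
  refine Finset.sum_congr rfl fun n _ => ?_
  rw [MM_zero, mul_one]

theorem pd1_mono {N T T' : ℕ} (h : T ≤ T') (y : ℝ) : DD 0 (pT N T') y ≤ DD 0 (pT N T) y := by
  unfold DD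
  rw [pd1_NN, pd1_NN]
  exact div_le_div_of_nonneg_right (Finset.sum_le_sum fun n _ => pd1_pT h n)
    (Real.exp_pos y).le

/-- hypothesis: Proposition P0 -/
def P0 (c C d dl : ℝ) : Prop := ∀ N X T : ℕ, 1 ≤ N → 1 ≤ X → c * Real.log X ≤ T → T < N →
  ∀ S : Finset ℕ, (∀ n ∈ S, 1 ≤ n ∧ n ≤ X ∧ ∀ k ≤ T, N < col^[k] n) →
    (S.card : ℝ) ≤ C * ((T : ℝ) + 1) ^ 3 * ((N : ℝ) ^ (-d) + (X : ℝ) ^ (-dl)) * X

theorem pd1_base {c C d dl : ℝ} (hc : 0 < c) (hC : 0 < C) (hdl : 0 < dl) (h : P0 c C d dl) :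
    ∃ C' : ℝ, 0 < C' ∧ ∀ N : ℕ, 1 ≤ N → ∀ y : ℝ, 0 ≤ y → c * y + 1 ≤ N → ∀ T : ℕ, c * y ≤ T →
      DD 0 (pT N T) y ≤ C' * (y + 1) ^ 3 * ((N : ℝ) ^ (-d) + Real.exp (-(dl * y))) := by
  classical
  refine ⟨C * (c + 2) ^ 3 * 2 ^ dl, by positivity, fun N hN y hy0 hx1 T hT => ?_⟩
  have hcy : 0 ≤ c * y := by positivity
  obtain ⟨T0, hT0⟩ : ∃ T0, T0 = ⌈c * y⌉₊ := ⟨_, rfl⟩
  have h1 : T0 ≤ T := by
    rw [hT0]
    exact Nat.ceil_le.mpr hT
  have h2 : (T0 : ℝ) < c * y + 1 := by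
    rw [hT0]
    exact Nat.ceil_lt_add_one hcy
  have h3 : c * y ≤ T0 := by
    rw [hT0]
    exact Nat.le_ceil _
  have h4 : T0 < N := by
    have : (T0 : ℝ) < N := by linarith
    exact_mod_cast this
  have hexp1 : 1 ≤ Real.exp y := Real.one_le_exp hy0
  obtain ⟨X, hX⟩ : ∃ X, X = ⌊Real.exp y⌋₊ := ⟨_, rfl⟩
  have hX1 : 1 ≤ X := by
    rw [hX]
    exact Nat.le_floor (by simpa using hexp1)
  have hX1' : (1 : ℝ) ≤ X := by exact_mod_cast hX1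
  have hXe : (X : ℝ) ≤ Real.exp y := by
    rw [hX]
    exact Nat.floor_le (Real.exp_pos y).le
  have hXe2 : Real.exp y / 2 ≤ (X : ℝ) := by
    have h5 : Real.exp y < X + 1 := by
      rw [hX]
      exact Nat.lt_floor_add_one _
    linarith
  have hlog : Real.log X ≤ y := by
    have := Real.log_le_log (by linarith) hXe
    rwa [Real.log_exp] at this
  have h5 : c * Real.log X ≤ T0 := (mul_le_mul_of_nonneg_left hlog hc.le).trans h3
  obtain ⟨S, hS⟩ : ∃ S, S = (oddS (Real.exp y)).filter (fun n => ∀ k ≤ T0, N < col^[k] n) :=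
    ⟨_, rfl⟩
  have hSP := h N X T0 hN hX1 h5 h4 S (by
    intro n hn
    rw [hS, mem_filter] at hn
    have h6 := hn.1
    unfold oddS at h6
    rw [mem_filter, mem_Icc] at h6
    exact ⟨h6.1.1, by rw [hX]; exact h6.1.2, hn.2⟩)
  have hDD : DD 0 (pT N T0) y = (S.card : ℝ) / Real.exp y := by
    unfold DD
    rw [pd1_NN]
    congr 1
    rw [hS, card_filter]
    push_cast
    refine Finset.sum_congr rfl fun n _ => ?_
    unfold pT
    by_cases h6 : ∀ k ≤ T0, N < col^[k] n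
    · simp only [if_pos h6]
    · simp only [if_neg h6]
  refine (pd1_mono h1 y).trans ?_
  rw [hDD, div_le_iff₀ (Real.exp_pos y)]
  refine hSP.trans ?_
  have hNd : 0 ≤ (N : ℝ) ^ (-d) := by positivity
  have h2dl : (1 : ℝ) ≤ 2 ^ dl := Real.one_le_rpow (by norm_num) hdl.le
  have hXdl : (X : ℝ) ^ (-dl) ≤ 2 ^ dl * Real.exp (-(dl * y)) := by
    have e1 : (X : ℝ) ^ (-dl) ≤ (Real.exp y / 2) ^ (-dl) :=
      Real.rpow_le_rpow_of_nonpos (by positivity) hXe2 (by linarith)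
    have e2 : (Real.exp y / 2) ^ (-dl) = 2 ^ dl * Real.exp (-(dl * y)) := by
      rw [Real.div_rpow (Real.exp_pos y).le (by norm_num), ← Real.exp_mul,
        Real.rpow_neg (by norm_num : (0 : ℝ) ≤ 2), div_inv_eq_mul, mul_comm]
      congr 2
      ring
    exact e1.trans e2.le
  have h6 : (N : ℝ) ^ (-d) + (X : ℝ) ^ (-dl) ≤
      2 ^ dl * ((N : ℝ) ^ (-d) + Real.exp (-(dl * y))) := by
    have : (N : ℝ) ^ (-d) * 1 ≤ (N : ℝ) ^ (-d) * 2 ^ dl := mul_le_mul_of_nonneg_left h2dl hNd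
    linarith
  have h7 : ((T0 : ℝ) + 1) ^ 3 ≤ ((c + 2) * (y + 1)) ^ 3 :=
    pow_le_pow_left₀ (by positivity) (by nlinarith) 3
  have hE : 0 < Real.exp (-(dl * y)) := Real.exp_pos _
  calc C * ((T0 : ℝ) + 1) ^ 3 * ((N : ℝ) ^ (-d) + (X : ℝ) ^ (-dl)) * X
      ≤ C * ((c + 2) * (y + 1)) ^ 3 *
          (2 ^ dl * ((N : ℝ) ^ (-d) + Real.exp (-(dl * y)))) * Real.exp y := by gcongr
    _ = C * (c + 2) ^ 3 * 2 ^ dl * (y + 1) ^ 3 *
          ((N : ℝ) ^ (-d) + Real.exp (-(dl * y))) * Real.exp y := by ring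

end Pool.Agent.Lib.MP_e43fce_ps
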