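import Pool.Agent.Lib.MP_e43fce_nt_nat.Words
import Pool.Agent.Lib.MP_e43fce_nt_bt.Count

/-! PS: definitions for the power saving form of Tao's theorem (text: PS_TEXT.md). -/

set_option autoImplicit false

namespace Pool.Agent.Lib.MP_e43fce_ps

open Pool.Agent.Lib.MP_e43fce_nt_nat (col)

/-- number of odd terms among `n, col n, ..., col^(t-1) n` -/
def oc : ℕ → ℕ → ℕ
  | 0, _ => 0
  | t + 1, n => oc t n + col^[t] n % 2

/-- `m` is `c`-bad: its orbit never falls at the rate `1 / c` -/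
def IsBad (c : ℝ) (m : ℕ) : Prop :=
  ∀ k : ℕ, 1 ≤ k → (m : ℝ) < (col^[k] m : ℝ) * Real.exp (k / c)

/-- `n` hits `m` within `T` steps, and `m` is a record minimum of the orbit at that time -/
def Hits (T m n : ℕ) : Prop := ∃ t ≤ T, col^[t] n = m ∧ ∀ i < t, m ≤ col^[i] n

/-- the `c`-bad numbers have exponent `q` in dyadic blocks -/
def Blk (c q : ℝ) : Prop := ∃ t : ℝ, 0 < t ∧ ∀ j : ℕ, ∀ S : Finset ℕ,
  (∀ m ∈ S, 2 ^ j ≤ m ∧ m < 2 ^ (j + 1) ∧ IsBad c m) → (S.card : ℝ) ≤ t * q ^ j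

/-- the reciprocals of the `c`-bad numbers above `N` -/
def Sparse (c d : ℝ) : Prop := ∃ C : ℝ, 0 < C ∧ ∀ N : ℕ, 1 ≤ N → ∀ S : Finset ℕ,
  (∀ m ∈ S, N < m ∧ IsBad c m) → ∑ m ∈ S, (1 : ℝ) / m ≤ C * (N : ℝ) ^ (-d)

end Pool.Agent.Lib.MP_e43fce_ps
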