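import Pool.Agent.Lib.MP_e43fce_nt_nat.Words
import Mathlib

/-! QA (75 minutes): a polynomial bound for the total stopping time gives `l(n) <= n` outside a power saving set.
`hP` is Theorem P (ii) with exponent `1/21` (number of steps `c1 log X + 1`, `c1 > 0`).
PROOF. Put `th = 1 - 1/(22A)`, so `21/22 <= th < 1`.  We may enlarge `K` to `K >= 1`.
Let `R = floor((X^th/(4K))^(1/A))`.  Let `X >= X0` (`X0` depends on `A, K, c1`), so that `R >= 1`,
`R >= (1/2) (X^th/(4K))^(1/A)` and `c1 log X + 1 <= (1/2) X^th`.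
Let `n` be in `S`, `n > X^th`, and suppose `col^[k] n <= R` for some `k <= c1 log X + 1`; `m = col^[k] n >= 1`.
By hypothesis `col^[k'] m = 1` for some `k' <= K m^A <= K R^A <= X^th/4`.  So `col^[k'+k] n = 1` with
`k' + k <= X^th/4 + X^th/2 < n`: contradiction.  So all `n` in `S` with `n > X^th` belong to the set of `hP` for `N = R`:
`card S <= X^th + C R^(-1/21) X`, and `R^(-1/21) <= C' X^(-th/(21A))`, `th/(21A) >= (21/22)/(21A) = 1/(22A)`.
So `card S <= (1 + C C') X^(1 - 1/(22A))`.  For `X < X0`: `card S <= X <= X0 X^(1 - 1/(22A))`. -/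

set_option autoImplicit false

namespace Pool.Agent.Lib.MP_e43fce_ps

open Finset
open Pool.Agent.Lib.MP_e43fce_nt_nat (col)

private theorem qa_pos (n : ℕ) (hn : 1 ≤ n) (k : ℕ) : 1 ≤ col^[k] n := by
  induction k with
  | zero => exact hn
  | succ k ih =>
    rw [Function.iterate_succ_apply']
    generalize col^[k] n = v at ih
    unfold col
    split_ifs with h <;> omega

private theorem qa_card (S : Finset ℕ) (y : ℝ) (hy : 0 ≤ y) (hS : ∀ n ∈ S, 1 ≤ n ∧ (n : ℝ) ≤ y) :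
    (S.card : ℝ) ≤ y := by
  have h1 : S ⊆ Icc 1 ⌊y⌋₊ := fun n hn => mem_Icc.2 ⟨(hS n hn).1, Nat.le_floor (hS n hn).2⟩
  have h2 := card_le_card h1
  rw [Nat.card_Icc, Nat.add_sub_cancel] at h2
  calc (S.card : ℝ) ≤ (⌊y⌋₊ : ℝ) := by exact_mod_cast h2
    _ ≤ y := Nat.floor_le hy

private theorem qa_large {c1 θ K : ℝ} (hθ : 0 < θ) : ∃ X0 : ℝ, 0 ≤ X0 ∧ ∀ x : ℝ, X0 ≤ x →
    c1 * Real.log x + 1 ≤ x ^ θ / 2 ∧ 4 * K ≤ x ^ θ := by
  have h1 : Filter.Tendsto (fun x : ℝ => x ^ θ) Filter.atTop Filter.atTop := tendsto_rpow_atTop hθ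
  have h2 := (isLittleO_log_rpow_atTop hθ).def (c := 1 / (4 * (|c1| + 1))) (by positivity)
  have h3 := h1.eventually (Filter.eventually_ge_atTop (max 4 (4 * K)))
  obtain ⟨X1, hX1⟩ := Filter.eventually_atTop.1 ((h2.and h3).and (Filter.eventually_ge_atTop (1 : ℝ)))
  refine ⟨max X1 0, le_max_right _ _, fun x hx => ?_⟩
  obtain ⟨⟨h4, h5⟩, h6⟩ := hX1 x ((le_max_left _ _).trans hx)
  refine ⟨?_, (le_max_right _ _).trans h5⟩
  have h7 : 4 ≤ x ^ θ := (le_max_left _ _).trans h5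
  have h8 : 0 ≤ Real.log x := Real.log_nonneg h6
  have h11 : ‖x ^ θ‖ = x ^ θ := by rw [Real.norm_eq_abs, abs_of_nonneg (by linarith)]
  have h12 : ‖Real.log x‖ = Real.log x := by rw [Real.norm_eq_abs, abs_of_nonneg h8]
  rw [h11, h12] at h4
  have h9 : (|c1| + 1) * Real.log x ≤ x ^ θ / 4 := by
    calc (|c1| + 1) * Real.log x ≤ (|c1| + 1) * (1 / (4 * (|c1| + 1)) * x ^ θ) :=
          mul_le_mul_of_nonneg_left h4 (by positivity)
      _ = x ^ θ / 4 := by field_simp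
  have h10 : c1 * Real.log x ≤ (|c1| + 1) * Real.log x :=
    mul_le_mul_of_nonneg_right (by linarith [le_abs_self c1]) h8
  linarith

theorem qa_poly {c1 C : ℝ} (hc1 : 0 < c1) (hC : 0 < C)
    (hP : ∀ N X : ℕ, 1 ≤ N → 1 ≤ X → ∀ S : Finset ℕ, (∀ n ∈ S, 1 ≤ n ∧ n ≤ X ∧
      ∀ k : ℕ, (k : ℝ) ≤ c1 * Real.log X + 1 → N < col^[k] n) →
        (S.card : ℝ) ≤ C * (N : ℝ) ^ (-(1 / 21) : ℝ) * X)
    {A : ℝ} (hA : 1 ≤ A) {K : ℝ}
    (hK : ∀ n : ℕ, 1 ≤ n → ∃ k : ℕ, (k : ℝ) ≤ K * (n : ℝ) ^ A ∧ col^[k] n = 1) :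
    ∃ K' : ℝ, 0 < K' ∧ ∀ X : ℕ, 1 ≤ X → ∀ S : Finset ℕ,
      (∀ n ∈ S, 1 ≤ n ∧ n ≤ X ∧ ∀ k ≤ n, col^[k] n ≠ 1) →
        (S.card : ℝ) ≤ K' * (X : ℝ) ^ (1 - 1 / (22 * A)) := by
  have hA0 : 0 < A := by linarith
  set θ : ℝ := 1 - 1 / (22 * A) with hθ
  have hθ1 : 21 / 22 ≤ θ := by
    have h1 : 1 / (22 * A) ≤ 1 / 22 := by
      apply div_le_div_of_nonneg_left (by norm_num) (by norm_num)
      linarith
    linarith
  have hθ0 : 0 < θ := by linarith
  set K1 : ℝ := max K 1 with hK1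
  have hK11 : 1 ≤ K1 := le_max_right _ _
  have hKK : K ≤ K1 := le_max_left _ _
  have hK10 : 0 < K1 := by linarith
  obtain ⟨X0, hX0, hlarge⟩ := qa_large (c1 := c1) (K := K1) hθ0
  set C' : ℝ := (1 / 2 * (1 / (4 * K1)) ^ (1 / A)) ^ (-(1 / 21) : ℝ) with hC'
  have hC'0 : 0 < C' := by rw [hC']; positivity
  refine ⟨1 + C * C' + X0, by positivity, fun X hX S hS => ?_⟩
  have hx1 : (1 : ℝ) ≤ X := by exact_mod_cast hX
  have hx0 : (0 : ℝ) < X := by linarith
  have hy1 : 1 ≤ (X : ℝ) ^ θ := Real.one_le_rpow hx1 hθ0.le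
  have hy0 : 0 < (X : ℝ) ^ θ := by linarith
  by_cases hXX : (X : ℝ) < X0
  · have h1 : (S.card : ℝ) ≤ X := qa_card S X hx0.le fun n hn =>
      ⟨(hS n hn).1, by exact_mod_cast (hS n hn).2.1⟩
    have h2 : 0 < C * C' := mul_pos hC hC'0
    nlinarith
  · push Not at hXX
    obtain ⟨hL1, hL2⟩ := hlarge X hXX
    set y : ℝ := (X : ℝ) ^ θ with hy
    set r : ℝ := (y / (4 * K1)) ^ (1 / A) with hr
    have hr1 : 1 ≤ r := by
      refine Real.one_le_rpow ?_ (by positivity)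
      rw [le_div_iff₀ (by positivity)]
      linarith
    have hrA : r ^ A = y / (4 * K1) := by
      rw [hr, ← Real.rpow_mul (by positivity), one_div, inv_mul_cancel₀ hA0.ne', Real.rpow_one]
    set R : ℕ := ⌊r⌋₊ with hR
    have hR1 : 1 ≤ R := Nat.le_floor (by simpa using hr1)
    have hRr : (R : ℝ) ≤ r := Nat.floor_le (by linarith)
    have hRr2 : r / 2 ≤ R := by
      have h1 : r < R + 1 := Nat.lt_floor_add_one r
      have h2 : (1 : ℝ) ≤ R := by exact_mod_cast hR1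
      linarith
    -- the small ones
    have hsmall : ((S.filter (fun n : ℕ => (n : ℝ) ≤ y)).card : ℝ) ≤ y := by
      refine qa_card _ _ hy0.le fun n hn => ?_
      rw [mem_filter] at hn
      exact ⟨(hS n hn.1).1, hn.2⟩
    -- the large ones
    have hbig : ((S.filter (fun n : ℕ => ¬ (n : ℝ) ≤ y)).card : ℝ) ≤
        C * (R : ℝ) ^ (-(1 / 21) : ℝ) * X := by
      refine hP R X hR1 hX _ fun n hn => ?_
      rw [mem_filter, not_le] at hn
      obtain ⟨hnS, hny⟩ := hn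
      obtain ⟨hn1, hnX, hn2⟩ := hS n hnS
      refine ⟨hn1, hnX, fun k hk => ?_⟩
      by_contra hcon
      push Not at hcon
      obtain ⟨k', hk', hk1⟩ := hK (col^[k] n) (qa_pos n hn1 k)
      have h1 : (k' : ℝ) ≤ y / 4 := by
        have h2 : ((col^[k] n : ℕ) : ℝ) ^ A ≤ r ^ A := by
          refine Real.rpow_le_rpow (Nat.cast_nonneg _) ?_ hA0.le
          exact le_trans (by exact_mod_cast hcon) hRr
        calc (k' : ℝ) ≤ K * ((col^[k] n : ℕ) : ℝ) ^ A := hk'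
          _ ≤ K1 * ((col^[k] n : ℕ) : ℝ) ^ A :=
              mul_le_mul_of_nonneg_right hKK (by positivity)
          _ ≤ K1 * r ^ A := mul_le_mul_of_nonneg_left h2 hK10.le
          _ = y / 4 := by
              rw [hrA]
              field_simp
      have h2 : k' + k ≤ n := by
        have h3 : ((k' + k : ℕ) : ℝ) ≤ n := by
          push_cast
          linarith
        exact_mod_cast h3
      refine hn2 (k' + k) h2 ?_
      rw [Function.iterate_add_apply]
      exact hk1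
    have hRpow : (R : ℝ) ^ (-(1 / 21) : ℝ) ≤ C' * (X : ℝ) ^ (-(1 / (22 * A))) := by
      have h1 : r / 2 = (1 / 2 * (1 / (4 * K1)) ^ (1 / A)) * y ^ (1 / A) := by
        rw [hr, div_eq_mul_one_div y, Real.mul_rpow hy0.le (by positivity)]
        ring
      calc (R : ℝ) ^ (-(1 / 21) : ℝ) ≤ (r / 2) ^ (-(1 / 21) : ℝ) :=
            Real.rpow_le_rpow_of_nonpos (by linarith) hRr2 (by norm_num)
        _ = C' * (y ^ (1 / A)) ^ (-(1 / 21) : ℝ) := by
            rw [h1, Real.mul_rpow (by positivity) (by positivity)]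
        _ ≤ C' * (X : ℝ) ^ (-(1 / (22 * A))) := by
            refine mul_le_mul_of_nonneg_left ?_ hC'0.le
            rw [hy, ← Real.rpow_mul hx0.le, ← Real.rpow_mul hx0.le]
            refine Real.rpow_le_rpow_of_exponent_le hx1 ?_
            have h2 : θ * (1 / A) * -(1 / 21) = -(θ / 21 / A) := by ring
            have h3 : -(1 / (22 * A)) = -((1 / 22) / A) := by
              field_simp
            rw [h2, h3, neg_le_neg_iff]
            exact div_le_div_of_nonneg_right (by linarith) hA0.le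
    have hXθ : (X : ℝ) ^ (-(1 / (22 * A))) * X = y := by
      have h1 : (X : ℝ) ^ (-(1 / (22 * A))) * X = (X : ℝ) ^ (-(1 / (22 * A))) * (X : ℝ) ^ (1 : ℝ) := by
        rw [Real.rpow_one]
      rw [h1, ← Real.rpow_add hx0, hy, hθ]
      congr 1
      ring
    have hsum : (S.card : ℝ) = ((S.filter (fun n : ℕ => (n : ℝ) ≤ y)).card : ℝ) +
        ((S.filter (fun n : ℕ => ¬ (n : ℝ) ≤ y)).card : ℝ) := by
      rw [← Nat.cast_add, Finset.card_filter_add_card_filter_not (s := S) (fun n : ℕ => (n : ℝ) ≤ y)]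
    rw [hsum]
    have h5 : C * (R : ℝ) ^ (-(1 / 21) : ℝ) * X ≤ C * C' * y := by
      calc C * (R : ℝ) ^ (-(1 / 21) : ℝ) * X ≤
            C * (C' * (X : ℝ) ^ (-(1 / (22 * A)))) * X := by
            refine mul_le_mul_of_nonneg_right ?_ hx0.le
            exact mul_le_mul_of_nonneg_left hRpow hC.le
        _ = C * C' * ((X : ℝ) ^ (-(1 / (22 * A))) * X) := by ring
        _ = C * C' * y := by rw [hXθ]
    have h6 : 0 ≤ X0 * y := mul_nonneg hX0 hy0.le
    calc _ ≤ y + C * C' * y := by linarith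
      _ ≤ (1 + C * C' + X0) * y := by nlinarith

end Pool.Agent.Lib.MP_e43fce_ps
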