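import Pool.Agent.Lib.MP_e43fce_nt_nat.Words
import Mathlib

/-! QB (75 minutes): the converse, from the positive density of predecessors (`hdens`).
PROOF. `qb_red`: if `3` does not divide `n` take `a = n`, `k = 0`.  If `3 | n` write `n = 2^i m`, `m` odd, `3 | m`:
`col^[i] n = m`, `col^[i+1] n = 3m+1 =: a`, not divisible by `3`, `a <= 3n+1`, `k = i+1 <= n+1`.
`qb_a`: let `a >= 1` be not divisible by `3`, `L >= 2`, and suppose `col^[k] a <> 1` for all `k <= L`.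
Put `x = L / a` (so `a x <= L < a (x+1)`).  If `x >= x0` and `x >= 1`: at least `c x` of the `n` in `Icc 1 (a x)` have
`col^[j] n = a` for some `j`.  Such an `n` has `col^[k] n <> 1` for all `k <= n`: if `col^[k] n = 1`, `k <= n <= L`, then
either `j <= k` and `col^[k-j] a = 1` with `k - j <= L`, contradiction, or `j > k` and `a = col^[j-k] 1` is `1`, `2` or `4`
and reaches `1` in at most `2 <= L` steps, contradiction.  So `c x <= K (a x)^(1 - 1/A)` (hypothesis, `X = a x >= 1`), so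
`c (a x)^(1/A) <= K a` (multiply by `(ax)^(1/A)`, divide by `x`), `a x <= (K a/c)^A`, `L < a (x+1) <= 2 a x <= 2 (K/c)^A a^A`.
If `x < max x0 1` then `L < a (x0 + 1) <= (x0 + 1) a^A` (`A >= 1`, `a >= 1`).
So `L <= K1 a^A` with `K1 = 2 (K/c)^A + x0 + 1` (`K >= 0` may be assumed).  Hence some `k <= K1 a^A + 3` has `col^[k] a = 1`.
`qb_poly`: combine: `k + (n+1) <= K1 (3n+1)^A + 3 + n + 1 <= (K1 4^A + 5) n^A`. -/

set_option autoImplicit false

namespace Pool.Agent.Lib.MP_e43fce_ps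

open Finset
open Pool.Agent.Lib.MP_e43fce_nt_nat (col)

theorem qb_red (n : ℕ) (hn : 1 ≤ n) : ∃ k a : ℕ, col^[k] n = a ∧ ¬ 3 ∣ a ∧ 1 ≤ a ∧
    a ≤ 3 * n + 1 ∧ k ≤ n + 1 := by
  induction n using Nat.strong_induction_on with
  | _ n ih =>
    by_cases h3 : 3 ∣ n
    · rcases Nat.even_or_odd n with he | ho
      · obtain ⟨m, hm⟩ := he
        have hm1 : 1 ≤ m := by omega
        obtain ⟨k, a, h1, h2, h3', h4, h5⟩ := ih m (by omega) hm1
        refine ⟨k + 1, a, ?_, h2, h3', by omega, by omega⟩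
        have hc : col n = m := by
          unfold col
          rw [if_pos (by omega)]
          omega
        rw [Function.iterate_succ_apply, hc, h1]
      · obtain ⟨m, hm⟩ := ho
        refine ⟨1, 3 * n + 1, ?_, by omega, by omega, le_rfl, by omega⟩
        have hc : col n = 3 * n + 1 := by
          unfold col
          rw [if_neg (by omega)]
        rw [Function.iterate_one, hc]
    · exact ⟨0, n, rfl, h3, hn, by omega, by omega⟩

private theorem qbx_cyc (m : ℕ) : col^[m] 1 = 1 ∨ col^[m] 1 = 4 ∨ col^[m] 1 = 2 := by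
  induction m with
  | zero => left; rfl
  | succ m ih =>
    rw [Function.iterate_succ_apply']
    rcases ih with h | h | h <;> rw [h]
    · right; left; rfl
    · right; right; rfl
    · left; rfl

private theorem qbx_never {a L : ℕ} (hL : 2 ≤ L) (ha : ∀ k ≤ L, col^[k] a ≠ 1) {n j : ℕ} (hn : n ≤ L)
    (hj : col^[j] n = a) : ∀ k ≤ n, col^[k] n ≠ 1 := by
  intro k hk h1
  rcases le_or_gt j k with h | h
  · obtain ⟨d, rfl⟩ := Nat.exists_eq_add_of_le h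
    have h2 : col^[d] a = 1 := by
      rw [← hj, ← Function.iterate_add_apply, add_comm d j]
      exact h1
    exact ha d (by omega) h2
  · obtain ⟨d, rfl⟩ := Nat.exists_eq_add_of_lt h
    have h2 : col^[d + 1] 1 = a := by
      have h0 : col^[d + 1 + k] n = a := by
        rw [show d + 1 + k = k + d + 1 by ring]
        exact hj
      rw [Function.iterate_add_apply, h1] at h0
      exact h0
    rcases qbx_cyc (d + 1) with h3 | h3 | h3
    · exact ha 0 (by omega) (by rw [Function.iterate_zero, id_eq, ← h2, h3])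
    · have h4 : a = 4 := by rw [← h2, h3]
      exact ha 2 (by omega) (by rw [h4]; rfl)
    · have h4 : a = 2 := by rw [← h2, h3]
      exact ha 1 (by omega) (by rw [h4]; rfl)

private theorem qbx_a {c : ℝ} (hc : 0 < c) {x0 : ℕ}
    (hdens : ∀ a : ℕ, ¬ 3 ∣ a → ∀ x : ℕ, x0 ≤ x → ∃ S : Finset ℕ,
      (∀ n ∈ S, 1 ≤ n ∧ n ≤ a * x ∧ ∃ j : ℕ, col^[j] n = a) ∧ c * (x : ℝ) ≤ S.card)
    {A : ℝ} (hA : 1 ≤ A) {K : ℝ} (hK0 : 0 ≤ K)
    (hK : ∀ X : ℕ, 1 ≤ X → ∀ S : Finset ℕ,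
      (∀ n ∈ S, 1 ≤ n ∧ n ≤ X ∧ ∀ k ≤ n, col^[k] n ≠ 1) →
        (S.card : ℝ) ≤ K * (X : ℝ) ^ (1 - 1 / A)) {a : ℕ} (ha1 : 1 ≤ a) (ha3 : ¬ 3 ∣ a) :
    ∃ k : ℕ, (k : ℝ) ≤ (2 * (K / c) ^ A + x0 + 1) * (a : ℝ) ^ A + 3 ∧ col^[k] a = 1 := by
  by_contra hcon
  push Not at hcon
  have hA0 : 0 < A := by linarith
  have ha1' : (1 : ℝ) ≤ a := by exact_mod_cast ha1
  have ha0 : (0 : ℝ) < a := by linarith
  have haA : (a : ℝ) ≤ (a : ℝ) ^ A := by
    calc (a : ℝ) = (a : ℝ) ^ (1 : ℝ) := (Real.rpow_one _).symm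
      _ ≤ (a : ℝ) ^ A := Real.rpow_le_rpow_of_exponent_le ha1' hA
  have hKc : 0 ≤ (K / c) ^ A := Real.rpow_nonneg (div_nonneg hK0 hc.le) _
  have hx0 : (0 : ℝ) ≤ x0 := Nat.cast_nonneg _
  set B : ℝ := (2 * (K / c) ^ A + x0 + 1) * (a : ℝ) ^ A with hB
  have hB0 : 0 ≤ B := by
    rw [hB]
    have : (0 : ℝ) ≤ (a : ℝ) ^ A := by linarith
    positivity
  set L : ℕ := ⌊B + 3⌋₊ with hLdef
  have hL1 : (L : ℝ) ≤ B + 3 := Nat.floor_le (by linarith)
  have hL2 : B + 3 < L + 1 := Nat.lt_floor_add_one _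
  have hL3 : 2 ≤ L := by
    have : (2 : ℝ) < L + 1 := by linarith
    have h2 : (2 : ℕ) < L + 1 := by exact_mod_cast this
    omega
  have hne : ∀ k ≤ L, col^[k] a ≠ 1 := by
    intro k hk
    refine hcon k ?_
    have : (k : ℝ) ≤ L := by exact_mod_cast hk
    linarith
  set x : ℕ := L / a with hx
  have hxa : a * x ≤ L := Nat.mul_div_le L a
  have hxa2 : L < a * (x + 1) := by
    have := Nat.lt_mul_div_succ L (show 0 < a by omega)
    exact this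
  have hxa2' : (L : ℝ) < a * ((x : ℝ) + 1) := by exact_mod_cast hxa2
  by_cases hbig : x0 ≤ x ∧ 1 ≤ x
  · obtain ⟨S, hS1, hS2⟩ := hdens a ha3 x hbig.1
    have hX1 : 1 ≤ a * x := Nat.mul_pos ha1 hbig.2
    have h3 := hK (a * x) hX1 S (fun n hn => by
      obtain ⟨h4, h5, j, hj⟩ := hS1 n hn
      exact ⟨h4, h5, qbx_never hL3 hne (h5.trans hxa) hj⟩)
    set y : ℝ := ((a * x : ℕ) : ℝ) with hy
    have hy' : y = (a : ℝ) * x := by rw [hy]; push_cast; ring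
    have hx1 : (1 : ℝ) ≤ x := by exact_mod_cast hbig.2
    have hy0 : 0 < y := by rw [hy']; positivity
    have hyA : 0 < y ^ (1 / A) := Real.rpow_pos_of_pos hy0 _
    have h4 : c * x ≤ K * y ^ (1 - 1 / A) := hS2.trans h3
    have h5 : y ^ (1 - 1 / A) * y ^ (1 / A) = y := by
      rw [← Real.rpow_add hy0]
      simp
    have h6 : c * x * y ^ (1 / A) ≤ K * y := by
      calc c * x * y ^ (1 / A) ≤ K * y ^ (1 - 1 / A) * y ^ (1 / A) := mul_le_mul_of_nonneg_right h4 hyA.le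
        _ = K * y := by rw [mul_assoc, h5]
    have h7 : y ^ (1 / A) ≤ K / c * a := by
      rw [div_mul_eq_mul_div, le_div_iff₀ hc]
      have hxp : (0 : ℝ) < x := by linarith
      rw [hy'] at h6 ⊢
      have : x * (((a : ℝ) * x) ^ (1 / A) * c) ≤ x * (K * a) := by linarith
      exact le_of_mul_le_mul_left this hxp
    have h8 : y ≤ (K / c) ^ A * (a : ℝ) ^ A := by
      rw [← Real.mul_rpow (div_nonneg hK0 hc.le) ha0.le]
      calc y = (y ^ (1 / A)) ^ A := by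
            rw [← Real.rpow_mul hy0.le, one_div_mul_cancel hA0.ne', Real.rpow_one]
        _ ≤ (K / c * a) ^ A := Real.rpow_le_rpow hyA.le h7 hA0.le
    have h9 : (L : ℝ) ≤ 2 * y := by
      rw [hy']
      nlinarith
    have h10 : 2 * ((K / c) ^ A * (a : ℝ) ^ A) ≤ B := by
      rw [hB]
      have : (0 : ℝ) ≤ ((x0 : ℝ) + 1) * (a : ℝ) ^ A := by positivity
      nlinarith
    linarith
  · have h3 : (x : ℝ) + 1 ≤ x0 + 1 := by
      have : x + 1 ≤ x0 + 1 := by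
        rw [not_and_or] at hbig
        omega
      exact_mod_cast this
    have h4 : (L : ℝ) ≤ (x0 + 1) * (a : ℝ) ^ A := by
      calc (L : ℝ) ≤ a * ((x : ℝ) + 1) := hxa2'.le
        _ ≤ a * ((x0 : ℝ) + 1) := mul_le_mul_of_nonneg_left h3 ha0.le
        _ = (x0 + 1) * a := by ring
        _ ≤ (x0 + 1) * (a : ℝ) ^ A := mul_le_mul_of_nonneg_left haA (by positivity)
    have h5 : ((x0 : ℝ) + 1) * (a : ℝ) ^ A ≤ B := by
      rw [hB]
      have : (0 : ℝ) ≤ 2 * (K / c) ^ A * (a : ℝ) ^ A := by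
        have : (0 : ℝ) ≤ (a : ℝ) ^ A := by linarith
        positivity
      nlinarith
    linarith

theorem qb_poly {c : ℝ} (hc : 0 < c) {x0 : ℕ}
    (hdens : ∀ a : ℕ, ¬ 3 ∣ a → ∀ x : ℕ, x0 ≤ x → ∃ S : Finset ℕ,
      (∀ n ∈ S, 1 ≤ n ∧ n ≤ a * x ∧ ∃ j : ℕ, col^[j] n = a) ∧ c * (x : ℝ) ≤ S.card)
    {A : ℝ} (hA : 1 ≤ A) {K : ℝ}
    (hK : ∀ X : ℕ, 1 ≤ X → ∀ S : Finset ℕ,
      (∀ n ∈ S, 1 ≤ n ∧ n ≤ X ∧ ∀ k ≤ n, col^[k] n ≠ 1) →
        (S.card : ℝ) ≤ K * (X : ℝ) ^ (1 - 1 / A)) :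
    ∃ K' : ℝ, ∀ n : ℕ, 1 ≤ n → ∃ k : ℕ, (k : ℝ) ≤ K' * (n : ℝ) ^ A ∧ col^[k] n = 1 := by
  have hK' : ∀ X : ℕ, 1 ≤ X → ∀ S : Finset ℕ,
      (∀ n ∈ S, 1 ≤ n ∧ n ≤ X ∧ ∀ k ≤ n, col^[k] n ≠ 1) →
        (S.card : ℝ) ≤ max K 0 * (X : ℝ) ^ (1 - 1 / A) := by
    intro X hX S hS
    refine (hK X hX S hS).trans (mul_le_mul_of_nonneg_right (le_max_left _ _) ?_)
    exact Real.rpow_nonneg (Nat.cast_nonneg _) _
  have hA0 : 0 < A := by linarith
  set K1 : ℝ := 2 * (max K 0 / c) ^ A + x0 + 1 with hK1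
  have hK10 : 0 ≤ K1 := by
    have : 0 ≤ (max K 0 / c) ^ A := Real.rpow_nonneg (div_nonneg (le_max_right _ _) hc.le) _
    have : (0 : ℝ) ≤ x0 := Nat.cast_nonneg _
    rw [hK1]
    linarith
  refine ⟨K1 * 4 ^ A + 5, fun n hn => ?_⟩
  obtain ⟨k0, a, h1, h2, h3, h4, h5⟩ := qb_red n hn
  obtain ⟨k1, h6, h7⟩ := qbx_a hc hdens hA (le_max_right K 0) hK' h3 h2
  refine ⟨k1 + k0, ?_, by rw [Function.iterate_add_apply, h1, h7]⟩
  have hn1 : (1 : ℝ) ≤ n := by exact_mod_cast hn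
  have hnA : (n : ℝ) ≤ (n : ℝ) ^ A := by
    calc (n : ℝ) = (n : ℝ) ^ (1 : ℝ) := (Real.rpow_one _).symm
      _ ≤ (n : ℝ) ^ A := Real.rpow_le_rpow_of_exponent_le hn1 hA
  have ha4 : (a : ℝ) ≤ 4 * n := by
    have : a ≤ 4 * n := by omega
    exact_mod_cast this
  have haA : (a : ℝ) ^ A ≤ 4 ^ A * (n : ℝ) ^ A := by
    rw [← Real.mul_rpow (by norm_num) (by linarith)]
    exact Real.rpow_le_rpow (Nat.cast_nonneg _) ha4 hA0.le
  have h8 : (k0 : ℝ) ≤ n + 1 := by exact_mod_cast h5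
  have h9 : K1 * (a : ℝ) ^ A ≤ K1 * (4 ^ A * (n : ℝ) ^ A) := mul_le_mul_of_nonneg_left haA hK10
  push_cast
  nlinarith

end Pool.Agent.Lib.MP_e43fce_ps
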