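import Pool.Agent.Lib.MP_e43fce_ps.QT1

/-! QC: a polynomial bound for `l` implies the predicted size `l(n) <= (3/log(4/3) + eps) log X` outside a set with a
logarithmic rate. `hP` is Theorem P (i). -/

set_option autoImplicit false

namespace Pool.Agent.Lib.MP_e43fce_ps

open Finset
open Pool.Agent.Lib.MP_e43fce_nt_nat (col)

/-- powers beat powers of the logarithm -/
theorem qc_log {dl g : ℝ} (hdl : 0 < dl) (hg : 0 < g) : ∃ C : ℝ, 0 < C ∧ ∀ X : ℕ, 1 ≤ X →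
    (X : ℝ) ^ (-dl) ≤ C * (1 + Real.log X) ^ (-g) := by
  have hr : 0 < dl / g := by positivity
  refine ⟨(1 + g / dl) ^ g, by positivity, fun X hX => ?_⟩
  have hX1 : (1 : ℝ) ≤ X := by exact_mod_cast hX
  have hX0 : (0 : ℝ) < X := by linarith
  have hlog : 0 ≤ Real.log X := Real.log_nonneg hX1
  have h1 : Real.log X ≤ (X : ℝ) ^ (dl / g) / (dl / g) := Real.log_le_rpow_div hX0.le hr
  have h2 : (1 : ℝ) ≤ (X : ℝ) ^ (dl / g) := Real.one_le_rpow hX1 hr.le
  have h3 : 1 + Real.log X ≤ (1 + g / dl) * (X : ℝ) ^ (dl / g) := by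
    have : (X : ℝ) ^ (dl / g) / (dl / g) = g / dl * (X : ℝ) ^ (dl / g) := by
      field_simp
    rw [this] at h1
    linarith
  have h4 : (1 + Real.log X) ^ g ≤ (1 + g / dl) ^ g * (X : ℝ) ^ dl := by
    calc (1 + Real.log X) ^ g ≤ ((1 + g / dl) * (X : ℝ) ^ (dl / g)) ^ g :=
          Real.rpow_le_rpow (by linarith) h3 hg.le
      _ = (1 + g / dl) ^ g * ((X : ℝ) ^ (dl / g)) ^ g :=
          Real.mul_rpow (by positivity) (by positivity)
      _ = (1 + g / dl) ^ g * (X : ℝ) ^ dl := by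
          rw [← Real.rpow_mul hX0.le]
          congr 2
          field_simp
  have h5 : 0 < (1 + Real.log X) ^ g := by positivity
  have h6 : 0 < (X : ℝ) ^ dl := by positivity
  rw [Real.rpow_neg hX0.le, Real.rpow_neg (by linarith), ← div_eq_mul_inv, inv_eq_one_div,
    div_le_div_iff₀ h6 h5]
  linarith

theorem qc_sharp {c1 e1 C dl : ℝ} (hC : 0 < C) (he1 : 0 < e1) (hdl : 0 < dl)
    (hP : ∀ N X : ℕ, 1 ≤ N → 1 ≤ X → ∀ S : Finset ℕ, (∀ n ∈ S, 1 ≤ n ∧ n ≤ X ∧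
      ∀ k : ℕ, (k : ℝ) ≤ c1 * Real.log X + 1 → N < col^[k] n) →
        (S.card : ℝ) ≤ C * ((N : ℝ) ^ (-(1 / 21) : ℝ) + (X : ℝ) ^ (-dl)) * X)
    {κ : ℝ} (hκ : 0 < κ) {K : ℝ}
    (hK : ∀ n : ℕ, 1 ≤ n → ∃ k : ℕ, (k : ℝ) ≤ K * (n : ℝ) ^ κ ∧ col^[k] n = 1) :
    ∃ K' : ℝ, 0 < K' ∧ ∀ X : ℕ, 1 ≤ X → ∀ S : Finset ℕ,
      (∀ n ∈ S, 1 ≤ n ∧ n ≤ X ∧ ∀ k : ℕ, (k : ℝ) ≤ (c1 + e1) * Real.log X + K' →
        col^[k] n ≠ 1) →
        (S.card : ℝ) ≤ K' * (1 + Real.log X) ^ (-(1 / (21 * κ)) : ℝ) * X := by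
  obtain ⟨K0, hK0, hKK0⟩ : ∃ K0 : ℝ, 1 ≤ K0 ∧ K ≤ K0 := ⟨max K 1, le_max_right _ _, le_max_left _ _⟩
  have hK0p : 0 < K0 := by linarith
  obtain ⟨g, hg⟩ : ∃ g : ℝ, g = 1 / (21 * κ) := ⟨_, rfl⟩
  have hgp : 0 < g := by rw [hg]; positivity
  obtain ⟨C1, hC1, hlogpow⟩ := qc_log hdl hgp
  -- `u = e1 / (2 K0)`-scale
  obtain ⟨u, hu⟩ : ∃ u : ℝ, u = e1 / (2 * K0) := ⟨_, rfl⟩
  have hup : 0 < u := by rw [hu]; positivity
  set B1 : ℝ := (1 / 2 : ℝ) ^ (-(1 / 21) : ℝ) * u ^ (-g) with hB1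
  have hB1p : 0 < B1 := by positivity
  set K' : ℝ := C * (B1 + C1) + (1 / u) ^ g + e1 + 2 with hK'
  have h0 : 0 < (1 / u) ^ g := by positivity
  have hCB : 0 < C * (B1 + C1) := by positivity
  have hK'p : 0 < K' := by linarith
  refine ⟨K', hK'p, fun X hX S hS => ?_⟩
  rw [← hg]
  have hX1 : (1 : ℝ) ≤ X := by exact_mod_cast hX
  have hX0 : (0 : ℝ) < X := by linarith
  have hlog : 0 ≤ Real.log X := Real.log_nonneg hX1
  have hL : 0 < (1 + Real.log X) ^ (-g) := by positivity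
  by_cases hbig : 1 ≤ u * (1 + Real.log X)
  · -- `N = floor((u (1 + log X))^(1/κ))`
    obtain ⟨r, hr⟩ : ∃ r : ℝ, r = (u * (1 + Real.log X)) ^ (1 / κ) := ⟨_, rfl⟩
    have hr1 : 1 ≤ r := by
      rw [hr]
      exact Real.one_le_rpow hbig (by positivity)
    obtain ⟨N, hN⟩ : ∃ N : ℕ, N = ⌊r⌋₊ := ⟨_, rfl⟩
    have hN1 : 1 ≤ N := by
      rw [hN]
      exact Nat.le_floor (by simpa using hr1)
    have hNr : (N : ℝ) ≤ r := by
      rw [hN]
      exact Nat.floor_le (by linarith)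
    have hNr2 : 1 / 2 * r ≤ N := by
      have h1 : r < N + 1 := by
        rw [hN]
        exact Nat.lt_floor_add_one r
      have h2 : (1 : ℝ) ≤ N := by exact_mod_cast hN1
      linarith
    have hNk : K0 * (N : ℝ) ^ κ ≤ e1 * Real.log X + e1 := by
      have h1 : (N : ℝ) ^ κ ≤ r ^ κ := Real.rpow_le_rpow (Nat.cast_nonneg N) hNr hκ.le
      have h2 : r ^ κ = u * (1 + Real.log X) := by
        rw [hr, ← Real.rpow_mul (by positivity), one_div_mul_cancel hκ.ne', Real.rpow_one]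
      have h3 : K0 * (N : ℝ) ^ κ ≤ K0 * (u * (1 + Real.log X)) := by
        rw [← h2]
        exact mul_le_mul_of_nonneg_left h1 hK0p.le
      have h4 : K0 * (u * (1 + Real.log X)) = e1 / 2 * (1 + Real.log X) := by
        rw [hu]
        field_simp
      rw [h4] at h3
      nlinarith
    have hcard := hP N X hN1 hX S (by
      intro n hn
      obtain ⟨h1, h2, h3⟩ := hS n hn
      refine ⟨h1, h2, fun k hk => ?_⟩
      by_contra hcon
      push Not at hcon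
      have hm1 : 1 ≤ col^[k] n := qt1_iter_pos h1 k
      obtain ⟨k', hk', hk1⟩ := hK (col^[k] n) hm1
      have h4 : (k' : ℝ) ≤ K0 * (N : ℝ) ^ κ := by
        refine hk'.trans ?_
        have h5 : ((col^[k] n : ℕ) : ℝ) ^ κ ≤ (N : ℝ) ^ κ :=
          Real.rpow_le_rpow (Nat.cast_nonneg _) (by exact_mod_cast hcon) hκ.le
        exact mul_le_mul hKK0 h5 (by positivity) hK0p.le
      refine h3 (k' + k) ?_ (by rw [Function.iterate_add_apply]; exact hk1)
      push_cast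
      have : (c1 + e1) * Real.log X = c1 * Real.log X + e1 * Real.log X := by ring
      rw [this]
      linarith)
    refine hcard.trans ?_
    have hA : (N : ℝ) ^ (-(1 / 21) : ℝ) ≤ B1 * (1 + Real.log X) ^ (-g) := by
      have h1 : (N : ℝ) ^ (-(1 / 21) : ℝ) ≤ (1 / 2 * r) ^ (-(1 / 21) : ℝ) :=
        Real.rpow_le_rpow_of_nonpos (by positivity) hNr2 (by norm_num)
      refine h1.trans (le_of_eq ?_)
      rw [Real.mul_rpow (by norm_num) (by linarith), hr, ← Real.rpow_mul (by positivity),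
        Real.mul_rpow hup.le (by linarith), hB1, hg]
      have e : 1 / κ * (-(1 / 21)) = -(1 / (21 * κ)) := by
        field_simp
      rw [e]
      ring
    have hB := hlogpow X hX
    apply mul_le_mul_of_nonneg_right _ hX0.le
    calc C * ((N : ℝ) ^ (-(1 / 21) : ℝ) + (X : ℝ) ^ (-dl))
        ≤ C * (B1 * (1 + Real.log X) ^ (-g) + C1 * (1 + Real.log X) ^ (-g)) :=
          mul_le_mul_of_nonneg_left (by linarith) hC.le
      _ = C * (B1 + C1) * (1 + Real.log X) ^ (-g) := by ring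
      _ ≤ K' * (1 + Real.log X) ^ (-g) := mul_le_mul_of_nonneg_right (by linarith) hL.le
  · push Not at hbig
    have h1 : (S.card : ℝ) ≤ X := by
      have h2 : S ⊆ Icc 1 X := fun n hn => Finset.mem_Icc.2 ⟨(hS n hn).1, (hS n hn).2.1⟩
      have h3 := Finset.card_le_card h2
      rw [Nat.card_Icc, Nat.add_sub_cancel] at h3
      exact_mod_cast h3
    have h2 : 1 + Real.log X ≤ 1 / u := by
      rw [le_div_iff₀ hup]
      linarith
    have h3 : (1 + Real.log X) ^ g ≤ (1 / u) ^ g := Real.rpow_le_rpow (by linarith) h2 hgp.le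
    have h4 : (1 + Real.log X) ^ g * (1 + Real.log X) ^ (-g) = 1 := by
      rw [← Real.rpow_add (by linarith), add_neg_cancel, Real.rpow_zero]
    have h5 : 1 ≤ K' * (1 + Real.log X) ^ (-g) := by
      refine h4.symm.le.trans ?_
      apply mul_le_mul_of_nonneg_right _ hL.le
      linarith
    calc (S.card : ℝ) ≤ 1 * X := by linarith
      _ ≤ K' * (1 + Real.log X) ^ (-g) * X := mul_le_mul_of_nonneg_right h5 hX0.le

end Pool.Agent.Lib.MP_e43fce_ps
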