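import Pool.Agent.Lib.MP_e43fce_nt_nat.Words
import Mathlib

/-! QT1: upper bounds for the number of `n ≤ X` with total stopping time above `T`, from the power
saving theorem `hP` (helper80). -/

set_option autoImplicit false

namespace Pool.Agent.Lib.MP_e43fce_ps

open Finset
open Pool.Agent.Lib.MP_e43fce_nt_nat (col)

private theorem qt1_col_pos {n : ℕ} (hn : 1 ≤ n) : 1 ≤ col n := by
  unfold col
  split_ifs with h
  · omega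
  · omega

theorem qt1_iter_pos {n : ℕ} (hn : 1 ≤ n) (k : ℕ) : 1 ≤ col^[k] n := by
  induction k with
  | zero => simpa using hn
  | succ k ih =>
    rw [Function.iterate_succ_apply']
    exact qt1_col_pos ih

/-- if all `m ≤ R` reach `1` within `T` steps, then all but `C R^(-1/21) X` of the `n ≤ X` reach `1`
within `T + c1 log X + 1` steps -/
theorem qt_up {c1 C : ℝ}
    (hP : ∀ N X : ℕ, 1 ≤ N → 1 ≤ X → ∀ S : Finset ℕ, (∀ n ∈ S, 1 ≤ n ∧ n ≤ X ∧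
      ∀ k : ℕ, (k : ℝ) ≤ c1 * Real.log X + 1 → N < col^[k] n) →
        (S.card : ℝ) ≤ C * (N : ℝ) ^ (-(1 / 21) : ℝ) * X)
    {R X : ℕ} (hR : 1 ≤ R) (hX : 1 ≤ X) {T : ℝ}
    (hT : ∀ m : ℕ, 1 ≤ m → m ≤ R → ∃ k : ℕ, (k : ℝ) ≤ T ∧ col^[k] m = 1)
    (S : Finset ℕ) (hS : ∀ n ∈ S, 1 ≤ n ∧ n ≤ X ∧
      ∀ k : ℕ, (k : ℝ) ≤ T + (c1 * Real.log X + 1) → col^[k] n ≠ 1) :
    (S.card : ℝ) ≤ C * (R : ℝ) ^ (-(1 / 21) : ℝ) * X := by
  refine hP R X hR hX S ?_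
  intro n hn
  obtain ⟨h1, h2, h3⟩ := hS n hn
  refine ⟨h1, h2, ?_⟩
  intro k hk
  by_contra hcon
  push Not at hcon
  obtain ⟨k', hk', he⟩ := hT _ (qt1_iter_pos h1 k) hcon
  refine h3 (k' + k) ?_ ?_
  · push_cast
    linarith
  · rw [Function.iterate_add_apply]
    exact he

/-- a pointwise polynomial bound `l(n) ≤ K n^κ` gives the tail bound `T^(-1/(21 κ))` -/
theorem qt_poly {c1 C : ℝ} (hc1 : 0 < c1) (hC : 0 < C)
    (hP : ∀ N X : ℕ, 1 ≤ N → 1 ≤ X → ∀ S : Finset ℕ, (∀ n ∈ S, 1 ≤ n ∧ n ≤ X ∧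
      ∀ k : ℕ, (k : ℝ) ≤ c1 * Real.log X + 1 → N < col^[k] n) →
        (S.card : ℝ) ≤ C * (N : ℝ) ^ (-(1 / 21) : ℝ) * X)
    {κ : ℝ} (hκ : 0 < κ) {K : ℝ}
    (hK : ∀ n : ℕ, 1 ≤ n → ∃ k : ℕ, (k : ℝ) ≤ K * (n : ℝ) ^ κ ∧ col^[k] n = 1) :
    ∃ K' : ℝ, 0 < K' ∧ ∀ X : ℕ, 1 ≤ X → ∀ T : ℝ, K' * (1 + Real.log X) ≤ T → ∀ S : Finset ℕ,
      (∀ n ∈ S, 1 ≤ n ∧ n ≤ X ∧ ∀ k : ℕ, (k : ℝ) ≤ T → col^[k] n ≠ 1) →
        (S.card : ℝ) ≤ K' * T ^ (-(1 / (21 * κ)) : ℝ) * X := by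
  obtain ⟨K0, hK0, hKK0⟩ : ∃ K0 : ℝ, 1 ≤ K0 ∧ K ≤ K0 := ⟨max K 1, le_max_right _ _, le_max_left _ _⟩
  have hK0p : 0 < K0 := by linarith
  set B : ℝ := C * (1 / 2 : ℝ) ^ (-(1 / 21) : ℝ) * (2 * K0) ^ (1 / (21 * κ) : ℝ) with hB
  have hBp : 0 < B := by positivity
  set K' : ℝ := 2 * (c1 + 1) + 2 * K0 + B with hK'
  have hK'p : 0 < K' := by positivity
  refine ⟨K', hK'p, ?_⟩
  intro X hX T hT S hS
  have hX1 : (1 : ℝ) ≤ X := by exact_mod_cast hX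
  have hlog : 0 ≤ Real.log X := Real.log_nonneg hX1
  have hT1 : 2 * (c1 + 1) * (1 + Real.log X) + 2 * K0 ≤ T := by
    have : K' * (1 + Real.log X) = 2 * (c1 + 1) * (1 + Real.log X) + 2 * K0 * (1 + Real.log X)
        + B * (1 + Real.log X) := by rw [hK']; ring
    have h1 : 2 * K0 ≤ 2 * K0 * (1 + Real.log X) := by nlinarith
    have h2 : 0 ≤ B * (1 + Real.log X) := by positivity
    linarith
  have hT2 : 2 * K0 ≤ T := by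
    have : 0 ≤ 2 * (c1 + 1) * (1 + Real.log X) := by positivity
    linarith
  have hTp : 0 < T := by linarith
  have hT3 : c1 * Real.log X + 1 ≤ T / 2 := by nlinarith
  -- the radius
  set y : ℝ := (T / (2 * K0)) ^ (1 / κ) with hy
  have hb1 : 1 ≤ T / (2 * K0) := by
    rw [le_div_iff₀ (by positivity)]
    linarith
  have hy1 : 1 ≤ y := Real.one_le_rpow hb1 (by positivity)
  have hy0 : 0 < y := by linarith
  have hR1 : 1 ≤ ⌊y⌋₊ := by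
    rw [Nat.one_le_floor_iff]
    exact hy1
  have hRy : ((⌊y⌋₊ : ℕ) : ℝ) ≤ y := Nat.floor_le hy0.le
  have hRy2 : y / 2 ≤ ((⌊y⌋₊ : ℕ) : ℝ) := by
    have h1 : y < (⌊y⌋₊ : ℝ) + 1 := Nat.lt_floor_add_one y
    have h2 : (1 : ℝ) ≤ (⌊y⌋₊ : ℝ) := by exact_mod_cast hR1
    linarith
  have key := qt_up hP (R := ⌊y⌋₊) (X := X) hR1 hX (T := T / 2) ?_ S ?_
  · refine key.trans ?_
    have hRp : (0 : ℝ) < (⌊y⌋₊ : ℝ) := by linarith
    have h1 : ((⌊y⌋₊ : ℕ) : ℝ) ^ (-(1 / 21) : ℝ) ≤ (y / 2) ^ (-(1 / 21) : ℝ) :=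
      Real.rpow_le_rpow_of_nonpos (by positivity) hRy2 (by norm_num)
    have h2 : (y / 2) ^ (-(1 / 21) : ℝ) = (1 / 2 : ℝ) ^ (-(1 / 21) : ℝ) * y ^ (-(1 / 21) : ℝ) := by
      rw [show y / 2 = (1 / 2 : ℝ) * y by ring, Real.mul_rpow (by norm_num) hy0.le]
    have h3 : y ^ (-(1 / 21) : ℝ) = (2 * K0) ^ (1 / (21 * κ) : ℝ) * T ^ (-(1 / (21 * κ)) : ℝ) := by
      rw [hy, ← Real.rpow_mul (by positivity), show (1 / κ) * (-(1 / 21) : ℝ) = -(1 / (21 * κ)) by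
        field_simp, Real.div_rpow hTp.le (by positivity), Real.rpow_neg (by positivity : (0:ℝ) ≤ 2 * K0)]
      field_simp
    have h4 : C * ((⌊y⌋₊ : ℕ) : ℝ) ^ (-(1 / 21) : ℝ) ≤ B * T ^ (-(1 / (21 * κ)) : ℝ) := by
      calc C * ((⌊y⌋₊ : ℕ) : ℝ) ^ (-(1 / 21) : ℝ)
          ≤ C * ((1 / 2 : ℝ) ^ (-(1 / 21) : ℝ) * ((2 * K0) ^ (1 / (21 * κ) : ℝ) *
              T ^ (-(1 / (21 * κ)) : ℝ))) := by
            rw [← h3, ← h2]
            exact mul_le_mul_of_nonneg_left h1 hC.le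
        _ = B * T ^ (-(1 / (21 * κ)) : ℝ) := by rw [hB]; ring
    have h5 : B * T ^ (-(1 / (21 * κ)) : ℝ) ≤ K' * T ^ (-(1 / (21 * κ)) : ℝ) := by
      apply mul_le_mul_of_nonneg_right _ (by positivity)
      rw [hK']
      nlinarith
    exact mul_le_mul_of_nonneg_right (h4.trans h5) (by positivity)
  · intro m hm hmR
    obtain ⟨k, hk, he⟩ := hK m hm
    refine ⟨k, hk.trans ?_, he⟩
    have hmy : (m : ℝ) ≤ y := by
      have : (m : ℝ) ≤ (⌊y⌋₊ : ℝ) := by exact_mod_cast hmR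
      linarith
    have h1 : (m : ℝ) ^ κ ≤ T / (2 * K0) := by
      calc (m : ℝ) ^ κ ≤ y ^ κ := Real.rpow_le_rpow (by positivity) hmy hκ.le
        _ = T / (2 * K0) := by
          rw [hy, ← Real.rpow_mul (by positivity), one_div_mul_cancel hκ.ne', Real.rpow_one]
    calc K * (m : ℝ) ^ κ ≤ K0 * (m : ℝ) ^ κ := mul_le_mul_of_nonneg_right hKK0 (by positivity)
      _ ≤ K0 * (T / (2 * K0)) := mul_le_mul_of_nonneg_left h1 hK0p.le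
      _ = T / 2 := by field_simp
  · intro n hn
    obtain ⟨h1, h2, h3⟩ := hS n hn
    exact ⟨h1, h2, fun k hk => h3 k (by linarith)⟩

end Pool.Agent.Lib.MP_e43fce_ps
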