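import Pool.Agent.Lib.MP_e43fce_nt_nat.Words
import Mathlib

/-! QT2: lower bounds for the number of `n ≤ X` with large total stopping time from the positive density
of predecessors `hdens`, and the pointwise bound from an almost-all bound (helper80). -/

set_option autoImplicit false

namespace Pool.Agent.Lib.MP_e43fce_ps

open Finset
open Pool.Agent.Lib.MP_e43fce_nt_nat (col)

private theorem qt2_red_aux : ∀ N m : ℕ, m ≤ N → 1 ≤ m → ∃ k a : ℕ, col^[k] m = a ∧ ¬ 3 ∣ a ∧ 1 ≤ a ∧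
    a ≤ 3 * m + 1 ∧ 2 ^ k ≤ 2 * m := by
  intro N
  induction N with
  | zero => intro m h1 h2; omega
  | succ N ih =>
    intro m hm h1
    by_cases h3 : 3 ∣ m
    · rcases Nat.even_or_odd' m with ⟨t, ht | ht⟩
      · -- even
        obtain ⟨k, a, hk, ha3, ha1, hal, h2k⟩ := ih t (by omega) (by omega)
        refine ⟨k + 1, a, ?_, ha3, ha1, by omega, ?_⟩
        · rw [Function.iterate_succ_apply]
          have : col m = t := by
            unfold col
            rw [if_pos (by omega)]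
            omega
          rw [this]
          exact hk
        · rw [pow_succ]
          omega
      · refine ⟨1, 3 * m + 1, ?_, by omega, by omega, le_rfl, by omega⟩
        rw [Function.iterate_one]
        unfold col
        rw [if_neg (by omega)]
    · exact ⟨0, m, rfl, h3, h1, by omega, by simp; omega⟩

/-- every `m` has an iterate `a` not divisible by `3`, `a ≤ 3m+1`, after `k` steps, `2^k ≤ 2m` -/
theorem qt2_red (m : ℕ) (hm : 1 ≤ m) : ∃ k a : ℕ, col^[k] m = a ∧ ¬ 3 ∣ a ∧ 1 ≤ a ∧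
    a ≤ 3 * m + 1 ∧ 2 ^ k ≤ 2 * m := qt2_red_aux m m le_rfl hm

private theorem qt2_iter_one (k : ℕ) : col^[k] 1 = 1 ∨ col^[k] 1 = 4 ∨ col^[k] 1 = 2 := by
  induction k with
  | zero => left; rfl
  | succ k ih =>
    rw [Function.iterate_succ_apply']
    rcases ih with h | h | h <;> rw [h]
    · right; left; rfl
    · right; right; rfl
    · left; rfl

private theorem qt2_small {a : ℕ} (h : a = 1 ∨ a = 4 ∨ a = 2) : ∃ j ≤ 2, col^[j] a = 1 := by
  rcases h with h | h | h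
  · exact ⟨0, by norm_num, by rw [h]; rfl⟩
  · exact ⟨2, by norm_num, by rw [h]; rfl⟩
  · exact ⟨1, by norm_num, by rw [h]; rfl⟩

/-- an ancestor of `a` does not reach `1` earlier than `a` -/
theorem qt2_anc {a n j : ℕ} (hj : col^[j] n = a) {L : ℝ} (hL : 2 ≤ L)
    (ha : ∀ k : ℕ, (k : ℝ) ≤ L → col^[k] a ≠ 1) : ∀ k : ℕ, (k : ℝ) ≤ L → col^[k] n ≠ 1 := by
  intro k hk he
  rcases le_or_gt j k with hjk | hjk
  · refine ha (k - j) ?_ ?_
    · have : ((k - j : ℕ) : ℝ) ≤ k := by exact_mod_cast Nat.sub_le k j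
      linarith
    · rw [← hj, ← Function.iterate_add_apply, Nat.sub_add_cancel hjk]
      exact he
  · have h1 : a = col^[j - k] 1 := by
      rw [← he, ← Function.iterate_add_apply, Nat.sub_add_cancel hjk.le]
      exact hj.symm
    obtain ⟨i, hi, he2⟩ := qt2_small (a := a) (by rw [h1]; exact qt2_iter_one _)
    refine ha i ?_ he2
    have : (i : ℝ) ≤ 2 := by exact_mod_cast hi
    linarith

/-- **Lower bound.** If `m` does not reach `1` within `L + 1 + log₂ m` steps, then for all `X ≥ C m` at least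
`c X / m` of the `n ≤ X` do not reach `1` within `L` steps. -/
theorem qt_low {c : ℝ} (hc : 0 < c) {x0 : ℕ}
    (hdens : ∀ a : ℕ, ¬ 3 ∣ a → ∀ x : ℕ, x0 ≤ x → ∃ S : Finset ℕ,
      (∀ n ∈ S, 1 ≤ n ∧ n ≤ a * x ∧ ∃ j : ℕ, col^[j] n = a) ∧ c * (x : ℝ) ≤ S.card) :
    ∀ m : ℕ, 1 ≤ m → ∀ L : ℝ, 2 ≤ L →
      (∀ k : ℕ, (k : ℝ) ≤ L + 1 + Real.logb 2 m → col^[k] m ≠ 1) →
      ∀ X : ℕ, 4 * (x0 + 1) * m ≤ X → ∃ S : Finset ℕ,
        (∀ n ∈ S, 1 ≤ n ∧ n ≤ X ∧ ∀ k : ℕ, (k : ℝ) ≤ L → col^[k] n ≠ 1) ∧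
          c / 8 * (X / m) ≤ (S.card : ℝ) := by
  intro m hm L hL hml X hX
  obtain ⟨k0, a, hk0, ha3, ha1, hal, h2k⟩ := qt2_red m hm
  have hmR : (1 : ℝ) ≤ m := by exact_mod_cast hm
  have hk0l : (k0 : ℝ) ≤ 1 + Real.logb 2 m := by
    have h1 : ((2 : ℝ) ^ k0) ≤ 2 * m := by exact_mod_cast h2k
    have h2 : Real.logb 2 ((2 : ℝ) ^ k0) ≤ Real.logb 2 (2 * m) :=
      Real.logb_le_logb_of_le (by norm_num) (by positivity) h1
    rw [Real.logb_pow, Real.logb_self_eq_one (by norm_num), mul_one,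
      Real.logb_mul (by norm_num) (by positivity), Real.logb_self_eq_one (by norm_num)] at h2
    exact h2
  have haL : ∀ k : ℕ, (k : ℝ) ≤ L → col^[k] a ≠ 1 := by
    intro k hk he
    refine hml (k + k0) ?_ ?_
    · push_cast
      linarith
    · rw [Function.iterate_add_apply, hk0]
      exact he
  have ha4 : a ≤ 4 * m := by omega
  have hx : x0 ≤ X / a := by
    rw [Nat.le_div_iff_mul_le (by omega)]
    calc x0 * a ≤ x0 * (4 * m) := Nat.mul_le_mul_left _ ha4
      _ ≤ 4 * (x0 + 1) * m := by nlinarith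
      _ ≤ X := hX
  obtain ⟨S, hS, hcard⟩ := hdens a ha3 (X / a) hx
  refine ⟨S, ?_, ?_⟩
  · intro n hn
    obtain ⟨h1, h2, j, hj⟩ := hS n hn
    exact ⟨h1, h2.trans (Nat.mul_div_le X a), qt2_anc hj hL haL⟩
  · refine le_trans ?_ hcard
    have haX : a ≤ X := by
      calc a ≤ 4 * m := ha4
        _ ≤ 4 * (x0 + 1) * m := by nlinarith
        _ ≤ X := hX
    have h1 : 1 ≤ X / a := by
      rw [Nat.le_div_iff_mul_le (by omega)]
      omega
    have h2 : X < a * (X / a + 1) := by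
      have := Nat.lt_mul_div_succ X (show 0 < a by omega)
      simpa using this
    have h3 : (X : ℝ) < a * ((X / a : ℕ) + 1 : ℝ) := by exact_mod_cast h2
    have h4 : (1 : ℝ) ≤ ((X / a : ℕ) : ℝ) := by exact_mod_cast h1
    have haR : (1 : ℝ) ≤ a := by exact_mod_cast ha1
    have h5 : (X : ℝ) ≤ 2 * a * ((X / a : ℕ) : ℝ) := by nlinarith
    have ha4R : (a : ℝ) ≤ 4 * m := by exact_mod_cast ha4
    have h6 : (X : ℝ) ≤ 8 * m * ((X / a : ℕ) : ℝ) := by nlinarith
    have h7 : (X : ℝ) / m ≤ 8 * ((X / a : ℕ) : ℝ) := by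
      rw [div_le_iff₀ (by positivity)]
      linarith
    nlinarith

/-- **From almost all to all.** If for every `X` all but `K X / (1 + log X)^d` of the `n ≤ X` reach `1` within
`C0 (1 + log X)` steps, then every `n` reaches `1` within `K' n^(1/d)` steps. -/
theorem qt_conv {c : ℝ} (hc : 0 < c) {x0 : ℕ}
    (hdens : ∀ a : ℕ, ¬ 3 ∣ a → ∀ x : ℕ, x0 ≤ x → ∃ S : Finset ℕ,
      (∀ n ∈ S, 1 ≤ n ∧ n ≤ a * x ∧ ∃ j : ℕ, col^[j] n = a) ∧ c * (x : ℝ) ≤ S.card)
    {C0 K d : ℝ} (hC0 : 0 < C0) (hK : 0 < K) (hd : 0 < d)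
    (hA : ∀ X : ℕ, 1 ≤ X → ∀ S : Finset ℕ,
      (∀ n ∈ S, 1 ≤ n ∧ n ≤ X ∧ ∀ k : ℕ, (k : ℝ) ≤ C0 * (1 + Real.log X) → col^[k] n ≠ 1) →
        (S.card : ℝ) ≤ K * (1 + Real.log X) ^ (-d) * X) :
    ∃ K' : ℝ, 0 < K' ∧ ∀ n : ℕ, 1 ≤ n → ∃ k : ℕ, (k : ℝ) ≤ K' * (n : ℝ) ^ (1 / d) ∧ col^[k] n = 1 := by
  -- `log n ≤ d n^(1/d)`
  have hlogb : ∀ n : ℕ, 1 ≤ n → Real.log n ≤ d * (n : ℝ) ^ (1 / d) := by
    intro n hn
    have hn1 : (1 : ℝ) ≤ n := by exact_mod_cast hn
    have h := Real.log_le_rpow_div (x := (n : ℝ)) (by positivity) (ε := 1 / d) (by positivity)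
    calc Real.log n ≤ (n : ℝ) ^ (1 / d) / (1 / d) := h
      _ = d * (n : ℝ) ^ (1 / d) := by rw [div_div_eq_mul_div, div_one, mul_comm]
  set D : ℝ := 4 * (x0 + 1) with hD
  have hDp : 0 < D := by positivity
  set K1 : ℝ := 4 * C0 * (8 * K / c) ^ (1 / d) with hK1
  set K' : ℝ := K1 + 1 + 8 + 2 * (1 + d / Real.log 2) + 2 * C0 * (1 + Real.log (2 * D + 1) + d)
    + 4 * C0 + 8 with hK'
  have hlog2 : 0 < Real.log 2 := Real.log_pos (by norm_num)
  have hK1p : 0 < K1 := by positivity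
  have hlD : 0 ≤ Real.log (2 * D + 1) := Real.log_nonneg (by linarith)
  have hdl : 0 < d / Real.log 2 := by positivity
  have hK'p : 0 < K' := by positivity
  refine ⟨K', hK'p, ?_⟩
  intro m hm
  by_contra hcon
  push Not at hcon
  have hmR : (1 : ℝ) ≤ m := by exact_mod_cast hm
  set Λ : ℝ := K' * (m : ℝ) ^ (1 / d) with hΛ
  have hmd : (1 : ℝ) ≤ (m : ℝ) ^ (1 / d) := Real.one_le_rpow hmR (by positivity)
  set u : ℝ := (m : ℝ) ^ (1 / d) with hu
  have hlm := hlogb m hm
  rw [← hu] at hlm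
  have hΛ8 : 8 + 4 * C0 ≤ Λ := by
    rw [hΛ]
    have : 8 + 4 * C0 ≤ K' := by rw [hK']; nlinarith [mul_pos hC0 hd, mul_nonneg hC0.le hlD]
    nlinarith
  -- choice of `X`
  set w : ℝ := Real.exp (Λ / (2 * C0) - 1) with hw
  have hwbig : 2 * D * m ≤ w := by
    have h1 : Real.log (2 * D * m) ≤ Λ / (2 * C0) - 1 := by
      rw [Real.log_mul (by positivity) (by positivity)]
      have h2 : Real.log (2 * D) ≤ Real.log (2 * D + 1) :=
        Real.log_le_log (by positivity) (by linarith)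
      have h3 : 2 * C0 * (1 + Real.log (2 * D + 1) + d) * u ≤ Λ := by
        rw [hΛ]
        apply mul_le_mul_of_nonneg_right _ (by positivity)
        rw [hK']
        nlinarith
      have h4 : (1 + Real.log (2 * D + 1) + d) * u ≤ Λ / (2 * C0) := by
        rw [le_div_iff₀ (by positivity)]
        linarith
      nlinarith
    calc 2 * D * m = Real.exp (Real.log (2 * D * m)) := (Real.exp_log (by positivity)).symm
      _ ≤ w := Real.exp_le_exp.mpr h1
  have hw1 : 1 ≤ w := by nlinarith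
  set X : ℕ := ⌊w⌋₊ with hX
  have hX1 : 1 ≤ X := by
    rw [hX, Nat.one_le_floor_iff]
    exact hw1
  have hX1R : (1 : ℝ) ≤ X := by exact_mod_cast hX1
  have hXw : (X : ℝ) ≤ w := Nat.floor_le (by linarith)
  have hXw2 : w / 2 ≤ X := by
    have := Nat.lt_floor_add_one w
    rw [← hX] at this
    linarith
  have hXm : 4 * (x0 + 1) * m ≤ X := by
    have : (D * m : ℝ) ≤ X := by nlinarith
    rw [hD] at this
    exact_mod_cast this
  -- the level
  set L : ℝ := C0 * (1 + Real.log X) with hL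
  have hlX : Real.log X ≤ Λ / (2 * C0) - 1 := by
    calc Real.log X ≤ Real.log w := Real.log_le_log (by linarith) hXw
      _ = Λ / (2 * C0) - 1 := by rw [hw, Real.log_exp]
  have hlX2 : Λ / (2 * C0) - 1 - Real.log 2 ≤ Real.log X := by
    calc Λ / (2 * C0) - 1 - Real.log 2 = Real.log (w / 2) := by
          rw [Real.log_div (by positivity) (by norm_num), hw, Real.log_exp]
      _ ≤ Real.log X := Real.log_le_log (by positivity) hXw2
  have hL1 : L ≤ Λ / 2 := by
    calc L ≤ C0 * (1 + (Λ / (2 * C0) - 1)) := by rw [hL]; exact mul_le_mul_of_nonneg_left (by linarith) hC0.le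
      _ = Λ / 2 := by field_simp; ring
  have hlog21 : Real.log 2 < 1 := by
    have := Real.log_two_lt_d9
    linarith
  have hL2 : Λ / 4 ≤ L := by
    have h1 : C0 * (1 + (Λ / (2 * C0) - 1 - Real.log 2)) ≤ L := by
      rw [hL]
      exact mul_le_mul_of_nonneg_left (by linarith) hC0.le
    have h2 : C0 * (1 + (Λ / (2 * C0) - 1 - Real.log 2)) = Λ / 2 - C0 * Real.log 2 := by
      field_simp
      ring
    nlinarith
  have hLtwo : 2 ≤ L := by nlinarith
  have hml : ∀ k : ℕ, (k : ℝ) ≤ L + 1 + Real.logb 2 m → col^[k] m ≠ 1 := by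
    intro k hk
    apply hcon
    have h1 : Real.logb 2 m ≤ d / Real.log 2 * u := by
      rw [Real.logb, div_mul_eq_mul_div]
      exact div_le_div_of_nonneg_right hlm hlog2.le
    have h2 : 2 * (1 + d / Real.log 2) * u ≤ Λ := by
      rw [hΛ]
      apply mul_le_mul_of_nonneg_right _ (by positivity)
      rw [hK']
      nlinarith [mul_pos hC0 hd, mul_nonneg hC0.le hlD]
    have h3 : 1 + Real.logb 2 m ≤ Λ / 2 := by nlinarith
    have h4 : L + 1 + Real.logb 2 m ≤ Λ := by linarith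
    exact hk.trans (by linarith)
  obtain ⟨S, hS, hcard⟩ := qt_low hc hdens m hm L hLtwo hml X hXm
  have hub := hA X hX1 S hS
  -- compare
  have h1 : c / 8 * (X / m) ≤ K * (1 + Real.log X) ^ (-d) * X := hcard.trans hub
  have hXp : (0 : ℝ) < X := by linarith
  have hlp : 0 < 1 + Real.log X := by
    have := Real.log_nonneg hX1R
    linarith
  have h2 : c / 8 / m ≤ K * (1 + Real.log X) ^ (-d) := by
    have : c / 8 / m * X ≤ K * (1 + Real.log X) ^ (-d) * X := by
      calc c / 8 / m * X = c / 8 * (X / m) := by field_simp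
        _ ≤ _ := h1
    exact le_of_mul_le_mul_right this hXp
  have h3 : (1 + Real.log X) ^ d ≤ 8 * K / c * m := by
    rw [Real.rpow_neg hlp.le] at h2
    have hp : 0 < (1 + Real.log X) ^ d := by positivity
    have h4 : c / 8 * (1 + Real.log X) ^ d ≤ K * m := by
      have h5 : c / 8 / m * (m * (1 + Real.log X) ^ d) ≤
          K * ((1 + Real.log X) ^ d)⁻¹ * (m * (1 + Real.log X) ^ d) :=
        mul_le_mul_of_nonneg_right h2 (by positivity)
      calc c / 8 * (1 + Real.log X) ^ d = c / 8 / m * (m * (1 + Real.log X) ^ d) := by field_simp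
        _ ≤ _ := h5
        _ = K * m := by field_simp
    rw [div_mul_eq_mul_div, le_div_iff₀ hc]
    nlinarith
  have h4 : (Λ / (4 * C0)) ^ d ≤ 8 * K / c * m := by
    refine le_trans (Real.rpow_le_rpow (by positivity) ?_ hd.le) h3
    rw [div_le_iff₀ (by positivity)]
    have : Λ / 4 ≤ C0 * (1 + Real.log X) := hL2
    linarith
  have h5 : Λ / (4 * C0) ≤ (8 * K / c) ^ (1 / d) * u := by
    have h6 : ((Λ / (4 * C0)) ^ d) ^ (1 / d) ≤ (8 * K / c * m) ^ (1 / d) :=
      Real.rpow_le_rpow (by positivity) h4 (by positivity)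
    rw [← Real.rpow_mul (by positivity), mul_one_div_cancel hd.ne', Real.rpow_one,
      Real.mul_rpow (by positivity) (by positivity)] at h6
    exact h6
  have h6 : Λ ≤ K1 * u := by
    rw [div_le_iff₀ (by positivity)] at h5
    rw [hK1]
    nlinarith
  have h7 : K1 * u < Λ := by
    rw [hΛ]
    apply mul_lt_mul_of_pos_right _ (by positivity)
    rw [hK']
    nlinarith [mul_pos hC0 hd, mul_nonneg hC0.le hlD]
  linarith

end Pool.Agent.Lib.MP_e43fce_ps
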