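import Pool.Agent.Lib.MP_e43fce_ps.PFin
import Pool.Agent.Lib.MP_e43fce_ps.QA
import Pool.Agent.Lib.MP_e43fce_ps.QB
import Pool.Agent.Lib.MP_e43fce_ps.QT1
import Pool.Agent.Lib.MP_e43fce_ps.QT2
import Pool.Agent.Lib.MP_e43fce_ps.QC
import Pool.Agent.Lib.MP_e43fce_nt_nat.PosDens

/-! QFin: Theorem Q (assembly; helper53). -/

set_option autoImplicit false

namespace Pool.Agent.Lib.MP_e43fce_ps

open Finset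
open Pool.Agent.Lib.MP_e43fce_nt_nat

open Classical in
/-- positive density of the predecessors -/
theorem qfin_dens : ∃ c : ℝ, 0 < c ∧ ∃ x0 : ℕ, ∀ a : ℕ, ¬ 3 ∣ a → ∀ x : ℕ, x0 ≤ x → ∃ S : Finset ℕ,
      (∀ n ∈ S, 1 ≤ n ∧ n ≤ a * x ∧ ∃ j : ℕ, col^[j] n = a) ∧ c * (x : ℝ) ≤ S.card := by
  obtain ⟨c, hc, K0, x0, h⟩ := uniform_density (ε := 1) one_pos
  refine ⟨c, hc, x0, fun a h3 x hx => ⟨_, ?_, h a h3 x hx⟩⟩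
  intro n hn
  unfold Pool.Agent.Lib.MP_e43fce_nt.KL.DG at hn
  rw [mem_filter, mem_Icc] at hn
  obtain ⟨⟨n1, n2⟩, n3, n4, k, n5, -⟩ := hn
  exact ⟨n1, n2, k, n5⟩

/-- a polynomial bound for `l` implies `l(n) <= n` outside a power saving set -/
theorem qfin_a {A : ℝ} (hA : 1 ≤ A) {K : ℝ}
    (hK : ∀ n : ℕ, 1 ≤ n → ∃ k : ℕ, (k : ℝ) ≤ K * (n : ℝ) ^ A ∧ col^[k] n = 1) :
    ∃ K' : ℝ, 0 < K' ∧ ∀ X : ℕ, 1 ≤ X → ∀ S : Finset ℕ,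
      (∀ n ∈ S, 1 ≤ n ∧ n ≤ X ∧ ∀ k ≤ n, col^[k] n ≠ 1) →
        (S.card : ℝ) ≤ K' * (X : ℝ) ^ (1 - 1 / (22 * A)) := by
  obtain ⟨c, C, hc, hC, h⟩ := pfin_twenty (d' := 1 / 21) (by norm_num) (by norm_num)
  exact qa_poly hc hC h hA hK

theorem qfin_b {A : ℝ} (hA : 1 ≤ A) {K : ℝ}
    (hK : ∀ X : ℕ, 1 ≤ X → ∀ S : Finset ℕ,
      (∀ n ∈ S, 1 ≤ n ∧ n ≤ X ∧ ∀ k ≤ n, col^[k] n ≠ 1) →
        (S.card : ℝ) ≤ K * (X : ℝ) ^ (1 - 1 / A)) :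
    ∃ K' : ℝ, ∀ n : ℕ, 1 ≤ n → ∃ k : ℕ, (k : ℝ) ≤ K' * (n : ℝ) ^ A ∧ col^[k] n = 1 := by
  obtain ⟨c, hc, x0, h⟩ := qfin_dens
  exact qb_poly hc h hA hK

/-- a polynomial bound for `l` implies the predicted size of `l` outside a set with a logarithmic
rate -/
theorem qfin_c {ε : ℝ} (hε : 0 < ε) {κ : ℝ} (hκ : 0 < κ) {K : ℝ}
    (hK : ∀ n : ℕ, 1 ≤ n → ∃ k : ℕ, (k : ℝ) ≤ K * (n : ℝ) ^ κ ∧ col^[k] n = 1) :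
    ∃ K' : ℝ, 0 < K' ∧ ∀ X : ℕ, 1 ≤ X → ∀ S : Finset ℕ,
      (∀ n ∈ S, 1 ≤ n ∧ n ≤ X ∧ ∀ k : ℕ, (k : ℝ) ≤ (3 / Real.log (4 / 3) + ε) * Real.log X + K' →
        col^[k] n ≠ 1) →
        (S.card : ℝ) ≤ K' * (1 + Real.log X) ^ (-(1 / (21 * κ)) : ℝ) * X := by
  obtain ⟨dl, C, hdl, hC, h⟩ := pfin_sharp (half_pos hε) (d' := 1 / 21) (by norm_num) (by norm_num)
  have e : 3 / Real.log (4 / 3) + ε / 2 + ε / 2 = 3 / Real.log (4 / 3) + ε := by ring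
  have h1 := qc_sharp (e1 := ε / 2) hC (half_pos hε) hdl h hκ hK
  rwa [e] at h1

/-- and conversely -/
theorem qfin_d {κ : ℝ} (hκ : 0 < κ) {K : ℝ}
    (hK : ∀ X : ℕ, 1 ≤ X → ∀ S : Finset ℕ,
      (∀ n ∈ S, 1 ≤ n ∧ n ≤ X ∧ ∀ k : ℕ, (k : ℝ) ≤ K * (1 + Real.log X) → col^[k] n ≠ 1) →
        (S.card : ℝ) ≤ K * (1 + Real.log X) ^ (-(1 / κ) : ℝ) * X) :
    ∃ K' : ℝ, ∀ n : ℕ, 1 ≤ n → ∃ k : ℕ, (k : ℝ) ≤ K' * (n : ℝ) ^ κ ∧ col^[k] n = 1 := by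
  obtain ⟨c, hc, x0, h⟩ := qfin_dens
  have hm := le_max_left K 1
  have hm1 : 0 < max K 1 := lt_max_of_lt_right one_pos
  obtain ⟨K', hK', h1⟩ := qt_conv hc h (C0 := max K 1) (K := max K 1) (d := 1 / κ) hm1 hm1
    (by positivity) (fun X hX S hS => by
      have hX' : (1 : ℝ) ≤ X := by exact_mod_cast hX
      have hlog := Real.log_nonneg hX'
      refine (hK X hX S (fun n hn => ?_)).trans ?_
      · obtain ⟨h2, h3, h4⟩ := hS n hn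
        exact ⟨h2, h3, fun k hk => h4 k (hk.trans (mul_le_mul_of_nonneg_right hm (by linarith)))⟩
      · apply mul_le_mul_of_nonneg_right _ (Nat.cast_nonneg X)
        apply mul_le_mul_of_nonneg_right hm (by positivity))
  refine ⟨K', fun n hn => ?_⟩
  obtain ⟨k, hk, hk1⟩ := h1 n hn
  refine ⟨k, ?_, hk1⟩
  rwa [one_div_one_div] at hk

end Pool.Agent.Lib.MP_e43fce_ps
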