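import Mathlib

/-! QT3: moments from a tail bound and a law of large numbers (helper80). -/

set_option autoImplicit false

namespace Pool.Agent.Lib.MP_e43fce_ps

open Finset Filter Topology

private theorem qt3_dyadic {B u p : ℝ} (hB : 0 < B) (hp : 0 < p) (hu : B < u) {I : ℕ}
    (hI : u ≤ 2 ^ I * B) :
    u ^ p ≤ ∑ i ∈ range I, if 2 ^ i * B < u then (2 ^ (i + 1) * B) ^ p else 0 := by
  classical
  have hex : ∃ i : ℕ, u ≤ 2 ^ (i + 1) * B := by
    refine ⟨I, hI.trans ?_⟩
    apply mul_le_mul_of_nonneg_right _ hB.le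
    exact pow_le_pow_right₀ (by norm_num) (by omega)
  set i := Nat.find hex with hi
  have hi1 : u ≤ 2 ^ (i + 1) * B := Nat.find_spec hex
  have hi2 : 2 ^ i * B < u := by
    rcases Nat.eq_zero_or_pos i with h0 | h0
    · rw [h0]; simpa using hu
    · by_contra hcon
      push Not at hcon
      have : Nat.find hex ≤ i - 1 := by
        apply Nat.find_min'
        rwa [Nat.sub_add_cancel h0]
      omega
  have hiI : i < I := by
    by_contra hcon
    push Not at hcon
    have : 2 ^ I * B ≤ 2 ^ i * B := by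
      apply mul_le_mul_of_nonneg_right _ hB.le
      exact pow_le_pow_right₀ (by norm_num) hcon
    linarith
  calc u ^ p ≤ (2 ^ (i + 1) * B) ^ p := Real.rpow_le_rpow (by linarith) hi1 hp.le
    _ = if 2 ^ i * B < u then (2 ^ (i + 1) * B) ^ p else 0 := by rw [if_pos hi2]
    _ ≤ _ := by
      apply single_le_sum (f := fun i : ℕ => if 2 ^ i * B < u then (2 ^ (i + 1) * B) ^ p else 0) _
        (mem_range.mpr hiI)
      intro j _
      split_ifs
      · positivity
      · exact le_rfl

/-- the tail of the `p`-th moment -/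
private theorem qt3_tail {l : ℕ → ℝ} {q p K : ℝ} (hp : 0 < p) (hpq : p < q) (hK : 0 < K)
    (hT : ∀ X : ℕ, 1 ≤ X → ∀ T : ℝ, K * (1 + Real.log X) ≤ T →
      ((#{n ∈ Icc 1 X | T < l n} : ℕ) : ℝ) ≤ K * T ^ (-q) * X) :
    ∃ D : ℝ, 0 < D ∧ ∀ X : ℕ, 1 ≤ X → 1 ≤ Real.log X →
      ∑ n ∈ (Icc 1 X).filter (fun n => 2 * K * Real.log X < l n), (l n) ^ p ≤
        D * (Real.log X) ^ (p - q) * X := by
  classical
  set r : ℝ := (2 : ℝ) ^ (p - q) with hr
  have hr0 : 0 < r := by positivity
  have hr1 : r < 1 := Real.rpow_lt_one_of_one_lt_of_neg (by norm_num) (by linarith)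
  refine ⟨K * (2 * K) ^ (p - q) * 2 ^ p * (1 / (1 - r)), ?_, ?_⟩
  · have : 0 < 1 - r := by linarith
    positivity
  intro X hX hl
  have hX0 : (0 : ℝ) < X := by exact_mod_cast hX
  set L : ℝ := Real.log X with hL
  set B : ℝ := 2 * K * L with hB
  have hB0 : 0 < B := by positivity
  -- a bound for all `l n`
  obtain ⟨I, hI⟩ : ∃ I : ℕ, ∀ n ∈ Icc 1 X, l n ≤ 2 ^ I * B := by
    obtain ⟨M, hM⟩ : ∃ M : ℝ, ∀ n ∈ Icc 1 X, l n ≤ M := by
      refine ⟨∑ n ∈ Icc 1 X, |l n|, fun n hn => ?_⟩
      exact (le_abs_self _).trans (single_le_sum (f := fun n => |l n|) (fun _ _ => abs_nonneg _) hn)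
    obtain ⟨I, hI⟩ := pow_unbounded_of_one_lt (M / B) (show (1 : ℝ) < 2 by norm_num)
    refine ⟨I, fun n hn => (hM n hn).trans ?_⟩
    rw [div_lt_iff₀ hB0] at hI
    exact hI.le
  calc ∑ n ∈ (Icc 1 X).filter (fun n => B < l n), (l n) ^ p
      ≤ ∑ n ∈ (Icc 1 X).filter (fun n => B < l n),
          ∑ i ∈ range I, (if 2 ^ i * B < l n then (2 ^ (i + 1) * B) ^ p else 0) := by
        apply sum_le_sum
        intro n hn
        rw [mem_filter] at hn
        exact qt3_dyadic hB0 hp hn.2 (hI n hn.1)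
    _ ≤ ∑ n ∈ Icc 1 X, ∑ i ∈ range I, (if 2 ^ i * B < l n then (2 ^ (i + 1) * B) ^ p else 0) := by
        apply sum_le_sum_of_subset_of_nonneg (filter_subset _ _)
        intro n _ _
        apply sum_nonneg
        intro i _
        split_ifs
        · positivity
        · exact le_rfl
    _ = ∑ i ∈ range I, ((#{n ∈ Icc 1 X | 2 ^ i * B < l n} : ℕ) : ℝ) * (2 ^ (i + 1) * B) ^ p := by
        rw [sum_comm]
        apply sum_congr rfl
        intro i _
        rw [← sum_filter, sum_const, nsmul_eq_mul]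
    _ ≤ ∑ i ∈ range I, (K * (2 * K) ^ (p - q) * 2 ^ p * L ^ (p - q) * X) * r ^ i := by
        apply sum_le_sum
        intro i _
        have h1 : K * (1 + L) ≤ 2 ^ i * B := by
          have h2 : (1 : ℝ) ≤ 2 ^ i := one_le_pow₀ (by norm_num)
          have h3 : K * (1 + L) ≤ B := by rw [hB]; nlinarith
          nlinarith
        have h4 := hT X hX (2 ^ i * B) h1
        have h5 : (0 : ℝ) ≤ (2 ^ (i + 1) * B) ^ p := by positivity
        calc ((#{n ∈ Icc 1 X | 2 ^ i * B < l n} : ℕ) : ℝ) * (2 ^ (i + 1) * B) ^ p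
            ≤ (K * (2 ^ i * B) ^ (-q) * X) * (2 ^ (i + 1) * B) ^ p := mul_le_mul_of_nonneg_right h4 h5
          _ = (K * (2 * K) ^ (p - q) * 2 ^ p * L ^ (p - q) * X) * r ^ i := by
            have e1 : ((2 : ℝ) ^ (i + 1) * B) ^ p = 2 ^ p * ((2 ^ i * B) ^ p) := by
              rw [pow_succ, show (2 : ℝ) ^ i * 2 * B = 2 * (2 ^ i * B) by ring,
                Real.mul_rpow (by norm_num) (by positivity)]
            have e2 : ((2 : ℝ) ^ i * B) ^ (-q) * ((2 : ℝ) ^ i * B) ^ p = ((2 : ℝ) ^ i * B) ^ (p - q) := by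
              rw [← Real.rpow_add (by positivity)]
              congr 1
              ring
            have e3 : ((2 : ℝ) ^ i * B) ^ (p - q) = r ^ i * ((2 * K) ^ (p - q) * L ^ (p - q)) := by
              rw [Real.mul_rpow (by positivity) (by positivity), hB,
                Real.mul_rpow (by positivity) (by positivity), hr, ← Real.rpow_natCast,
                ← Real.rpow_natCast, ← Real.rpow_mul (by norm_num), ← Real.rpow_mul (by norm_num),
                mul_comm (i : ℝ)]
            calc (K * (2 ^ i * B) ^ (-q) * X) * (2 ^ (i + 1) * B) ^ p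
                = K * X * 2 ^ p * (((2 : ℝ) ^ i * B) ^ (-q) * ((2 : ℝ) ^ i * B) ^ p) := by
                  rw [e1]; ring
              _ = _ := by rw [e2, e3]; ring
    _ = (K * (2 * K) ^ (p - q) * 2 ^ p * L ^ (p - q) * X) * ∑ i ∈ range I, r ^ i := by
        rw [mul_sum]
    _ ≤ (K * (2 * K) ^ (p - q) * 2 ^ p * L ^ (p - q) * X) * (1 / (1 - r)) := by
        apply mul_le_mul_of_nonneg_left _ (by positivity)
        have h1 : ∑ i ∈ range I, r ^ i ≤ ∑' i : ℕ, r ^ i :=
          (summable_geometric_of_lt_one hr0.le hr1).sum_le_tsum _ (fun _ _ => by positivity)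
        rw [tsum_geometric_of_lt_one hr0.le hr1] at h1
        rw [one_div]
        exact h1
    _ = K * (2 * K) ^ (p - q) * 2 ^ p * (1 / (1 - r)) * L ^ (p - q) * X := by ring

/-- **Moments.** A nonnegative function `l` with `l n ~ c log X` for almost all `n ≤ X` and the tail bound
`#{n ≤ X : l n > T} ≤ K T^(-q) X` for `T ≥ K (1 + log X)` satisfies
`(1/X) ∑_{n ≤ X} (l n)^p ~ (c log X)^p` for all `0 < p < q`. -/
theorem qt3_moment {l : ℕ → ℝ} (hl0 : ∀ n, 0 ≤ l n) {q p K c : ℝ} (hp : 0 < p) (hpq : p < q)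
    (hK : 0 < K) (hc : 0 < c)
    (hT : ∀ X : ℕ, 1 ≤ X → ∀ T : ℝ, K * (1 + Real.log X) ≤ T →
      ((#{n ∈ Icc 1 X | T < l n} : ℕ) : ℝ) ≤ K * T ^ (-q) * X)
    (hL : ∀ ε : ℝ, 0 < ε → Tendsto (fun X : ℕ =>
      ((#{n ∈ Icc 1 X | ε * Real.log X < |l n - c * Real.log X|} : ℕ) : ℝ) / X) atTop (𝓝 0)) :
    Tendsto (fun X : ℕ => (∑ n ∈ Icc 1 X, (l n) ^ p) / (X * (Real.log X) ^ p)) atTop
      (𝓝 (c ^ p)) := by
  classical
  obtain ⟨D, hD, htail⟩ := qt3_tail hp hpq hK hT
  rw [Metric.tendsto_atTop]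
  intro η hη
  -- continuity of `x ^ p` at `c`
  have hcont : ContinuousAt (fun x : ℝ => x ^ p) c := Real.continuousAt_rpow_const c p (Or.inl hc.ne')
  rw [Metric.continuousAt_iff] at hcont
  obtain ⟨ε, hε, hcε⟩ := hcont (η / 4) (by positivity)
  set ε' : ℝ := ε / 2 with hε'
  have hε'p : 0 < ε' := by positivity
  set B : ℝ := (2 * K) ^ p + c ^ p with hB
  have hBp : 0 < B := by positivity
  -- eventual smallness
  have hlogt : Tendsto (fun X : ℕ => Real.log X) atTop atTop :=
    Real.tendsto_log_atTop.comp tendsto_natCast_atTop_atTop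
  have h1 : ∀ᶠ X : ℕ in atTop,
      ((#{n ∈ Icc 1 X | ε' * Real.log X < |l n - c * Real.log X|} : ℕ) : ℝ) / X < η / (4 * B) := by
    have := (hL ε' hε'p).eventually (gt_mem_nhds (show (0 : ℝ) < η / (4 * B) by positivity))
    exact this
  have h2 : ∀ᶠ X : ℕ in atTop, D * (Real.log X) ^ (-q) < η / 4 := by
    have ht : Tendsto (fun X : ℕ => D * (Real.log X) ^ (-q)) atTop (𝓝 (D * 0)) :=
      ((tendsto_rpow_neg_atTop (by linarith : 0 < q)).comp hlogt).const_mul D
    rw [mul_zero] at ht
    exact ht.eventually (gt_mem_nhds (show (0 : ℝ) < η / 4 by positivity))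
  have h3 : ∀ᶠ X : ℕ in atTop, 1 ≤ Real.log X := hlogt.eventually_ge_atTop 1
  have h4 : ∀ᶠ X : ℕ in atTop, 1 ≤ X := eventually_ge_atTop 1
  obtain ⟨X0, hX0⟩ := (((h1.and h2).and h3).and h4).exists_forall_of_atTop
  refine ⟨X0, ?_⟩
  intro X hX
  obtain ⟨⟨⟨g1, g2⟩, g3⟩, g4⟩ := hX0 X hX
  have hXp : (0 : ℝ) < X := by exact_mod_cast g4
  set L : ℝ := Real.log X with hLdef
  have hLp : 0 < L := by linarith
  have hLpp : 0 < L ^ p := by positivity
  set bad : Finset ℕ := {n ∈ Icc 1 X | ε' * L < |l n - c * L|} with hbad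
  set big : Finset ℕ := (Icc 1 X).filter (fun n => 2 * K * L < l n) with hbig
  have hcard : ((Icc 1 X).card : ℝ) = X := by simp
  -- pointwise bound
  have hpt : ∀ n ∈ Icc 1 X, |(l n) ^ p - (c * L) ^ p| ≤ η / 4 * L ^ p
      + (if n ∈ bad then B * L ^ p else 0) + (if n ∈ big then (l n) ^ p else 0) := by
    intro n hn
    by_cases hb : n ∈ bad
    · by_cases hg : n ∈ big
      · rw [if_pos hb, if_pos hg]
        have h5 : |(l n) ^ p - (c * L) ^ p| ≤ (l n) ^ p + (c * L) ^ p := by
          rw [abs_le]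
          constructor <;> nlinarith [Real.rpow_nonneg (hl0 n) p, Real.rpow_nonneg (mul_pos hc hLp).le p]
        have h6 : (c * L) ^ p ≤ B * L ^ p := by
          rw [Real.mul_rpow hc.le hLp.le, hB]
          have : 0 ≤ (2 * K) ^ p := by positivity
          nlinarith
        have h7 : 0 ≤ η / 4 * L ^ p := by positivity
        linarith
      · rw [if_pos hb, if_neg hg]
        have hle : l n ≤ 2 * K * L := by
          by_contra hcon
          push Not at hcon
          exact hg (by rw [hbig, mem_filter]; exact ⟨hn, hcon⟩)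
        have h5 : (l n) ^ p ≤ (2 * K) ^ p * L ^ p := by
          rw [← Real.mul_rpow (by positivity) hLp.le]
          exact Real.rpow_le_rpow (hl0 n) hle hp.le
        have h6 : (c * L) ^ p = c ^ p * L ^ p := Real.mul_rpow hc.le hLp.le
        have h7 : 0 ≤ η / 4 * L ^ p := by positivity
        have h8 : 0 ≤ (l n) ^ p := Real.rpow_nonneg (hl0 n) p
        have h9 : 0 ≤ c ^ p * L ^ p := by positivity
        have h10 : 0 ≤ (2 * K) ^ p * L ^ p := by positivity
        rw [h6, hB, abs_le]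
        constructor <;> nlinarith
    · rw [if_neg hb]
      have hle : |l n - c * L| ≤ ε' * L := by
        by_contra hcon
        push Not at hcon
        exact hb (by rw [hbad, mem_filter]; exact ⟨hn, hcon⟩)
      have h5 : dist (l n / L) c < ε := by
        rw [Real.dist_eq]
        have : l n / L - c = (l n - c * L) / L := by field_simp
        rw [this, abs_div, abs_of_pos hLp, div_lt_iff₀ hLp]
        rw [hε'] at hle
        nlinarith
      have h6 := hcε h5
      rw [Real.dist_eq] at h6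
      have h7 : (l n) ^ p - (c * L) ^ p = ((l n / L) ^ p - c ^ p) * L ^ p := by
        rw [sub_mul, ← Real.mul_rpow (by have := hl0 n; positivity) hLp.le,
          ← Real.mul_rpow hc.le hLp.le, div_mul_cancel₀ _ hLp.ne']
      have h8 : |(l n) ^ p - (c * L) ^ p| ≤ η / 4 * L ^ p := by
        rw [h7, abs_mul, abs_of_pos hLpp]
        exact mul_le_mul_of_nonneg_right h6.le hLpp.le
      have h9 : 0 ≤ (if n ∈ big then (l n) ^ p else 0) := by
        split_ifs
        · exact Real.rpow_nonneg (hl0 n) p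
        · exact le_rfl
      linarith
  have hsum : ∑ n ∈ Icc 1 X, |(l n) ^ p - (c * L) ^ p| ≤ 3 * (η / 4) * (X * L ^ p) := by
    calc ∑ n ∈ Icc 1 X, |(l n) ^ p - (c * L) ^ p|
        ≤ ∑ n ∈ Icc 1 X, (η / 4 * L ^ p + (if n ∈ bad then B * L ^ p else 0)
            + (if n ∈ big then (l n) ^ p else 0)) := sum_le_sum hpt
      _ = η / 4 * L ^ p * X + bad.card * (B * L ^ p) + ∑ n ∈ big, (l n) ^ p := by
          rw [sum_add_distrib, sum_add_distrib, sum_const, nsmul_eq_mul, hcard, ← sum_filter,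
            ← sum_filter, sum_const, nsmul_eq_mul]
          have e1 : (Icc 1 X).filter (fun n => n ∈ bad) = bad := by
            ext n
            simp only [mem_filter, hbad]
            tauto
          have e2 : (Icc 1 X).filter (fun n => n ∈ big) = big := by
            ext n
            simp only [mem_filter, hbig]
            tauto
          rw [e1, e2]
          ring
      _ ≤ η / 4 * L ^ p * X + η / 4 * (X * L ^ p) + η / 4 * (X * L ^ p) := by
          have e3 : (bad.card : ℝ) * (B * L ^ p) ≤ η / 4 * (X * L ^ p) := by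
            rw [div_lt_iff₀ hXp] at g1
            have : (bad.card : ℝ) * B ≤ η / 4 * X := by
              calc (bad.card : ℝ) * B ≤ (η / (4 * B) * X) * B :=
                    mul_le_mul_of_nonneg_right g1.le hBp.le
                _ = η / 4 * X := by field_simp
            nlinarith
          have e4 : ∑ n ∈ big, (l n) ^ p ≤ η / 4 * (X * L ^ p) := by
            refine (htail X g4 g3).trans ?_
            have : D * L ^ (p - q) * X = (D * L ^ (-q)) * (X * L ^ p) := by
              rw [sub_eq_add_neg, Real.rpow_add hLp]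
              ring
            rw [this]
            exact mul_le_mul_of_nonneg_right g2.le (by positivity)
          linarith
      _ = 3 * (η / 4) * (X * L ^ p) := by ring
  rw [Real.dist_eq]
  have e5 : (∑ n ∈ Icc 1 X, (l n) ^ p) / (X * L ^ p) - c ^ p =
      (∑ n ∈ Icc 1 X, ((l n) ^ p - (c * L) ^ p)) / (X * L ^ p) := by
    rw [sum_sub_distrib, sum_const, nsmul_eq_mul, hcard, Real.mul_rpow hc.le hLp.le]
    field_simp
  rw [e5, abs_div, abs_of_pos (show 0 < X * L ^ p by positivity), div_lt_iff₀ (by positivity)]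
  calc |∑ n ∈ Icc 1 X, ((l n) ^ p - (c * L) ^ p)|
      ≤ ∑ n ∈ Icc 1 X, |(l n) ^ p - (c * L) ^ p| := abs_sum_le_sum_abs _ _
    _ ≤ 3 * (η / 4) * (X * L ^ p) := hsum
    _ < η * (X * L ^ p) := by
      apply mul_lt_mul_of_pos_right _ (by positivity)
      linarith

end Pool.Agent.Lib.MP_e43fce_ps
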