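import Pool.Agent.Lib.MP_e43fce_nt_nat.TSH
import Pool.Agent.Lib.MP_e43fce_ps.QT1
import Pool.Agent.Lib.MP_e43fce_ps.QT3

/-! QT4: if `l(n) ≤ K n^κ` for all `n` then the moments of order `p < 1/(21 κ)` of the total stopping
time are as predicted (helper80). -/

set_option autoImplicit false

namespace Pool.Agent.Lib.MP_e43fce_ps

open Finset Filter Topology
open Pool.Agent.Lib.MP_e43fce_nt_nat

/-- the total stopping time as a natural number (`0` if it is infinite) -/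
noncomputable def lst (n : ℕ) : ℕ := sInf {k : ℕ | col^[k] n = 1}

theorem lst_le {n k : ℕ} (h : col^[k] n = 1) : lst n ≤ k := Nat.sInf_le h

theorem lst_spec {n : ℕ} (h : ∃ k, col^[k] n = 1) : col^[lst n] n = 1 := Nat.sInf_mem h

/-- law of large numbers for the total stopping time, if every orbit reaches `1` -/
theorem qt4_lln (hall : ∀ n : ℕ, 1 ≤ n → ∃ k : ℕ, col^[k] n = 1) {ε : ℝ} (hε : 0 < ε) :
    Tendsto (fun X : ℕ => ((#{n ∈ Icc 1 X | ε * Real.log X <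
      |(lst n : ℝ) - 3 / Real.log (4 / 3) * Real.log X|} : ℕ) : ℝ) / X) atTop (𝓝 0) := by
  classical
  obtain ⟨c, δ, hc, -, h2, -, h4⟩ := fin_passage2
  have hδ : δ {1} 0 = 1 := by
    rw [h4]
    intro n hn
    obtain ⟨k, hk⟩ := hall n hn
    unfold tau
    rw [HFin.inf_ne_top]
    exact ⟨k, Or.inl (by rw [hk]; exact mem_singleton_self 1)⟩
  set c0 : ℝ := 3 / Real.log (4 / 3) with hc0
  set σ : ℝ := (3 * Real.log 2 / Real.log (4 / 3) - 1) * Real.sqrt (2 / Real.log (4 / 3)) with hσ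
  have hlog43 : 0 < Real.log (4 / 3) := Real.log_pos (by norm_num)
  have hσp : 0 < σ := by
    rw [hσ]
    apply mul_pos
    · rw [sub_pos, lt_div_iff₀ hlog43]
      have h5 : Real.log (4 / 3) < Real.log 2 := Real.log_lt_log (by norm_num) (by norm_num)
      have h6 : 0 < Real.log 2 := Real.log_pos (by norm_num)
      linarith
    · exact Real.sqrt_pos.mpr (by positivity)
  -- the counting function
  have hcount : ∀ X : ℕ, 1 ≤ X → ∀ t : ℝ,
      cnt {n | ∃ k : ℕ, tau {1} (fun _ => 0) n = k ∧ (k : ℝ) ≤ t} X =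
        ((#{n ∈ Icc 1 X | (lst n : ℝ) ≤ t} : ℕ) : ℝ) := by
    intro X hX t
    unfold cnt
    rw [← Set.ncard_coe_finset]
    congr 2
    ext n
    simp only [Set.mem_inter_iff, Set.mem_setOf_eq, Set.mem_Icc, coe_filter, mem_Icc]
    constructor
    · rintro ⟨h5, h6⟩
      unfold tau at h5
      rw [HFin.inf_real] at h5
      obtain ⟨k, hk, hk2⟩ := h5
      refine ⟨h6, ?_⟩
      have h7 : col^[k] n = 1 := by
        rcases hk2 with h8 | h8
        · exact mem_singleton.mp h8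
        · have h10 := qt1_iter_pos h6.1 k
          have h11 : col^[k] n ≤ 0 := h8
          omega
      have h9 : (lst n : ℝ) ≤ k := by exact_mod_cast lst_le h7
      linarith
    · rintro ⟨h5, h6⟩
      refine ⟨?_, h5⟩
      unfold tau
      rw [HFin.inf_real]
      exact ⟨lst n, h6, Or.inl (by rw [lst_spec (hall n h5.1)]; exact mem_singleton_self 1)⟩
  set Φ : ℝ → ℝ := fun y => (ProbabilityTheory.gaussianReal 0 1).real (Set.Iic y) with hΦ
  have hΦtop : Tendsto Φ atTop (𝓝 1) := by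
    have h := ProbabilityTheory.tendsto_cdf_atTop (ProbabilityTheory.gaussianReal 0 1)
    refine h.congr (fun y => ?_)
    rw [ProbabilityTheory.cdf_eq_real]
  have hΦbot : Tendsto Φ atBot (𝓝 0) := by
    have h := ProbabilityTheory.tendsto_cdf_atBot (ProbabilityTheory.gaussianReal 0 1)
    refine h.congr (fun y => ?_)
    rw [ProbabilityTheory.cdf_eq_real]
  have hlogt : Tendsto (fun X : ℕ => Real.log X) atTop atTop :=
    Real.tendsto_log_atTop.comp tendsto_natCast_atTop_atTop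
  have hsq : Tendsto (fun X : ℕ => Real.sqrt (Real.log X)) atTop atTop :=
    Real.tendsto_sqrt_atTop.comp hlogt
  have hy : Tendsto (fun X : ℕ => ε / σ * Real.sqrt (Real.log X)) atTop atTop :=
    hsq.const_mul_atTop (by positivity)
  rw [Metric.tendsto_atTop]
  intro η hη
  obtain ⟨R, hR⟩ := h2 {1} (η / 8) (by positivity)
  have e1 : ∀ᶠ X : ℕ in atTop, 1 - η / 8 < Φ (ε / σ * Real.sqrt (Real.log X)) :=
    (hΦtop.comp hy).eventually (lt_mem_nhds (by linarith))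
  have e2 : ∀ᶠ X : ℕ in atTop, Φ (-(ε / σ * Real.sqrt (Real.log X))) < η / 8 :=
    (hΦbot.comp (tendsto_neg_atTop_atBot.comp hy)).eventually (gt_mem_nhds (by positivity))
  have e3 : ∀ᶠ X : ℕ in atTop, 1 ≤ X := eventually_ge_atTop 1
  have e4 : ∀ᶠ X : ℕ in atTop, R ≤ (X : ℝ) := tendsto_natCast_atTop_atTop.eventually_ge_atTop R
  obtain ⟨X0, hX0⟩ := (((e1.and e2).and e3).and e4).exists_forall_of_atTop
  refine ⟨X0, ?_⟩
  intro X hX
  obtain ⟨⟨⟨g1, g2⟩, g3⟩, g4⟩ := hX0 X hX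
  have hXp : (0 : ℝ) < X := by exact_mod_cast g3
  have hX1 : (1 : ℝ) ≤ X := by exact_mod_cast g3
  set L : ℝ := Real.log X with hL
  have hL0 : 0 ≤ L := Real.log_nonneg hX1
  obtain ⟨-, h5⟩ := hR 0 X (by simpa using g4)
  have hmax : max ((0 : ℕ) : ℝ) 1 = 1 := by norm_num
  have hδ' : δ {1} (fun _ => 0) = 1 := hδ
  have key : ∀ y : ℝ, |((#{n ∈ Icc 1 X | (lst n : ℝ) ≤ c0 * L + y * σ * Real.sqrt L} : ℕ) : ℝ) -
      Φ y * X| ≤ η / 8 * X := by
    intro y
    have h6 := h5 y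
    rw [hmax, div_one, hδ', one_mul, hcount X g3] at h6
    exact h6
  set y0 : ℝ := ε / σ * Real.sqrt L with hy0
  have hy0e : y0 * σ * Real.sqrt L = ε * L := by
    rw [hy0]
    have : Real.sqrt L * Real.sqrt L = L := Real.mul_self_sqrt hL0
    calc ε / σ * Real.sqrt L * σ * Real.sqrt L = ε * (Real.sqrt L * Real.sqrt L) * (σ / σ) := by ring
      _ = ε * L := by rw [this, div_self hσp.ne', mul_one]
  have k1 := key y0
  have k2 := key (-y0)
  rw [hy0e] at k1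
  rw [show -y0 * σ * Real.sqrt L = -(ε * L) by rw [neg_mul, neg_mul, hy0e]] at k2
  -- the bad set
  have hsub : ({n ∈ Icc 1 X | ε * L < |(lst n : ℝ) - c0 * L|} : Finset ℕ) ⊆
      {n ∈ Icc 1 X | (lst n : ℝ) ≤ c0 * L + -(ε * L)} ∪
        (Icc 1 X \ {n ∈ Icc 1 X | (lst n : ℝ) ≤ c0 * L + ε * L}) := by
    intro n hn
    rw [mem_filter] at hn
    rw [mem_union, mem_filter, Finset.mem_sdiff, mem_filter]
    by_contra hcon
    push Not at hcon
    obtain ⟨q1, q2⟩ := hcon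
    have q3 := q1 hn.1
    have q4 := (q2 hn.1).2
    have q5 : |(lst n : ℝ) - c0 * L| ≤ ε * L := by
      rw [abs_le]
      constructor <;> linarith
    linarith [hn.2]
  have hcard : ((#{n ∈ Icc 1 X | ε * L < |(lst n : ℝ) - c0 * L|} : ℕ) : ℝ) ≤
      ((#{n ∈ Icc 1 X | (lst n : ℝ) ≤ c0 * L + -(ε * L)} : ℕ) : ℝ) +
        (X - ((#{n ∈ Icc 1 X | (lst n : ℝ) ≤ c0 * L + ε * L} : ℕ) : ℝ)) := by
    have h6 := (card_le_card hsub).trans (card_union_le _ _)
    rw [card_sdiff_of_subset (filter_subset _ _)] at h6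
    have h7 : (#{n ∈ Icc 1 X | (lst n : ℝ) ≤ c0 * L + ε * L}) ≤ X := by
      have := card_le_card (filter_subset (fun n : ℕ => (lst n : ℝ) ≤ c0 * L + ε * L) (Icc 1 X))
      simpa using this
    have h8 : ((#(Icc 1 X) - #{n ∈ Icc 1 X | (lst n : ℝ) ≤ c0 * L + ε * L} : ℕ) : ℝ) =
        X - ((#{n ∈ Icc 1 X | (lst n : ℝ) ≤ c0 * L + ε * L} : ℕ) : ℝ) := by
      rw [Nat.card_Icc, Nat.add_sub_cancel, Nat.cast_sub h7]
    rw [← h8]
    exact_mod_cast h6
  rw [Real.dist_eq, sub_zero, abs_of_nonneg (by positivity), div_lt_iff₀ hXp]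
  rw [abs_le] at k1 k2
  have g2' : Φ (-y0) * X ≤ η / 8 * X := mul_le_mul_of_nonneg_right g2.le hXp.le
  have g1' : (1 - η / 8) * X ≤ Φ y0 * X := mul_le_mul_of_nonneg_right g1.le hXp.le
  nlinarith [k1.1, k1.2, k2.1, k2.2]

/-- **Moments of the total stopping time.** -/
theorem qt4_moment {c1 C : ℝ} (hc1 : 0 < c1) (hC : 0 < C)
    (hP : ∀ N X : ℕ, 1 ≤ N → 1 ≤ X → ∀ S : Finset ℕ, (∀ n ∈ S, 1 ≤ n ∧ n ≤ X ∧
      ∀ k : ℕ, (k : ℝ) ≤ c1 * Real.log X + 1 → N < col^[k] n) →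
        (S.card : ℝ) ≤ C * (N : ℝ) ^ (-(1 / 21) : ℝ) * X)
    {κ : ℝ} (hκ : 0 < κ) {K : ℝ}
    (hK : ∀ n : ℕ, 1 ≤ n → ∃ k : ℕ, (k : ℝ) ≤ K * (n : ℝ) ^ κ ∧ col^[k] n = 1)
    {p : ℝ} (hp : 0 < p) (hpκ : p < 1 / (21 * κ)) :
    Tendsto (fun X : ℕ => (∑ n ∈ Icc 1 X, (lst n : ℝ) ^ p) / (X * (Real.log X) ^ p)) atTop
      (𝓝 ((3 / Real.log (4 / 3)) ^ p)) := by
  classical
  obtain ⟨K', hK', h⟩ := qt_poly hc1 hC hP hκ hK
  have hall : ∀ n : ℕ, 1 ≤ n → ∃ k : ℕ, col^[k] n = 1 := fun n hn => by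
    obtain ⟨k, -, hk⟩ := hK n hn
    exact ⟨k, hk⟩
  have hlog43 : 0 < Real.log (4 / 3) := Real.log_pos (by norm_num)
  refine qt3_moment (l := fun n => (lst n : ℝ)) (fun n => by positivity) hp hpκ hK' (by positivity)
    ?_ (fun ε hε => qt4_lln hall hε)
  intro X hX T hT
  refine h X hX T hT _ ?_
  intro n hn
  rw [mem_filter, mem_Icc] at hn
  refine ⟨hn.1.1, hn.1.2, ?_⟩
  intro k hk he
  have h1 : (lst n : ℝ) ≤ k := by exact_mod_cast lst_le he
  linarith [hn.2]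

end Pool.Agent.Lib.MP_e43fce_ps
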