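import Pool.Agent.Lib.MP_e43fce_nt_nat.BT1

/-!
Almost all Collatz orbits attain almost bounded values, in the sense of natural density, with an
exceptional set smaller than every power of the logarithm and with the sharp number of steps.
-/

set_option autoImplicit false

namespace Pool.Agent.Lib.MP_e43fce_ps.RetiredAlmostAllOrbits

/-- the Collatz map -/
def C (n : ℕ) : ℕ := if n % 2 = 0 then n / 2 else 3 * n + 1

open Classical in
/-- For every `ε > 0` and every `B` there is `K` such that for all `N ≥ 2` and `X ≥ 1` at most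
`K (log N)^(-B) X` of the `n ≤ X` have an orbit which stays above `N` during the first
`(3 / log (4/3) + ε) log X + K` steps. -/
theorem result : ∀ ε : ℝ, 0 < ε → ∀ B : ℕ, ∃ K : ℝ, 0 < K ∧ ∀ N X : ℕ, 2 ≤ N → 1 ≤ X →
    (((Finset.Icc 1 X).filter (fun n : ℕ => ∀ k : ℕ,
        (k : ℝ) ≤ (3 / Real.log (4 / 3) + ε) * Real.log X + K → N < C^[k] n)).card : ℝ)
      ≤ K / (Real.log N) ^ B * X :=
  fun _ hε B => Pool.Agent.Lib.MP_e43fce_nt_nat.T1_allB hε B

end Pool.Agent.Lib.MP_e43fce_ps.RetiredAlmostAllOrbits
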